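import Pool.Agent.Helper237.PF.Defs

set_option autoImplicit false

open Metric Set Filter Topology

namespace PFrame

namespace J4654

/-- the operator `g ↦ (h ↦ (y ↦ g y (h, 0)))` -/
theorem cp_T (X : Type*) [NormedAddCommGroup X] [NormedSpace ℂ X] (K : Set ℂ) [CompactSpace K] :
    ∃ T : C(K, (X × ℂ) →L[ℂ] ℂ) →L[ℂ] (X →L[ℂ] C(K, ℂ)), ∀ g h y, T g h y = g y (h, 0) := by
  let f : C(K, (X × ℂ) →L[ℂ] ℂ) →ₗ[ℂ] X →ₗ[ℂ] C(K, ℂ) :=
    LinearMap.mk₂ ℂ (fun g h => (⟨fun y => g y (h, 0), by fun_prop⟩ : C(K, ℂ)))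
      (by intro g g' h; ext y; simp)
      (by intro c g h; ext y; simp)
      (by
        intro g h h'; ext y
        have : ((h + h', 0) : X × ℂ) = (h, 0) + (h', 0) := by simp
        simp only [ContinuousMap.coe_mk, ContinuousMap.add_apply]
        rw [this, map_add])
      (by
        intro c g h; ext y
        have : ((c • h, 0) : X × ℂ) = c • (h, 0) := by simp
        simp only [ContinuousMap.coe_mk, ContinuousMap.smul_apply]
        rw [this, map_smul])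
  have hb : ∀ g h, ‖f g h‖ ≤ 1 * ‖g‖ * ‖h‖ := by
    intro g h
    rw [ContinuousMap.norm_le _ (by positivity)]
    intro y
    have h1 : ‖g y (h, 0)‖ ≤ ‖g y‖ * ‖((h, 0) : X × ℂ)‖ := (g y).le_opNorm _
    have h2 : ‖((h, 0) : X × ℂ)‖ = ‖h‖ := by simp [Prod.norm_def]
    have h3 : ‖g y‖ ≤ ‖g‖ := g.norm_coe_le_norm y
    show ‖g y (h, 0)‖ ≤ _
    rw [h2] at h1
    rw [one_mul]
    exact h1.trans (mul_le_mul_of_nonneg_right h3 (norm_nonneg _))
  let T := LinearMap.mkContinuous₂ (E := C(K, (X × ℂ) →L[ℂ] ℂ)) (F := X) (G := C(K, ℂ)) (𝕜 := ℂ) (𝕜₂ := ℂ) (𝕜₃ := ℂ) f 1 hb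
  refine ⟨T, fun g h y => ?_⟩
  simp [T, f]

theorem cp_curry {X Z : Type*} [NormedAddCommGroup X] [NormedAddCommGroup Z]
    {U : Set (X × ℂ)} {f : X × ℂ → Z} (hf : ContinuousOn f U)
    (K : Set ℂ) [CompactSpace K] {U' : Set X} (hK : U' ×ˢ K ⊆ U) :
    ∃ Φ : X → C(K, Z), ContinuousOn Φ U' ∧ ∀ x ∈ U', ∀ y : K, Φ x y = f (x, y) := by
  classical
  let F : C(U' × K, Z) := ⟨fun p => f (p.1, p.2), by
    refine hf.comp_continuous (by fun_prop) ?_
    intro p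
    exact hK ⟨p.1.2, p.2.2⟩⟩
  refine ⟨fun x => if h : x ∈ U' then F.curry ⟨x, h⟩ else 0, ?_, ?_⟩
  · rw [continuousOn_iff_continuous_domRestrict]
    have : U'.domRestrict (fun x => if h : x ∈ U' then F.curry ⟨x, h⟩ else 0) = F.curry := by
      ext ⟨x, hx⟩ y
      simp [Set.domRestrict, hx]
    rw [this]
    exact F.curry.continuous
  · intro x hx y
    simp [hx, F]

theorem curry_contDiffOn {X : Type*} [NormedAddCommGroup X] [NormedSpace ℂ X]
    {U : Set (X × ℂ)} (hU : IsOpen U) {f : X × ℂ → ℂ} (hf : ContDiffOn ℂ 1 f U)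
    (K : Set ℂ) [CompactSpace K] {U' : Set X} (hU' : IsOpen U') (hK : U' ×ˢ K ⊆ U) :
    ∃ Φ : X → C(K, ℂ), ContDiffOn ℂ 1 Φ U' ∧ ∀ x ∈ U', ∀ y : K, Φ x y = f (x, y) := by
  obtain ⟨T, hT⟩ := cp_T X K
  obtain ⟨Φ, hΦ, hΦe⟩ := cp_curry hf.continuousOn K hK
  obtain ⟨D, hD, hDe⟩ := cp_curry (hf.continuousOn_fderiv_of_isOpen hU le_rfl) K hK
  refine ⟨Φ, ?_, hΦe⟩
  have key : ∀ x₀ ∈ U', HasFDerivAt Φ (T (D x₀)) x₀ := by
    intro x₀ hx₀
    rw [hasFDerivAt_iff_isLittleO, Asymptotics.isLittleO_iff]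
    intro ε hε
    have hc : ContinuousAt D x₀ := (hD x₀ hx₀).continuousAt (hU'.mem_nhds hx₀)
    have hev : ∀ᶠ x in 𝓝 x₀, x ∈ U' ∧ dist (D x) (D x₀) < ε :=
      by filter_upwards [hU'.mem_nhds hx₀, hc (ball_mem_nhds _ hε)] with x h1 h2 using ⟨h1, h2⟩
    obtain ⟨r, hr, hb⟩ := Metric.eventually_nhds_iff_ball.1 hev
    filter_upwards [ball_mem_nhds x₀ hr] with x hx
    rw [ContinuousMap.norm_le _ (by positivity)]
    intro y
    have hder : ∀ z ∈ ball x₀ r, HasFDerivWithinAt (fun z => f (z, (y : ℂ)))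
        ((fderiv ℂ f (z, (y : ℂ))).comp (ContinuousLinearMap.inl ℂ X ℂ)) (ball x₀ r) z := by
      intro z hz
      have hzU : ((z, (y : ℂ)) : X × ℂ) ∈ U := hK ⟨(hb z hz).1, y.2⟩
      have h1 : HasFDerivAt f (fderiv ℂ f (z, (y : ℂ))) (z, (y : ℂ)) :=
        ((hf.differentiableOn one_ne_zero) _ hzU |>.differentiableAt (hU.mem_nhds hzU)).hasFDerivAt
      have h2 : HasFDerivAt (fun z : X => (z, (y : ℂ))) (ContinuousLinearMap.inl ℂ X ℂ) z :=
        hasFDerivAt_prodMk_left z (y : ℂ)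
      exact (h1.comp z h2).hasFDerivWithinAt
    have hbd : ∀ z ∈ ball x₀ r, ‖(fderiv ℂ f (z, (y : ℂ))).comp (ContinuousLinearMap.inl ℂ X ℂ) -
        (fderiv ℂ f (x₀, (y : ℂ))).comp (ContinuousLinearMap.inl ℂ X ℂ)‖ ≤ ε := by
      intro z hz
      rw [← ContinuousLinearMap.sub_comp]
      refine (ContinuousLinearMap.opNorm_comp_le _ _).trans ?_
      have h1 : ‖ContinuousLinearMap.inl ℂ X ℂ‖ ≤ 1 := ContinuousLinearMap.norm_inl_le_one ℂ X ℂ
      have h2 : ‖fderiv ℂ f (z, (y : ℂ)) - fderiv ℂ f (x₀, (y : ℂ))‖ ≤ ε := by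
        rw [← hDe z (hb z hz).1 y, ← hDe x₀ hx₀ y]
        have h3 := (D z - D x₀).norm_coe_le_norm y
        have h4 := (hb z hz).2
        rw [dist_eq_norm] at h4
        exact h3.trans h4.le
      calc _ ≤ ‖fderiv ℂ f (z, (y : ℂ)) - fderiv ℂ f (x₀, (y : ℂ))‖ * 1 :=
            mul_le_mul_of_nonneg_left h1 (norm_nonneg _)
        _ ≤ ε := by rw [mul_one]; exact h2
    have h5 := (convex_ball x₀ r).norm_image_sub_le_of_norm_hasFDerivWithin_le' (𝕜 := ℂ) hder hbd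
      (mem_ball_self hr) hx
    have h6 : (Φ x - Φ x₀ - T (D x₀) (x - x₀)) y = f (x, (y : ℂ)) - f (x₀, (y : ℂ)) -
        ((fderiv ℂ f (x₀, (y : ℂ))).comp (ContinuousLinearMap.inl ℂ X ℂ)) (x - x₀) := by
      rw [ContinuousMap.sub_apply, ContinuousMap.sub_apply, hT, hΦe x (hb x hx).1, hΦe x₀ hx₀,
        hDe x₀ hx₀]
      simp
    rw [h6]
    exact h5
  have h1 : ContDiffOn ℂ (0 + 1) Φ U' := by
    rw [contDiffOn_succ_iff_fderiv_of_isOpen hU']
    refine ⟨fun x hx => (key x hx).differentiableAt.differentiableWithinAt, by simp, ?_⟩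
    rw [contDiffOn_zero]
    have h2 : ContinuousOn (fun x => T (D x)) U' := T.continuous.comp_continuousOn hD
    exact h2.congr fun x hx => (key x hx).fderiv
  simpa using h1

end J4654

export J4654 (curry_contDiffOn)

end PFrame
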