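import Mathlib

set_option autoImplicit false

open MeasureTheory Metric

namespace PFrame

/-- a finite measure on a sphere with finite support is a finite combination of point masses -/
theorem decomp {d : ℕ} (μ : Measure (sphere (0 : EuclideanSpace ℝ (Fin (d + 1))) 1))
    (hfin : μ.support.Finite) :
    ∃ (N : ℕ) (x : Fin N → sphere (0 : EuclideanSpace ℝ (Fin (d + 1))) 1) (w : Fin N → ENNReal),
      Function.Injective x ∧ (∀ i, 0 < w i) ∧ μ = ∑ i, w i • Measure.dirac (x i) := by
  have hcompl : μ μ.supportᶜ = 0 := Measure.measure_compl_support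
  have : Fintype μ.support := hfin.fintype
  let e := (Fintype.equivFin μ.support).symm
  refine ⟨Fintype.card μ.support, fun i => (e i : sphere (0 : EuclideanSpace ℝ (Fin (d + 1))) 1), fun i => μ {(e i : sphere (0 : EuclideanSpace ℝ (Fin (d + 1))) 1)},
    fun i j h => e.injective (Subtype.ext h), ?_, ?_⟩
  · intro i
    have hi : ((e i : μ.support) : sphere (0 : EuclideanSpace ℝ (Fin (d + 1))) 1) ∈ μ.support := (e i).2
    by_contra h0
    have h0' : μ {((e i : μ.support) : sphere (0 : EuclideanSpace ℝ (Fin (d + 1))) 1)} = 0 := by simpa using h0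
    -- a neighbourhood of the point meets the support only there
    have hopen : IsOpen (μ.support \ {((e i : μ.support) : sphere (0 : EuclideanSpace ℝ (Fin (d + 1))) 1)})ᶜ :=
      (hfin.subset Set.sdiff_subset).isClosed.isOpen_compl
    have hmem : ((e i : μ.support) : sphere (0 : EuclideanSpace ℝ (Fin (d + 1))) 1) ∈ (μ.support \ {((e i : μ.support) : sphere (0 : EuclideanSpace ℝ (Fin (d + 1))) 1)})ᶜ := by
      simp
    have hpos : 0 < μ ((μ.support \ {((e i : μ.support) : sphere (0 : EuclideanSpace ℝ (Fin (d + 1))) 1)})ᶜ) :=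
      (Measure.mem_support_iff_forall _).1 hi _ (hopen.mem_nhds hmem)
    have hsub : (μ.support \ {((e i : μ.support) : sphere (0 : EuclideanSpace ℝ (Fin (d + 1))) 1)})ᶜ ⊆
        μ.supportᶜ ∪ {((e i : μ.support) : sphere (0 : EuclideanSpace ℝ (Fin (d + 1))) 1)} := by
      intro y hy
      by_cases h : y ∈ μ.support
      · right
        by_contra hne
        exact hy ⟨h, hne⟩
      · left; exact h
    have := measure_mono (μ := μ) hsub
    have h2 : μ (μ.supportᶜ ∪ {((e i : μ.support) : sphere (0 : EuclideanSpace ℝ (Fin (d + 1))) 1)}) = 0 :=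
      measure_union_null hcompl h0'
    rw [h2] at this
    exact absurd this (not_le.mpr hpos)
  · ext A hA
    have h1 : μ A = μ (A ∩ μ.support) := by
      rw [measure_inter_conull hcompl]
    have h2 : A ∩ μ.support = ⋃ i, (A ∩ {(e i : sphere (0 : EuclideanSpace ℝ (Fin (d + 1))) 1)}) := by
      ext y
      simp only [Set.mem_inter_iff, Set.mem_iUnion, Set.mem_singleton_iff]
      constructor
      · rintro ⟨hy, hys⟩
        exact ⟨e.symm ⟨y, hys⟩, hy, by simp⟩
      · rintro ⟨i, hy, rfl⟩
        exact ⟨hy, (e i).2⟩
    rw [h1, h2, measure_iUnion]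
    · rw [tsum_fintype]
      simp only [Measure.coe_finsetSum, Finset.sum_apply, Measure.smul_apply, smul_eq_mul]
      refine Finset.sum_congr rfl fun i _ => ?_
      rw [Measure.dirac_apply' _ hA]
      by_cases h : (e i : sphere (0 : EuclideanSpace ℝ (Fin (d + 1))) 1) ∈ A
      · have : A ∩ {((e i : μ.support) : sphere (0 : EuclideanSpace ℝ (Fin (d + 1))) 1)} = {((e i : μ.support) : sphere (0 : EuclideanSpace ℝ (Fin (d + 1))) 1)} :=
          Set.inter_eq_right.mpr (Set.singleton_subset_iff.mpr h)
        rw [this]
        simp [h]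
      · have : A ∩ {((e i : μ.support) : sphere (0 : EuclideanSpace ℝ (Fin (d + 1))) 1)} = ∅ := by
          ext y
          simp only [Set.mem_inter_iff, Set.mem_singleton_iff, Set.mem_empty_iff_false, iff_false,
            not_and]
          rintro hy rfl
          exact h hy
        rw [this]
        simp [h]
    · intro i j hij
      refine Set.disjoint_left.mpr ?_
      rintro y ⟨_, hy⟩ ⟨_, hy'⟩
      rw [Set.mem_singleton_iff] at hy hy'
      exact hij (e.injective (Subtype.ext (hy.symm.trans hy')))
    · intro i
      exact hA.inter (measurableSet_singleton _)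

end PFrame
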