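import Mathlib

set_option autoImplicit false

open Metric Set Filter Topology

namespace PFrame

/-- common zeros in `U` of all complex `C¹` functions on `U` vanishing on `S` -/
def hull {W : Type*} [NormedAddCommGroup W] [NormedSpace ℂ W] (U S : Set W) : Set W :=
  {z | z ∈ U ∧ ∀ f : W → ℂ, ContDiffOn ℂ 1 f U → (∀ s ∈ S, f s = 0) → f z = 0}

section kernel

variable {W : Type} [NormedAddCommGroup W] [InnerProductSpace ℂ W]

/-- positive semidefiniteness of the kernel `(1 + ⟨u, w⟩) ^ p` on `S` -/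
def PD (p : ℝ) (S : Set W) : Prop :=
  ∀ (s : Finset W) (a : W → ℂ), (↑s ⊆ S) →
    0 ≤ (∑ u ∈ s, ∑ w ∈ s, a u * (starRingEnd ℂ) (a w) * (1 + inner ℂ w u) ^ (p : ℂ)).re

/-- change of centre -/
noncomputable def tau (b u : W) : W :=
  (1 + inner ℂ b u)⁻¹ • (((Real.sqrt (1 + ‖b‖ ^ 2) : ℝ) : ℂ) • u -
    (1 + inner ℂ b u / (1 + (Real.sqrt (1 + ‖b‖ ^ 2) : ℝ))) • b)

/-- no positive semidefinite set accumulates -/
def NoPD (p : ℝ) (d : ℕ) : Prop :=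
  ∀ S : Set (EuclideanSpace ℂ (Fin d)), S ⊆ ball 0 1 → PD p S → ¬ AccPt 0 (𝓟 S)

/-- feature map -/
structure IsFeat (p : ℝ) {E : Type} [NormedAddCommGroup E] [InnerProductSpace ℂ E]
    (v : W → E) (J : E →L[ℂ] E) : Prop where
  smooth : ContDiffOn ℂ 1 v (ball 0 1)
  ker : ∀ u ∈ ball (0 : W) 1, ∀ w ∈ ball (0 : W) 1,
    inner ℂ (v w) (J (v u)) = (1 + inner ℂ w u) ^ (p : ℂ)
  symm : ∀ x y, inner ℂ (J x) y = inner ℂ x (J y)
  J0 : J (v 0) = v 0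
  one : ∀ u ∈ ball (0 : W) 1, inner ℂ (v 0) (v u) = 1

variable {E : Type} [NormedAddCommGroup E] [InnerProductSpace ℂ E]

/-- closed span of the features of `S` -/
def MM (v : W → E) (S : Set W) : Submodule ℂ E := (Submodule.span ℂ (v '' S)).topologicalClosure

/-- Hilbert space hull of `S` -/
def HH (v : W → E) (S : Set W) : Set W := {u | u ∈ ball (0 : W) 1 ∧ v u ∈ MM v S}

/-- a point `c` seen from the set `S` near `0` -/
structure Good (p : ℝ) (v : W → E) (J : E →L[ℂ] E) (c : W) (S : Set W) (f : E →L[ℂ] ℂ) :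
    Prop where
  sub : S ⊆ ball 0 1
  acc : AccPt 0 (𝓟 S)
  bound : ∀ x ∈ Submodule.span ℂ (v '' S),
    ‖f x‖ ^ 2 ≤ (1 + ‖c‖ ^ 2) ^ p * (inner ℂ x (J x)).re
  rel : ∀ s ∈ S, ‖inner ℂ c s‖ ≤ 1 / 2 ∧ f (v s) = (1 + inner ℂ c s) ^ (p : ℂ)
  nrm : ‖f‖ ^ 2 ≤ ‖J‖ * (1 + ‖c‖ ^ 2) ^ p

end kernel

section generalW

variable {W : Type} [NormedAddCommGroup W] [InnerProductSpace ℂ W]
  {E : Type} [NormedAddCommGroup E] [InnerProductSpace ℂ E]
  {p : ℝ} {v : W → E} {J : E →L[ℂ] E}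

end generalW

section main

variable {p : ℝ} {d : ℕ} {E : Type} [NormedAddCommGroup E] [InnerProductSpace ℂ E]
  [CompleteSpace E] {v : EuclideanSpace ℂ (Fin (d + 1)) → E} {J : E →L[ℂ] E}

/-- `b` is a point of `Z` near which the power relation holds on an accumulating subset -/
def Rel (p : ℝ) (v : EuclideanSpace ℂ (Fin (d + 1)) → E) (f : E →L[ℂ] ℂ)
    (c : EuclideanSpace ℂ (Fin (d + 1))) (Z : Set (EuclideanSpace ℂ (Fin (d + 1))))
    (b : EuclideanSpace ℂ (Fin (d + 1))) : Prop :=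
  b ∈ Z ∧ 1 + inner ℂ c b ≠ 0 ∧ ‖f (v b)‖ = ‖1 + inner ℂ c b‖ ^ p ∧
    ∃ T ⊆ Z, AccPt b (𝓟 T) ∧ ∀ s ∈ T, ‖(1 + inner ℂ c s) / (1 + inner ℂ c b) - 1‖ ≤ 1 / 2 ∧
      f (v s) = f (v b) * ((1 + inner ℂ c s) / (1 + inner ℂ c b)) ^ (p : ℂ)

end main

open MeasureTheory in
/-- the `p`-frame energy of a measure on the unit sphere of `ℝ^(d+1)` -/
noncomputable def frameEnergy (d : ℕ) (p : ℝ)
    (μ : Measure (sphere (0 : EuclideanSpace ℝ (Fin (d + 1))) 1)) : ℝ :=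
  ∫ x, ∫ y, |inner ℝ (x : EuclideanSpace ℝ (Fin (d + 1))) (y : EuclideanSpace ℝ (Fin (d + 1)))| ^ p
    ∂μ ∂μ

open MeasureTheory in
/-- minimizers of the `p`-frame energy among Borel probability measures -/
def IsMinimizer (d : ℕ) (p : ℝ)
    (μ : Measure (sphere (0 : EuclideanSpace ℝ (Fin (d + 1))) 1)) : Prop :=
  IsProbabilityMeasure μ ∧
    ∀ ν : Measure (sphere (0 : EuclideanSpace ℝ (Fin (d + 1))) 1), IsProbabilityMeasure ν →
      frameEnergy d p μ ≤ frameEnergy d p ν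

/-- disc algebra: continuous on the closed disc, holomorphic inside -/
def discAlg (c : ℂ) (r : ℝ) : Subalgebra ℂ C(closedBall c r, ℂ) where
  carrier := {g | ∃ G : ℂ → ℂ, DifferentiableOn ℂ G (ball c r) ∧
    ∀ z : closedBall c r, (z : ℂ) ∈ ball c r → g z = G z}
  mul_mem' := by
    rintro a b ⟨A, hA, hA'⟩ ⟨B, hB, hB'⟩
    exact ⟨A * B, hA.mul hB, fun z hz => by simp [hA' z hz, hB' z hz]⟩
  add_mem' := by
    rintro a b ⟨A, hA, hA'⟩ ⟨B, hB, hB'⟩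
    exact ⟨A + B, hA.add hB, fun z hz => by simp [hA' z hz, hB' z hz]⟩
  algebraMap_mem' := by
    intro k
    exact ⟨fun _ => k, differentiableOn_const _, fun z _ => by simp⟩

/-- the function `z - c` -/
def dz (c : ℂ) (r : ℝ) : discAlg c r :=
  ⟨⟨fun z => (z : ℂ) - c, by fun_prop⟩, ⟨fun z => z - c, by fun_prop, fun _ _ => rfl⟩⟩

end PFrame
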