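import Pool.Agent.Helper237.PF.Defs

set_option autoImplicit false

open Metric Set Filter Topology

namespace PFrame

namespace J4655

open Classical in
/-- extension by zero -/
noncomputable def discExt (c : ℂ) (r : ℝ) (g : C(closedBall c r, ℂ)) (z : ℂ) : ℂ :=
  if h : z ∈ closedBall c r then g ⟨z, h⟩ else 0

theorem discAlg_isClosed (c : ℂ) (r : ℝ) :
    IsClosed ((discAlg c r : Subalgebra ℂ C(closedBall c r, ℂ)) : Set C(closedBall c r, ℂ)) := by
  apply IsSeqClosed.isClosed
  intro u g hu hlim
  rw [ContinuousMap.tendsto_iff_tendstoUniformly] at hlim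
  have hval : ∀ (f : C(closedBall c r, ℂ)) (z : ℂ) (hz : z ∈ ball c r),
      discExt c r f z = f ⟨z, ball_subset_closedBall hz⟩ := by
    intro f z hz
    unfold discExt
    rw [dif_pos (ball_subset_closedBall hz)]
  have hd : ∀ n, DifferentiableOn ℂ (discExt c r (u n)) (ball c r) := by
    intro n
    obtain ⟨G, hG, hG'⟩ := hu n
    refine hG.congr (fun z hz => ?_)
    rw [hval _ z hz]
    exact hG' ⟨z, ball_subset_closedBall hz⟩ hz
  have hl : TendstoLocallyUniformlyOn (fun n => discExt c r (u n)) (discExt c r g) atTop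
      (ball c r) := by
    apply TendstoUniformlyOn.tendstoLocallyUniformlyOn
    rw [Metric.tendstoUniformlyOn_iff]
    intro ε hε
    rw [Metric.tendstoUniformly_iff] at hlim
    filter_upwards [hlim ε hε] with n hn z hz
    rw [hval _ z hz, hval _ z hz]
    exact hn _
  exact ⟨discExt c r g, hl.differentiableOn (Filter.Eventually.of_forall hd) isOpen_ball,
    fun z hz => (hval g z hz).symm⟩

end J4655

export J4655 (discAlg_isClosed)

end PFrame
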