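import Pool.Agent.Helper237.PF.Defs

set_option autoImplicit false

open Metric Set Filter Topology

namespace PFrame

namespace J4656

lemma division_algebra {R : Type*} [CommRing R] [Algebra ℂ R] (ev : R →ₐ[ℂ] ℂ) (d U V : R)
    (hUV : U * V = 1) (hd : ev d = 0) (hreg : ∀ q, d * q = 0 → q = 0)
    (hdiv : ∀ h, ∃ h1, h = algebraMap ℂ R (ev h) + d * h1) (m : ℕ) :
    Function.Bijective
      (fun q : R × (Fin m → ℂ) => d ^ m * U * q.1 + ∑ l, q.2 l • d ^ (l : ℕ)) := by
  induction m with
  | zero =>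
    constructor
    · rintro ⟨q, ρ⟩ ⟨q', ρ'⟩ h
      simp only [pow_zero, one_mul, Finset.univ_eq_empty, Finset.sum_empty, add_zero] at h
      have h1 : q = q' := by
        have h2 : V * (U * q) = V * (U * q') := by rw [h]
        rwa [← mul_assoc, ← mul_assoc, mul_comm V U, hUV, one_mul, one_mul] at h2
      rw [h1, Subsingleton.elim ρ ρ']
    · intro h
      refine ⟨(V * h, fun l => l.elim0), ?_⟩
      simp only [pow_zero, one_mul, Finset.univ_eq_empty, Finset.sum_empty, add_zero]
      rw [← mul_assoc, hUV, one_mul]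
  | succ m ih =>
    have key : ∀ (q : R) (ρ : Fin (m + 1) → ℂ),
        d ^ (m + 1) * U * q + ∑ l, ρ l • d ^ (l : ℕ) =
        algebraMap ℂ R (ρ 0) + d * (d ^ m * U * q + ∑ l : Fin m, ρ l.succ • d ^ (l : ℕ)) := by
      intro q ρ
      rw [Fin.sum_univ_succ, mul_add, Finset.mul_sum]
      have h1 : ∑ l : Fin m, ρ l.succ • d ^ ((l.succ : Fin (m + 1)) : ℕ) =
          ∑ l : Fin m, d * ρ l.succ • d ^ (l : ℕ) := by
        refine Finset.sum_congr rfl fun l _ => ?_
        rw [Fin.val_succ, pow_succ', mul_smul_comm]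
      rw [h1, Algebra.algebraMap_eq_smul_one]
      simp only [Fin.val_zero, pow_zero]
      ring
    have hev : ∀ (a : ℂ) (t : R), ev (algebraMap ℂ R a + d * t) = a := by
      intro a t
      rw [map_add, map_mul, hd, zero_mul, add_zero, AlgHom.commutes]
      simp
    constructor
    · rintro ⟨q, ρ⟩ ⟨q', ρ'⟩ h
      simp only [key] at h
      have h0 : ρ 0 = ρ' 0 := by
        have := congrArg ev h
        rwa [hev, hev] at this
      have h1 : d ^ m * U * q + ∑ l : Fin m, ρ l.succ • d ^ (l : ℕ) =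
          d ^ m * U * q' + ∑ l : Fin m, ρ' l.succ • d ^ (l : ℕ) := by
        rw [h0] at h
        have h2 := add_left_cancel h
        rw [← sub_eq_zero, ← mul_sub] at h2
        exact sub_eq_zero.1 (hreg _ h2)
      have h3 : (q, fun l : Fin m => ρ l.succ) = (q', fun l : Fin m => ρ' l.succ) := ih.1 h1
      simp only [Prod.mk.injEq] at h3
      rw [Prod.mk.injEq]
      refine ⟨h3.1, ?_⟩
      funext l
      refine Fin.cases h0 (fun l => ?_) l
      exact congrFun h3.2 l
    · intro h
      obtain ⟨h1, hh1⟩ := hdiv h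
      obtain ⟨⟨q, ρ⟩, hq⟩ := ih.2 h1
      refine ⟨(q, Fin.cons (ev h) ρ), ?_⟩
      simp only [key, Fin.cons_zero, Fin.cons_succ]
      simp only at hq
      rw [hq, ← hh1]

/-- make an element of the disc algebra -/
def mkDisc (c : ℂ) (r : ℝ) (F : ℂ → ℂ) (h1 : ContinuousOn F (closedBall c r))
    (h2 : DifferentiableOn ℂ F (ball c r)) : discAlg c r :=
  ⟨⟨fun z => F z, continuousOn_iff_continuous_domRestrict.1 h1⟩, ⟨F, h2, fun _ _ => rfl⟩⟩

lemma exists_global (c : ℂ) (r : ℝ) (h : discAlg c r) : ∃ F : ℂ → ℂ,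
    ContinuousOn F (closedBall c r) ∧ DifferentiableOn ℂ F (ball c r) ∧
    ∀ z : closedBall c r, h.1 z = F z := by
  classical
  obtain ⟨H, hH, hH'⟩ := h.2
  refine ⟨fun z => if hz : z ∈ closedBall c r then h.1 ⟨z, hz⟩ else 0, ?_, ?_, ?_⟩
  · rw [continuousOn_iff_continuous_domRestrict]
    have : (closedBall c r).domRestrict (fun z => if hz : z ∈ closedBall c r then h.1 ⟨z, hz⟩ else 0)
        = h.1 := by
      funext z
      rw [Set.domRestrict_apply]
      exact dif_pos z.2
    rw [this]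
    exact h.1.continuous
  · refine hH.congr fun z hz => ?_
    have hz' := ball_subset_closedBall hz
    rw [dif_pos hz']
    exact hH' ⟨z, hz'⟩ hz
  · intro z
    show h.1 z = if hz : (z : ℂ) ∈ closedBall c r then h.1 ⟨z, hz⟩ else 0
    rw [dif_pos z.2]

theorem discAlg_division (c : ℂ) (r : ℝ) (hr : 0 < r) (O : Set ℂ) (hO : IsOpen O)
    (hKO : closedBall c r ⊆ O) (G : ℂ → ℂ) (hG : DifferentiableOn ℂ G O)
    (hG0 : ∀ z ∈ closedBall c r, z ≠ c → G z ≠ 0)
    (g : discAlg c r) (hg : ∀ z : closedBall c r, g.1 z = G z) :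
    ∃ m : ℕ, Function.Bijective
      (fun q : discAlg c r × (Fin m → ℂ) => g * q.1 + ∑ l, q.2 l • dz c r ^ (l : ℕ)) := by
  classical
  have hcc : c ∈ closedBall c r := mem_closedBall_self hr.le
  have hcb : closedBall c r ∈ 𝓝 c := closedBall_mem_nhds c hr
  have hcO : c ∈ O := hKO hcc
  have hGa : AnalyticAt ℂ G c := hG.analyticAt (hO.mem_nhds hcO)
  have hnz : ¬ ∀ᶠ z in 𝓝 c, G z = 0 := by
    intro h
    have h1 : ∀ᶠ z in 𝓝[≠] c, False := by
      filter_upwards [nhdsWithin_le_nhds h, nhdsWithin_le_nhds hcb, self_mem_nhdsWithin]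
        with z hz1 hz2 hz3
      exact hG0 z hz2 hz3 hz1
    exact (h1.exists).elim fun _ h => h
  obtain ⟨m, g', hg'a, hg'c, hg'e⟩ := (hGa.exists_eventuallyEq_pow_smul_nonzero_iff).2 hnz
  -- the unit
  set u : ℂ → ℂ := fun z => if z = c then g' c else G z / (z - c) ^ m with hu
  have hGu : ∀ z, G z = (z - c) ^ m * u z := by
    intro z
    by_cases hz : z = c
    · subst hz
      simp only [hu, if_true]
      exact hg'e.self_of_nhds
    · simp only [hu, if_neg hz]
      have : (z - c) ^ m ≠ 0 := pow_ne_zero _ (sub_ne_zero.2 hz)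
      field_simp
  have huloc : u =ᶠ[𝓝 c] g' := by
    filter_upwards [hg'e] with z hz
    by_cases hzc : z = c
    · simp [hu, hzc]
    · simp only [hu, if_neg hzc]
      have : (z - c) ^ m ≠ 0 := pow_ne_zero _ (sub_ne_zero.2 hzc)
      rw [hz, smul_eq_mul]
      field_simp
  have hud : DifferentiableOn ℂ u O := by
    intro z hz
    refine DifferentiableAt.differentiableWithinAt ?_
    by_cases hzc : z = c
    · rw [hzc]
      exact (hg'a.congr huloc.symm).differentiableAt
    · have h1 : u =ᶠ[𝓝 z] fun w => G w / (w - c) ^ m := by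
        filter_upwards [isOpen_ne.mem_nhds hzc] with w hw
        simp only [hu]
        rw [if_neg hw]
      refine DifferentiableAt.congr_of_eventuallyEq ?_ h1
      refine DifferentiableAt.div (hG.differentiableAt (hO.mem_nhds hz)) (by fun_prop) ?_
      exact pow_ne_zero _ (sub_ne_zero.2 hzc)
  have hu0 : ∀ z ∈ closedBall c r, u z ≠ 0 := by
    intro z hz h
    by_cases hzc : z = c
    · rw [hzc] at h
      simp only [hu, if_true] at h
      exact hg'c h
    · exact hG0 z hz hzc (by rw [hGu z, h, mul_zero])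
  have hudK : ContinuousOn u (closedBall c r) := hud.continuousOn.mono hKO
  have hudB : DifferentiableOn ℂ u (ball c r) := hud.mono (ball_subset_closedBall.trans hKO)
  set U : discAlg c r := mkDisc c r u hudK hudB with hU
  set V : discAlg c r := mkDisc c r (fun z => (u z)⁻¹) (hudK.inv₀ hu0)
    (hudB.inv fun z hz => hu0 z (ball_subset_closedBall hz)) with hV
  have hUV : U * V = 1 := by
    apply Subtype.ext
    ext z
    show u z * (u z)⁻¹ = 1
    exact mul_inv_cancel₀ (hu0 z z.2)
  have hgU : g = dz c r ^ m * U := by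
    apply Subtype.ext
    ext z
    show g.1 z = _
    rw [hg z, hGu z]
    show _ = ((dz c r ^ m).1 * U.1) z
    rw [ContinuousMap.mul_apply]
    have h7 : ((dz c r ^ m).1 : C(closedBall c r, ℂ)) z = ((z : ℂ) - c) ^ m := by
      simp [dz]
    rw [h7]
    rfl
  -- evaluation
  let ev : discAlg c r →ₐ[ℂ] ℂ :=
    (ContinuousMap.evalAlgHom ℂ ℂ (⟨c, hcc⟩ : closedBall c r)).comp (discAlg c r).val
  have hev : ∀ h : discAlg c r, ev h = h.1 ⟨c, hcc⟩ := fun h => rfl
  refine ⟨m, ?_⟩
  rw [hgU]
  refine division_algebra ev (dz c r) U V hUV ?_ ?_ ?_ m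
  · rw [hev]
    simp [dz]
  · intro q hq
    apply Subtype.ext
    have h1 : ∀ z : closedBall c r, ((z : ℂ) - c) * q.1 z = 0 := by
      intro z
      have := congrArg (fun f : discAlg c r => f.1 z) hq
      exact this
    obtain ⟨F, hF1, hF2, hF3⟩ := exists_global c r q
    have h2 : ∀ z ∈ closedBall c r, z ≠ c → F z = 0 := by
      intro z hz hzc
      have := h1 ⟨z, hz⟩
      rw [hF3] at this
      exact (mul_eq_zero.1 this).resolve_left (sub_ne_zero.2 hzc)
    have h3 : F c = 0 := by
      have hcont : ContinuousAt F c := hF1.continuousAt hcb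
      have h4 : Tendsto F (𝓝[≠] c) (𝓝 (F c)) := hcont.tendsto.mono_left nhdsWithin_le_nhds
      have h5 : Tendsto F (𝓝[≠] c) (𝓝 0) := by
        refine tendsto_const_nhds.congr' ?_
        filter_upwards [nhdsWithin_le_nhds hcb, self_mem_nhdsWithin] with z hz1 hz2
        exact (h2 z hz1 hz2).symm
      exact tendsto_nhds_unique h4 h5
    ext z
    show q.1 z = 0
    rw [hF3 z]
    by_cases hzc : (z : ℂ) = c
    · rw [hzc, h3]
    · exact h2 z z.2 hzc
  · intro h
    obtain ⟨F, hF1, hF2, hF3⟩ := exists_global c r h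
    have hFd : DifferentiableAt ℂ F c := hF2.differentiableAt (ball_mem_nhds c hr)
    refine ⟨mkDisc c r (dslope F c) ((continuousOn_dslope hcb).2 ⟨hF1, hFd⟩)
      ((Complex.differentiableOn_dslope (ball_mem_nhds c hr)).2 hF2), ?_⟩
    apply Subtype.ext
    ext z
    show h.1 z = h.1 ⟨c, hcc⟩ + ((z : ℂ) - c) * dslope F c z
    rw [hF3, hF3]
    have := sub_smul_dslope F c (z : ℂ)
    rw [smul_eq_mul] at this
    rw [this]
    ring

end J4656

export J4656 (discAlg_division)

end PFrame
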