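import Pool.Agent.Helper237.PF.Defs

set_option autoImplicit false

open Metric Set Filter Topology

namespace PFrame

namespace J4657

/-- restriction of a function holomorphic near the closed disc -/
def restr {c : ℂ} {r : ℝ} {O : Set ℂ} (hKO : closedBall c r ⊆ O) (f : ℂ → ℂ)
    (hf : DifferentiableOn ℂ f O) : discAlg c r :=
  ⟨⟨fun z => f z, (hf.continuousOn.mono hKO).comp_continuous continuous_subtype_val
    (fun z => z.2)⟩, ⟨f, hf.mono (ball_subset_closedBall.trans hKO), fun _ _ => rfl⟩⟩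

theorem discAlg_ext {c : ℂ} {r : ℝ} {a b : discAlg c r}
    (h : ∀ z : closedBall c r, a.1 z = b.1 z) : a = b := by
  apply Subtype.ext
  ext z
  exact h z

/-- the characters of the disc algebra are evaluations on functions holomorphic near the disc -/
theorem char_eval {c : ℂ} {r : ℝ} {O : Set ℂ} (hO : IsOpen O)
    (hKO : closedBall c r ⊆ O) (χ : discAlg c r →ₐ[ℂ] ℂ) :
    ∃ y ∈ closedBall c r, ∀ H : ℂ → ℂ, DifferentiableOn ℂ H O → ∀ h : discAlg c r,
      (∀ z : closedBall c r, h.1 z = H z) → χ h = H y := by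
  set y : ℂ := c + χ (dz c r) with hy
  have hdz : χ (dz c r - algebraMap ℂ _ (y - c)) = 0 := by
    rw [map_sub, AlgHom.commutes, hy]
    simp
  have hyK : y ∈ closedBall c r := by
    by_contra hn
    have hne : ∀ z : closedBall c r, (z : ℂ) - y ≠ 0 := by
      intro z hz
      apply hn
      rw [← sub_eq_zero.1 hz]; exact z.2
    have hinv : ∃ u : discAlg c r, (dz c r - algebraMap ℂ _ (y - c)) * u = 1 := by
      refine ⟨⟨⟨fun z => ((z : ℂ) - y)⁻¹, ?_⟩, ⟨fun z => (z - y)⁻¹, ?_, fun _ _ => rfl⟩⟩, ?_⟩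
      · exact (continuous_subtype_val.sub continuous_const).inv₀ hne
      · intro z hz
        have : z - y ≠ 0 := hne ⟨z, ball_subset_closedBall hz⟩
        exact ((differentiableAt_id.sub_const y).inv this).differentiableWithinAt
      · apply discAlg_ext
        intro z
        have h1 : ((dz c r - algebraMap ℂ (discAlg c r) (y - c)) *
            (⟨⟨fun z => ((z : ℂ) - y)⁻¹, (continuous_subtype_val.sub continuous_const).inv₀ hne⟩,
              ⟨fun z => (z - y)⁻¹, (by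
                intro z hz
                have : z - y ≠ 0 := hne ⟨z, ball_subset_closedBall hz⟩
                exact ((differentiableAt_id.sub_const y).inv this).differentiableWithinAt),
                fun _ _ => rfl⟩⟩ : discAlg c r)).1 z =
            (((z : ℂ) - c) - (y - c)) * ((z : ℂ) - y)⁻¹ := rfl
        rw [h1, sub_sub_sub_cancel_right, mul_inv_cancel₀ (hne z)]
        rfl
    obtain ⟨u, hu⟩ := hinv
    have := congrArg χ hu
    rw [map_mul, hdz, zero_mul, map_one] at this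
    exact zero_ne_one this
  refine ⟨y, hyK, fun H hH h hh => ?_⟩
  have hyO : O ∈ 𝓝 y := hO.mem_nhds (hKO hyK)
  have hH1 : DifferentiableOn ℂ (dslope H y) O := (Complex.differentiableOn_dslope hyO).2 hH
  have hprod : h - algebraMap ℂ _ (H y) =
      (dz c r - algebraMap ℂ _ (y - c)) * restr hKO (dslope H y) hH1 := by
    apply discAlg_ext
    intro z
    have h1 : (h - algebraMap ℂ (discAlg c r) (H y)).1 z = h.1 z - H y := rfl
    have h2 : ((dz c r - algebraMap ℂ (discAlg c r) (y - c)) * restr hKO (dslope H y) hH1).1 z =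
        (((z : ℂ) - c) - (y - c)) * dslope H y z := rfl
    rw [h1, h2, hh, sub_sub_sub_cancel_right, ← smul_eq_mul, sub_smul_dslope]
  have := congrArg χ hprod
  rw [map_mul, hdz, zero_mul, map_sub, AlgHom.commutes] at this
  have h3 : χ h = algebraMap ℂ ℂ (H y) := sub_eq_zero.1 this
  simpa using h3

/-- commutative algebra: a linear family of zero divisors modulo `g₀` is killed by a character -/
theorem exists_char {A : Type*} [CommRing A] [Algebra ℂ A] {m : ℕ} (g₀ d : A)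
    (hbij : Function.Bijective
      (fun q : A × (Fin m → ℂ) => g₀ * q.1 + ∑ l, q.2 l • d ^ (l : ℕ)))
    (M : A → Matrix (Fin m) (Fin m) ℂ)
    (hM : ∀ (g : A) (l : Fin m), ∃ q : A,
      g * d ^ (l : ℕ) = g₀ * q + ∑ k, M g k l • d ^ (k : ℕ))
    {F : Type*} [AddCommGroup F] [Module ℂ F] (ρ₀ : F →ₗ[ℂ] A)
    (hdet : ∀ f, (M (ρ₀ f)).det = 0) :
    ∃ χ : A →ₐ[ℂ] ℂ, χ g₀ = 0 ∧ ∀ f, χ (ρ₀ f) = 0 := by
  classical
  set J : Ideal A := Ideal.span {g₀} with hJ
  let mk : A →ₐ[ℂ] (A ⧸ J) := Ideal.Quotient.mkₐ ℂ J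
  have hmk0 : ∀ a, mk a = 0 ↔ a ∈ J := fun a => Ideal.Quotient.eq_zero_iff_mem
  have hg₀0 : mk g₀ = 0 := (hmk0 _).2 (Ideal.subset_span rfl)
  -- the linear coordinate map
  let ψ : (Fin m → ℂ) →ₗ[ℂ] (A ⧸ J) :=
    { toFun := fun p => mk (∑ l, p l • d ^ (l : ℕ))
      map_add' := by
        intro p q
        rw [← map_add, ← Finset.sum_add_distrib]
        simp only [Pi.add_apply, add_smul]
      map_smul' := by
        intro k p
        simp only [Pi.smul_apply, smul_eq_mul, mul_smul, RingHom.id_apply]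
        rw [← Finset.smul_sum, map_smul] }
  have hψ : ∀ p, ψ p = mk (∑ l, p l • d ^ (l : ℕ)) := fun _ => rfl
  have hψinj : ∀ p, ψ p = 0 → p = 0 := by
    intro p hp
    rw [hψ, hmk0, hJ, Ideal.mem_span_singleton'] at hp
    obtain ⟨a, ha⟩ := hp
    have h1 : (fun q : A × (Fin m → ℂ) => g₀ * q.1 + ∑ l, q.2 l • d ^ (l : ℕ)) (-a, p)
        = (fun q : A × (Fin m → ℂ) => g₀ * q.1 + ∑ l, q.2 l • d ^ (l : ℕ)) (0, 0) := by
      simp only [← ha, Pi.zero_apply, zero_smul, Finset.sum_const_zero, mul_zero, add_zero]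
      ring
    have h2 := hbij.1 h1
    exact (Prod.ext_iff.1 h2).2
  have hψsurj : Function.Surjective ψ := by
    intro x
    obtain ⟨g, rfl⟩ : ∃ g, mk g = x := Ideal.Quotient.mk_surjective x
    obtain ⟨⟨q, p⟩, hq⟩ := hbij.2 g
    refine ⟨p, ?_⟩
    rw [hψ]
    have : g = g₀ * q + ∑ l, p l • d ^ (l : ℕ) := hq.symm
    rw [this, map_add, map_mul, hg₀0, zero_mul, zero_add]
  have hfin : Module.Finite ℂ (A ⧸ J) := Module.Finite.of_surjective ψ hψsurj
  have hart : IsArtinianRing (A ⧸ J) := IsArtinianRing.of_finite ℂ _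
  -- multiplication
  have hmul : ∀ g p, mk g * ψ p = ψ ((M g).mulVec p) := by
    intro g p
    rw [hψ, hψ, ← map_mul, Finset.mul_sum]
    have h1 : ∀ l : Fin m, mk (g * p l • d ^ (l : ℕ)) =
        mk (p l • ∑ k, M g k l • d ^ (k : ℕ)) := by
      intro l
      obtain ⟨q, hq⟩ := hM g l
      rw [mul_smul_comm, hq, smul_add, map_add, ← mul_smul_comm, map_mul, hg₀0, zero_mul, zero_add]
    rw [map_sum, Finset.sum_congr rfl fun l _ => h1 l, ← map_sum]
    congr 1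
    simp only [Finset.smul_sum, Matrix.mulVec, dotProduct, Finset.sum_smul]
    rw [Finset.sum_comm]
    refine Finset.sum_congr rfl fun k _ => Finset.sum_congr rfl fun l _ => ?_
    rw [smul_smul, mul_comm]
  have hnotunit : ∀ g, (M g).det = 0 → ¬ IsUnit (mk g) := by
    intro g hg hu
    obtain ⟨p, hp0, hp⟩ := Matrix.exists_mulVec_eq_zero_iff.2 hg
    have h1 := hmul g p
    rw [hp, map_zero] at h1
    exact hp0 (hψinj p (hu.mul_right_eq_zero.1 h1))
  -- the family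
  let ρ : F →ₗ[ℂ] (A ⧸ J) := mk.toLinearMap.comp ρ₀
  have hρ : ∀ f : F, ∃ 𝔪 : MaximalSpectrum (A ⧸ J), ρ f ∈ 𝔪.asIdeal := by
    intro f
    have h1 : ¬ IsUnit (ρ f) := hnotunit _ (hdet f)
    obtain ⟨I, hI, hfI⟩ := exists_max_ideal_of_mem_nonunits (mem_nonunits_iff.2 h1)
    exact ⟨⟨I, hI⟩, hfI⟩
  let sub : MaximalSpectrum (A ⧸ J) → Submodule ℂ F := fun 𝔪 =>
    (𝔪.asIdeal.restrictScalars ℂ).comap ρ
  obtain ⟨𝔪, h𝔪⟩ : ∃ 𝔪, sub 𝔪 = ⊤ := by
    apply Subspace.exists_eq_top_of_iUnion_eq_univ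
    rw [Set.eq_univ_iff_forall]
    intro f
    obtain ⟨𝔪, h𝔪⟩ := hρ f
    exact Set.mem_iUnion.2 ⟨𝔪, h𝔪⟩
  have hall : ∀ f : F, ρ f ∈ 𝔪.asIdeal := by
    intro f
    have : f ∈ sub 𝔪 := by rw [h𝔪]; trivial
    exact this
  haveI := 𝔪.isMaximal
  letI : Field ((A ⧸ J) ⧸ 𝔪.asIdeal) := Ideal.Quotient.field _
  have hbij2 : Function.Bijective (algebraMap ℂ ((A ⧸ J) ⧸ 𝔪.asIdeal)) :=
    IsAlgClosed.algebraMap_bijective_of_isIntegral
  let ε : ℂ ≃ₐ[ℂ] ((A ⧸ J) ⧸ 𝔪.asIdeal) :=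
    AlgEquiv.ofBijective (Algebra.ofId ℂ _) hbij2
  let χ : A →ₐ[ℂ] ℂ :=
    (ε.symm : ((A ⧸ J) ⧸ 𝔪.asIdeal) →ₐ[ℂ] ℂ).comp
      ((Ideal.Quotient.mkₐ ℂ 𝔪.asIdeal).comp mk)
  have hχ : ∀ g, mk g ∈ 𝔪.asIdeal → χ g = 0 := by
    intro g hg
    show ε.symm (Ideal.Quotient.mk 𝔪.asIdeal (mk g)) = 0
    rw [Ideal.Quotient.eq_zero_iff_mem.2 hg, map_zero]
  exact ⟨χ, hχ g₀ (by rw [hg₀0]; exact 𝔪.asIdeal.zero_mem), fun f => hχ _ (hall f)⟩

theorem fiber {c : ℂ} {r : ℝ} (hr : 0 < r) {m : ℕ} (g₀ : discAlg c r) (O : Set ℂ) (hO : IsOpen O)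
    (hKO : closedBall c r ⊆ O) (G₀ : ℂ → ℂ) (hG₀ : DifferentiableOn ℂ G₀ O)
    (hg₀ : ∀ z : closedBall c r, g₀.1 z = G₀ z) (hne : ∀ z ∈ sphere c r, G₀ z ≠ 0)
    (hbij : Function.Bijective
      (fun q : discAlg c r × (Fin m → ℂ) => g₀ * q.1 + ∑ l, q.2 l • dz c r ^ (l : ℕ)))
    (M : discAlg c r → Matrix (Fin m) (Fin m) ℂ)
    (hM : ∀ (g : discAlg c r) (l : Fin m), ∃ q : discAlg c r,
      g * dz c r ^ (l : ℕ) = g₀ * q + ∑ k, M g k l • dz c r ^ (k : ℕ))
    (F : Submodule ℂ (ℂ → ℂ)) (hF : ∀ f ∈ F, DifferentiableOn ℂ f O)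
    (hdet : ∀ f ∈ F, ∀ g : discAlg c r, (∀ z : closedBall c r, g.1 z = f z) → (M g).det = 0) :
    ∃ y ∈ ball c r, ∀ f ∈ F, f y = 0 := by
  let ρ : F →ₗ[ℂ] discAlg c r :=
    { toFun := fun f => restr hKO f.1 (hF f.1 f.2)
      map_add' := fun f g => rfl
      map_smul' := fun k f => rfl }
  obtain ⟨χ, h0, hall⟩ := exists_char g₀ (dz c r) hbij M hM ρ
    fun f => hdet f.1 f.2 _ fun z => rfl
  obtain ⟨y, hy, hev⟩ := char_eval hO hKO χ
  have hGy : G₀ y = 0 := by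
    rw [← hev G₀ hG₀ g₀ hg₀]
    exact h0
  refine ⟨y, ?_, fun f hf => ?_⟩
  · rw [mem_closedBall] at hy
    rw [mem_ball]
    refine lt_of_le_of_ne hy fun h => ?_
    exact hne y (by rw [mem_sphere]; exact h) hGy
  · rw [← hev f (hF f hf) (restr hKO f (hF f hf)) fun z => rfl]
    exact hall ⟨f, hf⟩

end J4657

export J4657 (fiber)

end PFrame
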