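import Pool.Agent.Helper237.PF.Defs
import Pool.Agent.Helper237.PF.Curry
import Pool.Agent.Helper237.PF.Disc
import Pool.Agent.Helper237.PF.Division
import Pool.Agent.Helper237.PF.Fiber

set_option autoImplicit false

open Metric Set Filter Topology

namespace PFrame

namespace J4658

/-- C¹ map with values in a closed submodule. -/
theorem contDiffOn_codRestrict {X E : Type*} [NormedAddCommGroup X] [NormedSpace ℂ X]
    [NormedAddCommGroup E] [NormedSpace ℂ E] (p : Submodule ℂ E) (hp : IsClosed (p : Set E))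
    {U : Set X} (hU : IsOpen U) (Φ : X → E) (hΦ : ContDiffOn ℂ 1 Φ U) (Ψ : X → p)
    (h : ∀ x ∈ U, (Ψ x : E) = Φ x) : ContDiffOn ℂ 1 Ψ U := by
  have hd : ∀ x ∈ U, HasFDerivAt Φ (fderiv ℂ Φ x) x := fun x hx =>
    ((hΦ.differentiableOn one_ne_zero).differentiableAt (hU.mem_nhds hx)).hasFDerivAt
  have hmem : ∀ x ∈ U, ∀ v, fderiv ℂ Φ x v ∈ p := by
    intro x hx v
    have h1 : HasDerivAt (fun t : ℂ => Φ (x + t • v)) (fderiv ℂ Φ x v) 0 := by
      have h2 : HasDerivAt (fun t : ℂ => x + t • v) v 0 := by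
        simpa using ((hasDerivAt_id (0:ℂ)).smul_const v).const_add x
      have h3 : HasFDerivAt Φ (fderiv ℂ Φ x) (x + (0:ℂ) • v) := by simpa using hd x hx
      exact h3.comp_hasDerivAt (0:ℂ) h2
    rw [hasDerivAt_iff_tendsto_slope] at h1
    refine hp.mem_of_tendsto h1 ?_
    have h4 : ∀ᶠ t in 𝓝 (0:ℂ), x + t • v ∈ U := by
      have : ContinuousAt (fun t : ℂ => x + t • v) 0 := by fun_prop
      apply this.eventually
      simpa using hU.mem_nhds hx
    filter_upwards [h4.filter_mono nhdsWithin_le_nhds] with t ht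
    simp only [slope, vsub_eq_sub, sub_zero, zero_smul, add_zero, SetLike.mem_coe]
    apply p.smul_mem
    apply p.sub_mem
    · rw [← h _ ht]; exact (Ψ _).2
    · rw [← h _ hx]; exact (Ψ _).2
  classical
  let L : X → X →L[ℂ] p := fun x =>
    if hx : x ∈ U then (fderiv ℂ Φ x).codRestrict p (hmem x hx) else 0
  have hL : ∀ x ∈ U, p.subtypeL.comp (L x) = fderiv ℂ Φ x := by
    intro x hx
    ext v
    simp [L, hx]
  have hLd : ∀ x ∈ U, HasFDerivAt Ψ (L x) x := by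
    intro x hx
    have h1 := hd x hx
    rw [← hL x hx] at h1
    rw [hasFDerivAt_iff_isLittleO_nhds_zero] at h1 ⊢
    rw [Asymptotics.isLittleO_iff] at h1 ⊢
    intro c hc
    have h4 : ∀ᶠ t in 𝓝 (0:X), x + t ∈ U := by
      have : ContinuousAt (fun t : X => x + t) 0 := by fun_prop
      apply this.eventually
      simpa using hU.mem_nhds hx
    filter_upwards [h1 hc, h4] with t ht ht4
    rw [← h _ hx, ← h _ ht4] at ht
    simpa using ht
  have hLc : ContinuousOn L U := by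
    have h1 : ContinuousOn (fderiv ℂ Φ) U := hΦ.continuousOn_fderiv_of_isOpen hU le_rfl
    intro x hx
    have h2 := h1 x hx
    rw [ContinuousWithinAt, tendsto_iff_norm_sub_tendsto_zero] at h2
    refine (tendsto_iff_norm_sub_tendsto_zero (E := X →L[ℂ] p)).2 (h2.congr' ?_)
    filter_upwards [self_mem_nhdsWithin] with y hy
    rw [← hL _ hx, ← hL _ hy]
    rw [← p.subtypeL.comp_sub]
    exact LinearIsometry.norm_toContinuousLinearMap_comp p.subtypeₗᵢ
  have : ContDiffOn ℂ (0 + 1) Ψ U := by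
    rw [contDiffOn_succ_iff_fderiv_of_isOpen hU]
    refine ⟨fun x hx => (hLd x hx).differentiableAt.differentiableWithinAt, by simp, ?_⟩
    rw [contDiffOn_zero]
    exact hLc.congr fun x hx => (hLd x hx).fderiv
  simpa using this

/-- division operator -/
noncomputable def Sop {A : Type*} [NormedCommRing A] [NormedAlgebra ℂ A] {m : ℕ} (e : Fin m → A)
    (a : A) : (A × (Fin m → ℂ)) →L[ℂ] A :=
  (ContinuousLinearMap.mul ℂ A a).comp (ContinuousLinearMap.fst ℂ A (Fin m → ℂ)) +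
    (∑ l, (ContinuousLinearMap.proj (R := ℂ) (φ := fun _ : Fin m => ℂ) l).smulRight (e l)).comp
      (ContinuousLinearMap.snd ℂ A (Fin m → ℂ))

theorem Sop_apply {A : Type*} [NormedCommRing A] [NormedAlgebra ℂ A] {m : ℕ} (e : Fin m → A)
    (a : A) (q : A × (Fin m → ℂ)) : Sop e a q = a * q.1 + ∑ l, q.2 l • e l := by
  simp [Sop, ContinuousLinearMap.sum_apply]

theorem Sop_elim {X : Type*} [NormedAddCommGroup X] [NormedSpace ℂ X]
    {A : Type*} [NormedCommRing A] [NormedAlgebra ℂ A] [CompleteSpace A] {m : ℕ} (e : Fin m → A)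
    {U : Set X} (hU : IsOpen U) {x₀ : X} (hx₀ : x₀ ∈ U) (φ : X → A) (hφ : ContDiffOn ℂ 1 φ U)
    (hbij : Function.Bijective (fun q : A × (Fin m → ℂ) => φ x₀ * q.1 + ∑ l, q.2 l • e l)) :
    ∃ U' : Set X, IsOpen U' ∧ x₀ ∈ U' ∧ U' ⊆ U ∧
      (∀ x ∈ U', (Sop e (φ x)).IsInvertible) ∧
      ContDiffOn ℂ 1 (fun x => (Sop e (φ x)).inverse) U' := by
  have hS : ContDiff ℂ 1 (Sop e) := by
    unfold Sop
    apply ContDiff.add
    · exact (ContinuousLinearMap.mul ℂ A).contDiff.clm_comp contDiff_const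
    · exact contDiff_const
  have hSφ : ContDiffOn ℂ 1 (fun x => Sop e (φ x)) U := hS.comp_contDiffOn hφ
  let O : Set ((A × (Fin m → ℂ)) →L[ℂ] A) := {T | T.IsInvertible}
  have hO : IsOpen O := ContinuousLinearEquiv.isOpen
  have h0 : Sop e (φ x₀) ∈ O := by
    have hb : Function.Bijective (Sop e (φ x₀)) := by
      have : (Sop e (φ x₀) : (A × (Fin m → ℂ)) → A) =
          fun q : A × (Fin m → ℂ) => φ x₀ * q.1 + ∑ l, q.2 l • e l :=
        funext fun q => Sop_apply e _ q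
      rw [this]; exact hbij
    refine ⟨ContinuousLinearEquiv.ofBijective (Sop e (φ x₀)) ?_ ?_, ?_⟩
    · exact LinearMap.ker_eq_bot.2 hb.1
    · exact LinearMap.range_eq_top.2 hb.2
    · exact ContinuousLinearMap.ext fun q => rfl
  refine ⟨U ∩ (fun x => Sop e (φ x)) ⁻¹' O, hSφ.continuousOn.isOpen_inter_preimage hU hO,
    ⟨hx₀, h0⟩, inter_subset_left, fun x hx => hx.2, ?_⟩
  intro x hx
  exact (ContinuousLinearMap.IsInvertible.contDiffAt_map_inverse hx.2).comp_contDiffWithinAt x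
    ((hSφ x hx.1).mono inter_subset_left)

/-- Elimination of one variable, matrix form. -/
theorem elim_core {X : Type*} [NormedAddCommGroup X] [NormedSpace ℂ X]
    {U : Set (X × ℂ)} (hU : IsOpen U) {b : X × ℂ} (hb : b ∈ U)
    {f₀ : X × ℂ → ℂ} (hf₀ : ContDiffOn ℂ 1 f₀ U) (h0 : f₀ b = 0)
    (hreg : ¬ ∀ᶠ y in 𝓝 b.2, f₀ (b.1, y) = 0) {V : Set (X × ℂ)} (hV : V ∈ 𝓝 b) :
    ∃ (U' : Set X) (δ : ℝ) (m : ℕ) (M : (X × ℂ → ℂ) → X → Matrix (Fin m) (Fin m) ℂ),
      IsOpen U' ∧ b.1 ∈ U' ∧ 0 < δ ∧ U' ×ˢ closedBall b.2 δ ⊆ U ∩ V ∧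
      (∀ f, ContDiffOn ℂ 1 f U → ∀ i j, ContDiffOn ℂ 1 (fun x => M f x i j) U') ∧
      (∀ x ∈ U', ∀ y ∈ closedBall b.2 δ, f₀ (x, y) = 0 →
        ∃ w : Fin m → ℂ, w ≠ 0 ∧ ∀ f, ContDiffOn ℂ 1 f U →
          Matrix.vecMul w (M f x) = f (x, y) • w) ∧
      (∀ x ∈ U', ∀ F : Submodule ℂ (X × ℂ → ℂ), (∀ f ∈ F, ContDiffOn ℂ 1 f U) →
        (∀ f ∈ F, (M f x).det = 0) → ∃ y ∈ ball b.2 δ, ∀ f ∈ F, f (x, y) = 0) := by
  classical
  -- the slice at `b.1`
  have hslice : IsOpen {y : ℂ | (b.1, y) ∈ U} := hU.preimage (by fun_prop)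
  have hf₀d : DifferentiableOn ℂ (fun y => f₀ (b.1, y)) {y : ℂ | (b.1, y) ∈ U} := by
    have h1 : DifferentiableOn ℂ f₀ U := hf₀.differentiableOn one_ne_zero
    exact h1.comp (by fun_prop) (fun y hy => hy)
  have hb2 : b.2 ∈ {y : ℂ | (b.1, y) ∈ U} := hb
  have hAn : AnalyticAt ℂ (fun y => f₀ (b.1, y)) b.2 :=
    hf₀d.analyticAt (hslice.mem_nhds hb2)
  have hne : ∀ᶠ y in 𝓝[≠] b.2, f₀ (b.1, y) ≠ 0 := by
    rcases hAn.eventually_eq_zero_or_eventually_ne_zero with h | h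
    · exact absurd h hreg
    · exact h
  -- choice of delta
  obtain ⟨δ, hδ, hδU⟩ : ∃ δ > 0, ∀ y ∈ closedBall b.2 δ, (b.1, y) ∈ U ∩ interior V ∧
      (y ≠ b.2 → f₀ (b.1, y) ≠ 0) := by
    have h1 : ∀ᶠ y in 𝓝 b.2, (b.1, y) ∈ U ∩ interior V ∧ (y ≠ b.2 → f₀ (b.1, y) ≠ 0) := by
      refine Filter.Eventually.and ?_ ?_
      · have h2 : ContinuousAt (fun y : ℂ => (b.1, y)) b.2 := by fun_prop
        apply h2.eventually_mem
        apply inter_mem (hU.mem_nhds hb) (interior_mem_nhds.2 hV)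
      · rw [eventually_nhdsWithin_iff] at hne
        exact hne
    obtain ⟨ε, hε, h⟩ := Metric.eventually_nhds_iff_ball.1 h1
    refine ⟨ε / 2, by positivity, fun y hy => h y ?_⟩
    exact closedBall_subset_ball (by linarith) hy
  set c : ℂ := b.2 with hc
  -- tube lemma
  have hopen1 : IsOpen (U ∩ interior V) := hU.inter isOpen_interior
  have hopen2 : IsOpen (U ∩ f₀ ⁻¹' {0}ᶜ) :=
    hf₀.continuousOn.isOpen_inter_preimage hU isOpen_compl_singleton
  obtain ⟨u1, v1, hu1, hv1, hbu1, hKv1, huv1⟩ := generalized_tube_lemma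
    (isCompact_singleton (x := b.1)) (isCompact_closedBall c δ) (n := U ∩ interior V) hopen1 (by
      rintro ⟨x, y⟩ ⟨hx, hy⟩
      rw [mem_singleton_iff] at hx
      simp only at hx
      subst hx
      exact (hδU y hy).1)
  obtain ⟨u2, v2, hu2, hv2, hbu2, hKv2, huv2⟩ := generalized_tube_lemma
    (isCompact_singleton (x := b.1)) (isCompact_sphere c δ) (n := U ∩ f₀ ⁻¹' {0}ᶜ) hopen2 (by
      rintro ⟨x, y⟩ ⟨hx, hy⟩
      rw [mem_singleton_iff] at hx
      simp only at hx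
      subst hx
      have h3 := hδU y (sphere_subset_closedBall hy)
      refine ⟨h3.1.1, h3.2 ?_⟩
      rintro rfl
      simp at hy
      exact hδ.ne hy)
  set U₁ : Set X := u1 ∩ u2 with hU₁def
  have hU₁ : IsOpen U₁ := hu1.inter hu2
  have hbU₁ : b.1 ∈ U₁ := ⟨hbu1 rfl, hbu2 rfl⟩
  have hK1 : U₁ ×ˢ closedBall c δ ⊆ U ∩ interior V := fun p hp =>
    huv1 ⟨hp.1.1, hKv1 hp.2⟩
  have hK2 : ∀ x ∈ U₁, ∀ y ∈ sphere c δ, f₀ (x, y) ≠ 0 := fun x hx y hy =>
    (huv2 (show (x, y) ∈ u2 ×ˢ v2 from ⟨hx.2, hKv2 hy⟩)).2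
  have hKU : U₁ ×ˢ closedBall c δ ⊆ U := fun p hp => (hK1 hp).1
  -- the maps Φ
  haveI : CompleteSpace (discAlg c δ) := (discAlg_isClosed c δ).completeSpace_coe
  have hΦex : ∀ f : X × ℂ → ℂ, ∃ Φ : X → discAlg c δ, ContDiffOn ℂ 1 f U →
      (ContDiffOn ℂ 1 Φ U₁ ∧ ∀ x ∈ U₁, ∀ y : closedBall c δ, (Φ x).1 y = f (x, y)) := by
    intro f
    by_cases hf : ContDiffOn ℂ 1 f U
    swap
    · exact ⟨fun _ => 0, fun h => absurd h hf⟩
    obtain ⟨Φ, hΦ, hΦ'⟩ := curry_contDiffOn hU hf (closedBall c δ) hU₁ hKU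
    have hmem : ∀ x ∈ U₁, Φ x ∈ discAlg c δ := by
      intro x hx
      refine ⟨fun y => f (x, y), ?_, fun z _ => hΦ' x hx z⟩
      have h1 : DifferentiableOn ℂ f U := hf.differentiableOn one_ne_zero
      exact h1.comp (by fun_prop) (fun y hy => hKU ⟨hx, ball_subset_closedBall hy⟩)
    refine ⟨fun x => if hx : x ∈ U₁ then ⟨Φ x, hmem x hx⟩ else 0, fun _ => ⟨?_, ?_⟩⟩
    · apply contDiffOn_codRestrict (Subalgebra.toSubmodule (discAlg c δ)) (discAlg_isClosed c δ)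
        hU₁ Φ hΦ
      intro x hx
      simp [hx]
    · intro x hx y
      simp only [hx, dif_pos]
      exact hΦ' x hx y
  choose Φ hΦ using hΦex
  -- division at `b.1`
  obtain ⟨m, hbij⟩ := discAlg_division c δ hδ {y : ℂ | (b.1, y) ∈ U} hslice
    (fun y hy => (hδU y hy).1.1) (fun y => f₀ (b.1, y)) hf₀d (fun z hz hz' => (hδU z hz).2 hz')
    (Φ f₀ b.1) (fun z => (hΦ f₀ hf₀).2 b.1 hbU₁ z)
  let e : Fin m → discAlg c δ := fun l => dz c δ ^ (l : ℕ)
  obtain ⟨U', hU', hbU', hU'sub, hinv, hinvC⟩ := Sop_elim e hU₁ hbU₁ (Φ f₀) (hΦ f₀ hf₀).1 hbij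
  have hMcore : ∀ x ∈ U', ∀ (g : discAlg c δ) (l : Fin m),
      g * dz c δ ^ (l : ℕ) =
        Φ f₀ x * ((Sop e (Φ f₀ x)).inverse (g * e l)).1 +
          ∑ k, ((Sop e (Φ f₀ x)).inverse (g * e l)).2 k • dz c δ ^ (k : ℕ) := by
    intro x hx g l
    obtain ⟨E, hE⟩ := hinv x hx
    have h1 : Sop e (Φ f₀ x) ((Sop e (Φ f₀ x)).inverse (g * e l)) = g * e l := by
      rw [← hE, ContinuousLinearMap.inverse_equiv]
      simp
    rw [Sop_apply] at h1
    exact h1.symm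
  have hm : 0 < m := by
    rcases Nat.eq_zero_or_pos m with h | h
    · subst h
      exfalso
      obtain ⟨q, hq⟩ := hbij.2 1
      simp only [Finset.univ_eq_empty, Finset.sum_empty, add_zero] at hq
      have h2 := congrArg (fun g : discAlg c δ => g.1 ⟨c, mem_closedBall_self hδ.le⟩) hq
      have h3 := (hΦ f₀ hf₀).2 b.1 hbU₁ ⟨c, mem_closedBall_self hδ.le⟩
      simp only [MulMemClass.coe_mul, ContinuousMap.mul_apply] at h2
      rw [h3] at h2
      have h4 : f₀ (b.1, c) = 0 := h0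
      simp [h4] at h2
    · exact h
  refine ⟨U', δ, m, fun f x => Matrix.of fun k l =>
    ((Sop e (Φ f₀ x)).inverse (Φ f x * e l)).2 k, hU', hbU', hδ, ?_, ?_, ?_, ?_⟩
  · intro p hp
    have := hK1 ⟨hU'sub hp.1, hp.2⟩
    exact ⟨this.1, interior_subset this.2⟩
  · intro f hf i j
    simp only [Matrix.of_apply]
    have h1 : ContDiffOn ℂ 1 (fun x => Φ f x * e j) U' :=
      ((hΦ f hf).1.mono hU'sub).mul contDiffOn_const
    have h2 : ContDiffOn ℂ 1 (fun x => (Sop e (Φ f₀ x)).inverse (Φ f x * e j)) U' :=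
      hinvC.clm_apply h1
    have h3 : ContDiffOn ℂ 1 (fun x => ((Sop e (Φ f₀ x)).inverse (Φ f x * e j)).2) U' := h2.snd
    exact contDiffOn_pi.1 h3 i
  · intro x hx y hy hxy
    refine ⟨fun l => (y - c) ^ (l : ℕ), ?_, ?_⟩
    · intro h
      have := congrFun h ⟨0, hm⟩
      simp at this
    · intro f hf
      ext l
      have h1 := hMcore x hx (Φ f x) l
      have h2 := congrArg (fun g : discAlg c δ => g.1 ⟨y, hy⟩) h1
      have h3 := (hΦ f₀ hf₀).2 x (hU'sub hx) ⟨y, hy⟩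
      have h4 := (hΦ f hf).2 x (hU'sub hx) ⟨y, hy⟩
      have hdz : ∀ k : ℕ, (dz c δ ^ k : discAlg c δ).1 ⟨y, hy⟩ = (y - c) ^ k := by
        intro k
        induction k with
        | zero => simp
        | succ k ih =>
          rw [pow_succ, pow_succ, ← ih]
          simp [dz]
      have hsum : ∀ (ρ : Fin m → ℂ), (∑ k, ρ k • dz c δ ^ (k : ℕ) : discAlg c δ).1 ⟨y, hy⟩ =
          ∑ k, ρ k * (y - c) ^ (k : ℕ) := by
        intro ρ
        have h5 : (∑ k, ρ k • dz c δ ^ (k : ℕ) : discAlg c δ).1 =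
            ∑ k, ρ k • (dz c δ ^ (k : ℕ) : discAlg c δ).1 := by
          have := map_sum (discAlg c δ).val (fun k => ρ k • dz c δ ^ (k : ℕ)) Finset.univ
          simpa using this
        rw [h5]
        rw [ContinuousMap.sum_apply]
        refine Finset.sum_congr rfl fun k _ => ?_
        rw [ContinuousMap.smul_apply, hdz]
        rfl
      have h6 : (Φ f x * dz c δ ^ (l : ℕ) : discAlg c δ).1 ⟨y, hy⟩ =
          f (x, y) * (y - c) ^ (l : ℕ) := by
        rw [← h4, ← hdz]; rfl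
      have h7 : ∀ q r : discAlg c δ, (Φ f₀ x * q + r : discAlg c δ).1 ⟨y, hy⟩ =
          r.1 ⟨y, hy⟩ := by
        intro q r
        have h8 : (Φ f₀ x * q + r : discAlg c δ).1 ⟨y, hy⟩ =
          (Φ f₀ x).1 ⟨y, hy⟩ * q.1 ⟨y, hy⟩ + r.1 ⟨y, hy⟩ := rfl
        rw [h8, h3]
        simp [hxy]
      rw [h6, h7, hsum] at h2
      simp only [Matrix.vecMul, dotProduct, Matrix.of_apply, Pi.smul_apply, smul_eq_mul]
      rw [h2]
      exact Finset.sum_congr rfl fun k _ => mul_comm _ _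
  · intro x hx F hF hdet
    have hx1 := hU'sub hx
    have hOx : IsOpen {y : ℂ | (x, y) ∈ U} := hU.preimage (by fun_prop)
    have hslx : ∀ f : X × ℂ → ℂ, ContDiffOn ℂ 1 f U →
        DifferentiableOn ℂ (fun y => f (x, y)) {y : ℂ | (x, y) ∈ U} := by
      intro f hf
      have h1 : DifferentiableOn ℂ f U := hf.differentiableOn one_ne_zero
      exact h1.comp (by fun_prop) (fun y hy => hy)
    let Lx : (X × ℂ → ℂ) →ₗ[ℂ] (ℂ → ℂ) :=
      { toFun := fun f y => f (x, y)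
        map_add' := fun _ _ => rfl
        map_smul' := fun _ _ => rfl }
    have hbijx : Function.Bijective
      (fun q : discAlg c δ × (Fin m → ℂ) => Φ f₀ x * q.1 + ∑ l, q.2 l • dz c δ ^ (l : ℕ)) := by
      obtain ⟨E, hE⟩ := hinv x hx
      have h1 : (fun q : discAlg c δ × (Fin m → ℂ) =>
          Φ f₀ x * q.1 + ∑ l, q.2 l • dz c δ ^ (l : ℕ)) = E := by
        funext q
        rw [← Sop_apply e (Φ f₀ x) q, ← hE]
        rfl
      rw [h1]
      exact E.bijective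
    obtain ⟨y, hy, hyF⟩ := fiber hδ (Φ f₀ x) {y : ℂ | (x, y) ∈ U} hOx
      (fun y hy => hKU ⟨hx1, hy⟩) (fun y => f₀ (x, y)) (hslx f₀ hf₀)
      (fun z => (hΦ f₀ hf₀).2 x hx1 z) (fun z hz => hK2 x hx1 z hz) hbijx
      (fun g => Matrix.of fun k l => ((Sop e (Φ f₀ x)).inverse (g * e l)).2 k)
      (fun g l => ⟨_, hMcore x hx g l⟩) (F.map Lx)
      (by
        rintro _ ⟨f, hf, rfl⟩
        exact hslx f (hF f hf))
      (by
        rintro _ ⟨f, hf, rfl⟩ g hg
        have hgΦ : g = Φ f x := by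
          apply Subtype.ext
          apply ContinuousMap.ext
          intro z
          rw [hg z, (hΦ f (hF f hf)).2 x hx1 z]
          rfl
        rw [hgΦ]
        exact hdet f hf)
    exact ⟨y, hy, fun f hf => hyF (Lx f) ⟨f, hf, rfl⟩⟩

end J4658

export J4658 (elim_core)

end PFrame
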