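import Pool.Agent.Helper237.PF.Defs
import Pool.Agent.Helper237.PF.Elimcore

set_option autoImplicit false

open Metric Set Filter Topology

namespace PFrame

namespace J4659

theorem elim_step {X : Type*} [NormedAddCommGroup X] [NormedSpace ℂ X]
    {U S : Set (X × ℂ)} (hU : IsOpen U) {b : X × ℂ} (hb : b ∈ U) (hbS : b ∈ closure S)
    {f₀ : X × ℂ → ℂ} (hf₀ : ContDiffOn ℂ 1 f₀ U) (h0 : ∀ s ∈ S, f₀ s = 0)
    (hreg : ¬ ∀ᶠ y in 𝓝 b.2, f₀ (b.1, y) = 0) {V : Set (X × ℂ)} (hV : V ∈ 𝓝 b) :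
    ∃ (U' : Set X) (δ : ℝ), IsOpen U' ∧ b.1 ∈ U' ∧ 0 < δ ∧ U' ×ˢ closedBall b.2 δ ⊆ U ∩ V ∧
      ∀ x ∈ hull U' (Prod.fst '' (S ∩ U' ×ˢ ball b.2 δ)), ∃ y ∈ ball b.2 δ,
        (x, y) ∈ hull U S := by
  have hfb : f₀ b = 0 := by
    by_contra hne
    have hc : ContinuousAt f₀ b := (hf₀.continuousOn).continuousAt (hU.mem_nhds hb)
    have h1 : ∀ᶠ z in 𝓝 b, f₀ z ≠ 0 := hc.eventually_ne hne
    have h2 : ∃ᶠ z in 𝓝 b, z ∈ S := mem_closure_iff_frequently.1 hbS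
    obtain ⟨z, hz1, hz2⟩ := (h2.and_eventually h1).exists
    exact hz2 (h0 z hz1)
  obtain ⟨U', δ, m, M, hU', hbU', hδ, hsub, hM1, hM2, hM3⟩ :=
    elim_core hU hb hf₀ hfb hreg hV
  refine ⟨U', δ, hU', hbU', hδ, hsub, ?_⟩
  intro x hx
  let F : Submodule ℂ (X × ℂ → ℂ) :=
    { carrier := {f | ContDiffOn ℂ 1 f U ∧ ∀ s ∈ S, f s = 0}
      add_mem' := by
        rintro f g ⟨hf1, hf2⟩ ⟨hg1, hg2⟩
        refine ⟨hf1.add hg1, fun s hs => ?_⟩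
        rw [Pi.add_apply, hf2 s hs, hg2 s hs, add_zero]
      zero_mem' := ⟨contDiffOn_const, fun s _ => rfl⟩
      smul_mem' := by
        rintro c f ⟨hf1, hf2⟩
        refine ⟨contDiffOn_const.smul hf1, fun s hs => ?_⟩
        rw [Pi.smul_apply, hf2 s hs, smul_zero] }
  have hFmem : ∀ f, f ∈ F ↔ (ContDiffOn ℂ 1 f U ∧ ∀ s ∈ S, f s = 0) := fun f => Iff.rfl
  have hdet : ∀ f ∈ F, (M f x).det = 0 := by
    intro f hf
    obtain ⟨hf1, hf2⟩ := (hFmem f).1 hf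
    refine hx.2 (fun x => (M f x).det) ?_ ?_
    · have e : (fun x => (M f x).det) = fun x =>
          ∑ σ : Equiv.Perm (Fin m), ((Equiv.Perm.sign σ : ℤ) : ℂ) * ∏ i, M f x (σ i) i := by
        funext x
        rw [Matrix.det_apply']
      rw [e]
      refine ContDiffOn.sum fun σ _ => ?_
      refine contDiffOn_const.mul ?_
      exact contDiffOn_prod fun i _ => hM1 f hf1 (σ i) i
    · rintro _ ⟨p, ⟨hpS, hpU⟩, rfl⟩
      obtain ⟨hp1, hp2⟩ := hpU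
      obtain ⟨w, hw0, hw⟩ := hM2 p.1 hp1 p.2 (ball_subset_closedBall hp2) (h0 p hpS)
      have h3 := hw f hf1
      have h4 : f (p.1, p.2) = 0 := hf2 p hpS
      rw [h4, zero_smul] at h3
      exact Matrix.exists_vecMul_eq_zero_iff.1 ⟨w, hw0, h3⟩
  obtain ⟨y, hy, hyf⟩ := hM3 x hx.1 F (fun f hf => ((hFmem f).1 hf).1) hdet
  refine ⟨y, hy, ?_, ?_⟩
  · exact (hsub ⟨hx.1, ball_subset_closedBall hy⟩).1
  · intro f hf1 hf2
    exact hyf f ((hFmem f).2 ⟨hf1, hf2⟩)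

end J4659

export J4659 (elim_step)

end PFrame
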