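import Pool.Agent.Helper237.PF.Defs
import Pool.Agent.Helper237.PF.Elimstep

set_option autoImplicit false

open Metric Set Filter Topology

namespace PFrame

namespace J4660

namespace EMAux

theorem hull_mono {W : Type*} [NormedAddCommGroup W] [NormedSpace ℂ W] {U S T : Set W}
    (h : S ⊆ T) : hull U S ⊆ hull U T :=
  fun _ hz => ⟨hz.1, fun f hf h0 => hz.2 f hf fun s hs => h0 s (h hs)⟩

theorem subset_hull {W : Type*} [NormedAddCommGroup W] [NormedSpace ℂ W] {U S : Set W}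
    (h : S ⊆ U) : S ⊆ hull U S := fun s hs => ⟨h hs, fun _ _ h0 => h0 s hs⟩

/-- transport of hulls -/
theorem hull_equiv {W X : Type*} [NormedAddCommGroup W] [NormedSpace ℂ W]
    [NormedAddCommGroup X] [NormedSpace ℂ X] (e : W ≃L[ℂ] X) {U S : Set W} {U' S' : Set X}
    (hU : ∀ x ∈ U', e.symm x ∈ U) (hS : ∀ s ∈ S', e.symm s ∈ S) {x : X} (hx : x ∈ hull U' S') :
    e.symm x ∈ hull U S := by
  refine ⟨hU x hx.1, fun f hf h0 => ?_⟩
  have h1 : ContDiffOn ℂ 1 (f ∘ e.symm) U' := hf.comp e.symm.contDiff.contDiffOn hU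
  exact hx.2 _ h1 fun s hs => h0 _ (hS s hs)

theorem base {W X : Type} [NormedAddCommGroup W] [NormedSpace ℂ W]
    [FiniteDimensional ℂ W] [NormedAddCommGroup X] [NormedSpace ℂ X] [FiniteDimensional ℂ X]
    (π : W →L[ℂ] X) (hπ : Function.Surjective π)
    (hk : Module.finrank ℂ (LinearMap.ker (π : W →ₗ[ℂ] X)) = 0)
    (U S : Set W) (b : W) (hU : IsOpen U) (hb : b ∈ U) (V : Set W) (hV : V ∈ 𝓝 b) :
    ∃ U' : Set X, ∃ V' ∈ 𝓝 b, IsOpen U' ∧ π b ∈ U' ∧ V' ⊆ V ∧ π '' V' ⊆ U' ∧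
      ∀ x ∈ hull U' (π '' (S ∩ V')), ∃ z ∈ hull U S ∩ V, π z = x := by
  have hker : LinearMap.ker (π : W →ₗ[ℂ] X) = ⊥ := Submodule.finrank_eq_zero.1 hk
  have hinj : Function.Injective π := LinearMap.ker_eq_bot.1 hker
  let e0 : W ≃ₗ[ℂ] X := LinearEquiv.ofBijective (π : W →ₗ[ℂ] X) ⟨hinj, hπ⟩
  let e : W ≃L[ℂ] X := e0.toContinuousLinearEquiv
  have he : ∀ w, e w = π w := fun w => rfl
  refine ⟨e '' (interior V ∩ U), interior V ∩ U, ?_, ?_, ?_, ?_, ?_, ?_⟩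
  · exact (isOpen_interior.inter hU).mem_nhds ⟨mem_interior_iff_mem_nhds.2 hV, hb⟩
  · exact e.toHomeomorph.isOpenMap _ (isOpen_interior.inter hU)
  · exact ⟨b, ⟨mem_interior_iff_mem_nhds.2 hV, hb⟩, rfl⟩
  · exact fun z hz => interior_subset hz.1
  · rintro _ ⟨z, hz, rfl⟩
    exact ⟨z, hz, rfl⟩
  · intro x hx
    obtain ⟨z, hz, rfl⟩ := hx.1
    refine ⟨z, ⟨?_, interior_subset hz.1⟩, rfl⟩
    have h1 := hull_equiv (U := U) (S := S) e (by
      rintro _ ⟨y, hy, rfl⟩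
      rw [e.symm_apply_apply]
      exact hy.2) (by
      rintro _ ⟨s, hs, rfl⟩
      rw [← he, e.symm_apply_apply]
      exact hs.1) hx
    rwa [e.symm_apply_apply] at h1

theorem step {n : ℕ} (ih : ∀ {W X : Type} [NormedAddCommGroup W] [NormedSpace ℂ W]
    [FiniteDimensional ℂ W] [NormedAddCommGroup X] [NormedSpace ℂ X] [FiniteDimensional ℂ X]
    (π : W →L[ℂ] X), Function.Surjective π →
    Module.finrank ℂ (LinearMap.ker (π : W →ₗ[ℂ] X)) = n →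
    ∀ (ξ : X →L[ℂ] ℂ) (U S : Set W) (b : W), IsOpen U → b ∈ U → S ⊆ U → AccPt b (𝓟 S) →
    (∀ᶠ z in 𝓝 b, z ∈ hull U S → ξ (π z) = ξ (π b) → z = b) → ∀ V ∈ 𝓝 b,
    ∃ U' : Set X, ∃ V' ∈ 𝓝 b, IsOpen U' ∧ π b ∈ U' ∧ V' ⊆ V ∧ π '' V' ⊆ U' ∧
      ∀ x ∈ hull U' (π '' (S ∩ V')), ∃ z ∈ hull U S ∩ V, π z = x)
    {W X : Type} [NormedAddCommGroup W] [NormedSpace ℂ W]
    [FiniteDimensional ℂ W] [NormedAddCommGroup X] [NormedSpace ℂ X] [FiniteDimensional ℂ X]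
    (π : W →L[ℂ] X) (hπ : Function.Surjective π)
    (hk : Module.finrank ℂ (LinearMap.ker (π : W →ₗ[ℂ] X)) = n + 1)
    (ξ : X →L[ℂ] ℂ) (U S : Set W) (b : W) (hU : IsOpen U) (hb : b ∈ U) (hSU : S ⊆ U)
    (hacc : AccPt b (𝓟 S))
    (hiso : ∀ᶠ z in 𝓝 b, z ∈ hull U S → ξ (π z) = ξ (π b) → z = b) (V : Set W) (hV : V ∈ 𝓝 b) :
    ∃ U' : Set X, ∃ V' ∈ 𝓝 b, IsOpen U' ∧ π b ∈ U' ∧ V' ⊆ V ∧ π '' V' ⊆ U' ∧
      ∀ x ∈ hull U' (π '' (S ∩ V')), ∃ z ∈ hull U S ∩ V, π z = x := by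
  -- a vector of the kernel
  obtain ⟨e, heK, he0⟩ : ∃ e ∈ LinearMap.ker (π : W →ₗ[ℂ] X), e ≠ 0 := by
    refine (Submodule.ne_bot_iff _).1 fun h => ?_
    rw [h, finrank_bot] at hk
    omega
  have hπe : π e = 0 := heK
  obtain ⟨p, hp⟩ := SeparatingDual.exists_eq_one (R := ℂ) he0
  -- the splitting
  let W1 : Submodule ℂ W := LinearMap.ker (p : W →ₗ[ℂ] ℂ)
  have hq : ∀ w : W, (ContinuousLinearMap.id ℂ W - p.smulRight e) w ∈ W1 := by
    intro w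
    show p ((ContinuousLinearMap.id ℂ W - p.smulRight e) w) = 0
    simp [hp]
  let φ : W ≃L[ℂ] (W1 × ℂ) := ContinuousLinearEquiv.equivOfInverse
    (((ContinuousLinearMap.id ℂ W - p.smulRight e).codRestrict W1 hq).prod p)
    ((W1.subtypeL.comp (ContinuousLinearMap.fst ℂ W1 ℂ)) +
      (ContinuousLinearMap.snd ℂ W1 ℂ).smulRight e)
    (by
      intro w
      simp)
    (by
      rintro ⟨⟨w, hw⟩, y⟩
      have hw' : p w = 0 := hw
      refine Prod.ext (Subtype.ext ?_) ?_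
      · simp [hw', hp]
      · simp [hw', hp])
  have hφs : ∀ x : W1 × ℂ, φ.symm x = (x.1 : W) + x.2 • e := fun x => rfl
  have hdec : ∀ w : W, w = ((φ w).1 : W) + (φ w).2 • e := by
    intro w
    rw [← hφs, φ.symm_apply_apply]
  let π1 : W1 →L[ℂ] X := π.comp W1.subtypeL
  have hπ1 : ∀ x : W1, π1 x = π (x : W) := fun _ => rfl
  have hππ : ∀ w : W, π w = π1 (φ w).1 := by
    intro w
    conv_lhs => rw [hdec w]
    rw [map_add, map_smul, hπe, smul_zero, add_zero, hπ1]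
  have hππs : ∀ x : W1 × ℂ, π (φ.symm x) = π1 x.1 := by
    intro x
    rw [hππ, φ.apply_symm_apply]
  have hsurj : Function.Surjective π1 := by
    intro x
    obtain ⟨w, rfl⟩ := hπ x
    exact ⟨(φ w).1, (hππ w).symm⟩
  have hker1 : Module.finrank ℂ (LinearMap.ker (π1 : W1 →ₗ[ℂ] X)) = n := by
    have h1 := LinearMap.finrank_range_add_finrank_ker (π : W →ₗ[ℂ] X)
    have h2 := LinearMap.finrank_range_add_finrank_ker (π1 : W1 →ₗ[ℂ] X)
    have h3 : LinearMap.range (π : W →ₗ[ℂ] X) = ⊤ := LinearMap.range_eq_top.2 hπ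
    have h4 : LinearMap.range (π1 : W1 →ₗ[ℂ] X) = ⊤ := LinearMap.range_eq_top.2 hsurj
    rw [h3, hk] at h1
    rw [h4] at h2
    have h5 : Module.finrank ℂ W = Module.finrank ℂ W1 + 1 := by
      rw [φ.toLinearEquiv.finrank_eq, Module.finrank_prod, Module.finrank_self]
    omega
  -- the neighbourhood of isolation
  obtain ⟨V0, hV0, hV0o, hbV0⟩ := _root_.eventually_nhds_iff.1 hiso
  set b1 : W1 := (φ b).1 with hb1
  set yb : ℂ := (φ b).2 with hyb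
  have hbφ : φ.symm (b1, yb) = b := by
    show φ.symm (φ b) = b
    exact φ.symm_apply_apply b
  have hπb : π b = π1 b1 := hππ b
  have hopen : IsOpen {y : ℂ | φ.symm (b1, y) ∈ U ∩ V0} := by
    have hc : Continuous fun y : ℂ => φ.symm (b1, y) :=
      φ.symm.continuous.comp (by fun_prop)
    exact (hU.inter hV0o).preimage hc
  obtain ⟨r, hr, hball⟩ := Metric.isOpen_iff.1 hopen yb (by
    show φ.symm (b1, yb) ∈ U ∩ V0
    rw [hbφ]; exact ⟨hb, hbV0⟩)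
  obtain ⟨y0, hy0, hy0ne⟩ : ∃ y0 ∈ ball yb r, y0 ≠ yb := by
    refine ⟨yb + (r / 2 : ℝ), ?_, ?_⟩
    · rw [mem_ball, dist_eq_norm, add_sub_cancel_left, Complex.norm_real, Real.norm_eq_abs,
        abs_of_pos (by positivity)]
      linarith
    · intro h
      have h2 : ((r / 2 : ℝ) : ℂ) = 0 := by
        have := congrArg (fun z => z - yb) h
        simpa using this
      rw [Complex.ofReal_eq_zero] at h2
      linarith
  have hz0 : φ.symm (b1, y0) ∉ hull U S := by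
    intro h
    have h1 := hV0 _ (hball hy0).2 h (by rw [hππs, hπb])
    rw [← hbφ] at h1
    have h2 := φ.symm.injective h1
    exact hy0ne (Prod.ext_iff.1 h2).2
  obtain ⟨f, hf, hf0, hfne⟩ : ∃ f : W → ℂ, ContDiffOn ℂ 1 f U ∧ (∀ s ∈ S, f s = 0) ∧
      f (φ.symm (b1, y0)) ≠ 0 := by
    by_contra hcon
    push Not at hcon
    exact hz0 ⟨(hball hy0).1, fun f hf h0 => hcon f hf h0⟩
  -- the transported data
  set Ut : Set (W1 × ℂ) := φ.symm ⁻¹' U with hUt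
  set St : Set (W1 × ℂ) := φ.symm ⁻¹' S with hSt
  have hf0t : ContDiffOn ℂ 1 (f ∘ φ.symm) Ut :=
    hf.comp φ.symm.contDiff.contDiffOn fun x hx => hx
  have hreg : ¬ ∀ᶠ y in 𝓝 (φ b).2, (f ∘ φ.symm) ((φ b).1, y) = 0 := by
    intro hev
    have hdiff : DifferentiableOn ℂ (fun y : ℂ => f (φ.symm (b1, y))) (ball yb r) := by
      have h1 : DifferentiableOn ℂ f U := hf.differentiableOn one_ne_zero
      refine h1.comp (t := U) (f := fun y : ℂ => φ.symm (b1, y)) ?_ (fun y hy => (hball hy).1)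
      exact (φ.symm.differentiable.comp (by fun_prop)).differentiableOn
    have han := hdiff.analyticOnNhd isOpen_ball
    have hz := han.eqOn_zero_of_preconnected_of_eventuallyEq_zero
      (convex_ball yb r).isPreconnected (mem_ball_self hr) hev
    exact hfne (hz hy0)
  have hclos : φ b ∈ closure St := by
    have h1 : b ∈ closure S := hacc.clusterPt.mem_closure
    have h2 : St = φ '' S := by
      ext x
      constructor
      · intro hx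
        exact ⟨φ.symm x, hx, φ.apply_symm_apply x⟩
      · rintro ⟨s, hs, rfl⟩
        show φ.symm (φ s) ∈ S
        rwa [φ.symm_apply_apply]
    rw [h2]
    exact image_closure_subset_closure_image φ.continuous ⟨b, h1, rfl⟩
  have hVt : φ.symm ⁻¹' (V ∩ V0) ∈ 𝓝 (φ b) := by
    refine φ.symm.continuous.continuousAt.preimage_mem_nhds ?_
    rw [φ.symm_apply_apply]
    exact inter_mem hV (hV0o.mem_nhds hbV0)
  obtain ⟨U1, δ, hU1, hbU1, hδ, hsub, hlift⟩ := elim_step (X := W1) (U := Ut) (S := St)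
    (hU.preimage φ.symm.continuous) (b := φ b) (by
      show φ.symm (φ b) ∈ U
      rwa [φ.symm_apply_apply]) hclos hf0t (fun s hs => hf0 _ hs) hreg hVt
  have hlift' : ∀ x ∈ hull U1 (Prod.fst '' (St ∩ U1 ×ˢ ball (φ b).2 δ)),
      ∃ y : ℂ, (x, y) ∈ U1 ×ˢ closedBall (φ b).2 δ ∧ φ.symm (x, y) ∈ hull U S := by
    intro x hx
    obtain ⟨y, hy, hxy⟩ := hlift x hx
    exact ⟨y, ⟨hx.1, ball_subset_closedBall hy⟩,
      hull_equiv φ (fun _ h => h) (fun _ h => h) hxy⟩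
  set S1 : Set W1 := Prod.fst '' (St ∩ U1 ×ˢ ball (φ b).2 δ) with hS1
  have hS1U : S1 ⊆ U1 := by
    rintro _ ⟨x, hx, rfl⟩
    exact hx.2.1
  have hacc1 : AccPt b1 (𝓟 S1) := by
    rw [accPt_iff_nhds] at hacc ⊢
    intro N hN
    have hN' : φ ⁻¹' ((N ∩ U1) ×ˢ ball (φ b).2 δ) ∈ 𝓝 b := by
      refine φ.continuous.continuousAt.preimage_mem_nhds ?_
      exact prod_mem_nhds (inter_mem hN (hU1.mem_nhds hbU1)) (ball_mem_nhds _ hδ)
    obtain ⟨s, ⟨hsN, hsS⟩, hsb⟩ := hacc _ hN'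
    have hs1 : (φ s).1 ∈ S1 := by
      refine ⟨φ s, ⟨?_, hsN.1.2, hsN.2⟩, rfl⟩
      show φ.symm (φ s) ∈ S
      rwa [φ.symm_apply_apply]
    refine ⟨(φ s).1, ⟨hsN.1.1, hs1⟩, fun heq => hsb ?_⟩
    have hsV0 : s ∈ V0 := by
      have h1 : φ s ∈ U1 ×ˢ closedBall (φ b).2 δ := ⟨hsN.1.2, ball_subset_closedBall hsN.2⟩
      have h2 := (hsub h1).2.2
      have h3 : φ.symm (φ s) ∈ V0 := h2
      rwa [φ.symm_apply_apply] at h3
    refine hV0 s hsV0 (subset_hull hSU hsS) ?_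
    rw [hππ s, heq, hπb]
  have hiso1 : ∀ᶠ x in 𝓝 b1, x ∈ hull U1 S1 → ξ (π1 x) = ξ (π1 b1) → x = b1 := by
    refine Filter.Eventually.of_forall fun x hx hξ => ?_
    obtain ⟨y, hy, hz⟩ := hlift' x hx
    have hzV0 : φ.symm (x, y) ∈ V0 := (hsub hy).2.2
    have h1 := hV0 _ hzV0 hz (by rw [hππs, hπb]; exact hξ)
    rw [← hbφ] at h1
    exact (Prod.ext_iff.1 (φ.symm.injective h1)).1
  obtain ⟨U', V1', hV1', hU', hbU', hV1U1, himg, hfin⟩ := ih π1 hsurj hker1 ξ U1 S1 b1 hU1 hbU1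
    hS1U hacc1 hiso1 U1 (hU1.mem_nhds hbU1)
  refine ⟨U', φ ⁻¹' (V1' ×ˢ ball (φ b).2 δ), ?_, hU', ?_, ?_, ?_, ?_⟩
  · refine φ.continuous.continuousAt.preimage_mem_nhds ?_
    exact prod_mem_nhds hV1' (ball_mem_nhds _ hδ)
  · rw [hπb]; exact hbU'
  · intro z hz
    have h1 : φ z ∈ U1 ×ˢ closedBall (φ b).2 δ := ⟨hV1U1 hz.1, ball_subset_closedBall hz.2⟩
    have h2 : φ.symm (φ z) ∈ V := (hsub h1).2.1
    rwa [φ.symm_apply_apply] at h2
  · rintro _ ⟨z, hz, rfl⟩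
    rw [hππ]
    exact himg ⟨_, hz.1, rfl⟩
  · intro x hx
    have hmono : π '' (S ∩ φ ⁻¹' (V1' ×ˢ ball (φ b).2 δ)) ⊆ π1 '' (S1 ∩ V1') := by
      rintro _ ⟨s, ⟨hsS, hsV⟩, rfl⟩
      refine ⟨(φ s).1, ⟨⟨φ s, ⟨?_, hV1U1 hsV.1, hsV.2⟩, rfl⟩, hsV.1⟩, (hππ s).symm⟩
      show φ.symm (φ s) ∈ S
      rwa [φ.symm_apply_apply]
    obtain ⟨z1, ⟨hz1, -⟩, rfl⟩ := hfin x (hull_mono hmono hx)
    obtain ⟨y, hy, hz⟩ := hlift' z1 hz1
    exact ⟨φ.symm (z1, y), ⟨hz, (hsub hy).2.1⟩, hππs _⟩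

end EMAux

theorem elim_many (n : ℕ) : ∀ {W X : Type} [NormedAddCommGroup W] [NormedSpace ℂ W]
    [FiniteDimensional ℂ W] [NormedAddCommGroup X] [NormedSpace ℂ X] [FiniteDimensional ℂ X]
    (π : W →L[ℂ] X), Function.Surjective π →
    Module.finrank ℂ (LinearMap.ker (π : W →ₗ[ℂ] X)) = n →
    ∀ (ξ : X →L[ℂ] ℂ) (U S : Set W) (b : W), IsOpen U → b ∈ U → S ⊆ U → AccPt b (𝓟 S) →
    (∀ᶠ z in 𝓝 b, z ∈ hull U S → ξ (π z) = ξ (π b) → z = b) → ∀ V ∈ 𝓝 b,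
    ∃ U' : Set X, ∃ V' ∈ 𝓝 b, IsOpen U' ∧ π b ∈ U' ∧ V' ⊆ V ∧ π '' V' ⊆ U' ∧
      ∀ x ∈ hull U' (π '' (S ∩ V')), ∃ z ∈ hull U S ∩ V, π z = x := by
  induction n with
  | zero =>
    intro W X _ _ _ _ _ _ π hπ hk ξ U S b hU hb hSU hacc hiso V hV
    exact EMAux.base π hπ hk U S b hU hb V hV
  | succ n ih =>
    intro W X _ _ _ _ _ _ π hπ hk ξ U S b hU hb hSU hacc hiso V hV
    exact EMAux.step ih π hπ hk ξ U S b hU hb hSU hacc hiso V hV

end J4660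

export J4660 (elim_many)

end PFrame
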