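import Pool.Agent.Helper237.PF.Defs

set_option autoImplicit false

open Metric Set Filter Topology

namespace PFrame

namespace J4789

section kernel

variable {W : Type} [NormedAddCommGroup W] [InnerProductSpace ℂ W]

variable {E : Type} [NormedAddCommGroup E] [InnerProductSpace ℂ E]

end kernel

section generalW

variable {W : Type} [NormedAddCommGroup W] [InnerProductSpace ℂ W]
  {E : Type} [NormedAddCommGroup E] [InnerProductSpace ℂ E]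
  {p : ℝ} {v : W → E} {J : E →L[ℂ] E}

theorem pf15_s (b : W) : 0 < Real.sqrt (1 + ‖b‖ ^ 2) := Real.sqrt_pos.2 (by positivity)

theorem pf15_s2 (b : W) : ((Real.sqrt (1 + ‖b‖ ^ 2) : ℝ) : ℂ) ^ 2 = 1 + (‖b‖ : ℂ) ^ 2 := by
  have h : Real.sqrt (1 + ‖b‖ ^ 2) ^ 2 = 1 + ‖b‖ ^ 2 := Real.sq_sqrt (by positivity)
  exact_mod_cast h

theorem pf15_s1 (b : W) : 1 + ((Real.sqrt (1 + ‖b‖ ^ 2) : ℝ) : ℂ) ≠ 0 := by
  have h := pf15_s b
  have h2 : (1 + Real.sqrt (1 + ‖b‖ ^ 2)) ≠ 0 := by linarith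
  exact_mod_cast h2

theorem tau_inner (b u w : W) (hu : 1 + inner ℂ b u ≠ 0) (hw : 1 + inner ℂ b w ≠ 0) :
    (1 + inner ℂ (tau b w) (tau b u)) * ((1 + inner ℂ b u) * (1 + inner ℂ w b)) =
      (1 + (‖b‖ : ℂ) ^ 2) * (1 + inner ℂ w u) := by
  have hs2 := pf15_s2 b
  have hs1 := pf15_s1 b
  have hbb : inner ℂ b b = (‖b‖ : ℂ) ^ 2 := inner_self_eq_norm_sq_to_K b
  have hc : (starRingEnd ℂ) (inner ℂ b w) = inner ℂ w b := inner_conj_symm w b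
  have hw' : 1 + inner ℂ w b ≠ 0 := by
    intro h
    apply hw
    have h2 := congrArg (starRingEnd ℂ) h
    rw [map_add, map_one, map_zero, inner_conj_symm] at h2
    exact h2
  have hX : inner ℂ (tau b w) (tau b u) = (1 + inner ℂ w b)⁻¹ * ((1 + inner ℂ b u)⁻¹ *
      (((Real.sqrt (1 + ‖b‖ ^ 2) : ℝ) : ℂ) ^ 2 * inner ℂ w u -
        ((Real.sqrt (1 + ‖b‖ ^ 2) : ℝ) : ℂ) * (1 + inner ℂ b u / (1 + (Real.sqrt (1 + ‖b‖ ^ 2) : ℝ))) *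
          inner ℂ w b -
        (1 + inner ℂ w b / (1 + (Real.sqrt (1 + ‖b‖ ^ 2) : ℝ))) *
          ((Real.sqrt (1 + ‖b‖ ^ 2) : ℝ) : ℂ) * inner ℂ b u +
        (1 + inner ℂ w b / (1 + (Real.sqrt (1 + ‖b‖ ^ 2) : ℝ))) *
          (1 + inner ℂ b u / (1 + (Real.sqrt (1 + ‖b‖ ^ 2) : ℝ))) * (‖b‖ : ℂ) ^ 2)) := by
    unfold tau
    rw [inner_smul_left, inner_smul_right, inner_sub_left, inner_sub_right, inner_sub_right,
      inner_smul_left, inner_smul_left, inner_smul_left, inner_smul_left, inner_smul_right,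
      inner_smul_right, inner_smul_right, inner_smul_right, hbb]
    simp only [map_inv₀, map_add, map_one, map_div₀, Complex.conj_ofReal, hc]
    ring
  rw [hX]
  set s : ℂ := ((Real.sqrt (1 + ‖b‖ ^ 2) : ℝ) : ℂ) with hs
  have hn : (‖b‖ : ℂ) ^ 2 = s ^ 2 - 1 := by rw [hs2]; ring
  rw [hn]
  field_simp
  ring

theorem tau_self (b : W) : tau b b = 0 := by
  have hs2 := pf15_s2 b
  have hs1 := pf15_s1 b
  have hbb : inner ℂ b b = (‖b‖ : ℂ) ^ 2 := inner_self_eq_norm_sq_to_K b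
  unfold tau
  rw [hbb]
  have h : 1 + (‖b‖ : ℂ) ^ 2 / (1 + ((Real.sqrt (1 + ‖b‖ ^ 2) : ℝ) : ℂ)) =
      ((Real.sqrt (1 + ‖b‖ ^ 2) : ℝ) : ℂ) := by
    have hn : (‖b‖ : ℂ) ^ 2 = ((Real.sqrt (1 + ‖b‖ ^ 2) : ℝ) : ℂ) ^ 2 - 1 := by rw [hs2]; ring
    rw [hn]
    field_simp
    ring
  rw [h, sub_self, smul_zero]

theorem tau_smul (b u : W) (hu : 1 + inner ℂ b u ≠ 0) :
    (1 + inner ℂ b u) • tau b u = ((Real.sqrt (1 + ‖b‖ ^ 2) : ℝ) : ℂ) • (u - b) -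
      (inner ℂ b (u - b) / (1 + (Real.sqrt (1 + ‖b‖ ^ 2) : ℝ))) • b := by
  have hs2 := pf15_s2 b
  have hs1 := pf15_s1 b
  have hbb : inner ℂ b b = (‖b‖ : ℂ) ^ 2 := inner_self_eq_norm_sq_to_K b
  unfold tau
  rw [smul_smul, mul_inv_cancel₀ hu, one_smul, smul_sub, inner_sub_right, hbb]
  have h : (1 + inner ℂ b u / (1 + ((Real.sqrt (1 + ‖b‖ ^ 2) : ℝ) : ℂ))) =
      ((Real.sqrt (1 + ‖b‖ ^ 2) : ℝ) : ℂ) +
        (inner ℂ b u - (‖b‖ : ℂ) ^ 2) / (1 + ((Real.sqrt (1 + ‖b‖ ^ 2) : ℝ) : ℂ)) := by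
    have hn : (‖b‖ : ℂ) ^ 2 = ((Real.sqrt (1 + ‖b‖ ^ 2) : ℝ) : ℂ) ^ 2 - 1 := by rw [hs2]; ring
    rw [hn]
    field_simp
    ring
  rw [h, add_smul]
  abel

end generalW

end J4789

export J4789 (tau_inner tau_self tau_smul)

end PFrame
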