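import Pool.Agent.Helper237.PF.Defs
import Pool.Agent.Helper237.PF.Tau

set_option autoImplicit false

open Metric Set Filter Topology

namespace PFrame

namespace J4790

section kernel

variable {W : Type} [NormedAddCommGroup W] [InnerProductSpace ℂ W]

variable {E : Type} [NormedAddCommGroup E] [InnerProductSpace ℂ E]

end kernel

section generalW

variable {W : Type} [NormedAddCommGroup W] [InnerProductSpace ℂ W]
  {E : Type} [NormedAddCommGroup E] [InnerProductSpace ℂ E]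
  {p : ℝ} {v : W → E} {J : E →L[ℂ] E}

theorem tau_injOn_aux {b u u' : W} (hu : 1 + inner ℂ b u ≠ 0) (hu' : 1 + inner ℂ b u' ≠ 0)
    (h : tau b u = tau b u') : u = u' := by
  have hN : (0:ℝ) < 1 + ‖b‖ ^ 2 := by positivity
  set s : ℝ := Real.sqrt (1 + ‖b‖ ^ 2) with hs
  have hs0 : 0 < s := Real.sqrt_pos.mpr hN
  have hs2 : s ^ 2 = 1 + ‖b‖ ^ 2 := Real.sq_sqrt hN.le
  have hsC : ((s:ℂ)) ^ 2 = 1 + (‖b‖:ℂ) ^ 2 := by
    rw [← Complex.ofReal_pow, hs2]; push_cast; ring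
  have hs1 : (1:ℂ) + (s:ℂ) ≠ 0 := by
    have : (0:ℝ) < 1 + s := by linarith
    have h2 : ((1 + s : ℝ) : ℂ) ≠ 0 := by exact_mod_cast this.ne'
    simpa using h2
  have key : ∀ x : W, 1 + inner ℂ b x ≠ 0 →
      (1 + inner ℂ b x) * (1 - inner ℂ b (tau b x)) = 1 + (‖b‖:ℂ) ^ 2 := by
    intro x hx
    have h1 := tau_smul b x hx
    rw [← hs] at h1
    have h2 := congrArg (fun y => inner ℂ b y) h1
    simp only [inner_smul_right, inner_sub_right] at h2
    have hbb : inner ℂ b b = (‖b‖:ℂ) ^ 2 := inner_self_eq_norm_sq_to_K b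
    rw [hbb] at h2
    have hb2 : (‖b‖:ℂ) ^ 2 = (s:ℂ) ^ 2 - 1 := by rw [hsC]; ring
    rw [hb2] at h2 ⊢
    field_simp at h2
    have h3 : (1 + (s:ℂ)) * ((1 + inner ℂ b x) * (1 - inner ℂ b (tau b x))) =
        (1 + (s:ℂ)) * (1 + ((s:ℂ) ^ 2 - 1)) := by
      linear_combination (-1) * h2
    exact mul_left_cancel₀ hs1 h3
  have k1 := key u hu
  have k2 := key u' hu'
  rw [← h] at k2
  have hNC : (1:ℂ) + (‖b‖:ℂ) ^ 2 ≠ 0 := by
    have h2 : ((1 + ‖b‖ ^ 2 : ℝ) : ℂ) ≠ 0 := by exact_mod_cast hN.ne'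
    simpa using h2
  have hv : (1 - inner ℂ b (tau b u)) ≠ 0 := by
    intro h0
    rw [h0, mul_zero] at k1
    exact hNC k1.symm
  have hB : 1 + inner ℂ b u = 1 + inner ℂ b u' :=
    mul_right_cancel₀ hv (k1.trans k2.symm)
  have hin : inner ℂ b u = inner ℂ b u' := by linear_combination hB
  have e1 := tau_smul b u hu
  have e2 := tau_smul b u' hu'
  rw [← h, ← hB, e1] at e2
  have hin2 : inner ℂ b (u - b) = inner ℂ b (u' - b) := by
    rw [inner_sub_right, inner_sub_right, hin]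
  rw [hin2] at e2
  have e3 := sub_left_injective e2
  have hsne : (s:ℂ) ≠ 0 := by exact_mod_cast hs0.ne'
  have e4 := smul_right_injective W hsne e3
  exact sub_left_injective e4

theorem tau_continuousAt_aux {b : W} : ContinuousAt (tau b) b := by
  have hN : (0:ℝ) < 1 + ‖b‖ ^ 2 := by positivity
  have hbb : inner ℂ b b = (‖b‖:ℂ) ^ 2 := inner_self_eq_norm_sq_to_K b
  have hNC : (1:ℂ) + inner ℂ b b ≠ 0 := by
    rw [hbb]
    have h2 : ((1 + ‖b‖ ^ 2 : ℝ) : ℂ) ≠ 0 := by exact_mod_cast hN.ne'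
    simpa using h2
  unfold tau
  have hc : Continuous (fun u : W => (inner ℂ b u : ℂ)) := by fun_prop
  refine ContinuousAt.smul (ContinuousAt.inv₀ ?_ hNC) ?_
  · exact (continuous_const.add hc).continuousAt
  · apply Continuous.continuousAt
    fun_prop

theorem cpow_aux {p : ℝ} {x B C K : ℂ} {N : ℝ} (hN : 0 < N) (hx : 0 < x.re) (hB : 0 < B.re)
    (hC : 0 < C.re) (hBC : 0 < (B * C).re) (hK : K ≠ 0) (h : x * (B * C) = N * K) :
    x ^ (p : ℂ) = ((N : ℂ) ^ ((p/2 : ℝ) : ℂ) / B ^ (p : ℂ)) *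
      ((N : ℂ) ^ ((p/2 : ℝ) : ℂ) / C ^ (p : ℂ)) * K ^ (p : ℂ) := by
  have hne : ∀ z : ℂ, 0 < z.re → z ≠ 0 := by
    intro z hz h0; rw [h0] at hz; simp at hz
  have harg : ∀ z w : ℂ, 0 < z.re → 0 < w.re → Complex.log (z * w) = Complex.log z + Complex.log w := by
    intro z w hz hw
    rw [Complex.log_mul_eq_add_log_iff (hne z hz) (hne w hw)]
    have h1 := Complex.abs_arg_lt_pi_div_two_iff.mpr (Or.inl hz)
    have h2 := Complex.abs_arg_lt_pi_div_two_iff.mpr (Or.inl hw)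
    rw [abs_lt] at h1 h2
    constructor
    · linarith [h1.1, h2.1]
    · linarith [h1.2, h2.2]
  have hNC : (N:ℂ) ≠ 0 := by exact_mod_cast hN.ne'
  have e1 := harg x (B * C) hx hBC
  have e2 := harg B C hB hC
  have e3 := Complex.log_ofReal_mul hN hK
  rw [h, e2, e3] at e1
  have hlog : Complex.log x = (Real.log N : ℂ) + Complex.log K - Complex.log B - Complex.log C := by
    linear_combination -e1
  rw [Complex.cpow_def_of_ne_zero (hne x hx), Complex.cpow_def_of_ne_zero (hne B hB),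
    Complex.cpow_def_of_ne_zero (hne C hC), Complex.cpow_def_of_ne_zero hK,
    Complex.cpow_def_of_ne_zero hNC, ← Complex.exp_sub, ← Complex.exp_sub, ← Complex.exp_add,
    ← Complex.exp_add, hlog, ← Complex.ofReal_log hN.le]
  congr 1
  push_cast
  ring

theorem recenter_PD {T : Set W} (hT : T ⊆ ball 0 1) (hPD : PD p T) {b : W}
    (hb : b ∈ ball (0 : W) 1) (hacc : AccPt b (𝓟 T)) :
    ∃ ε > 0, PD p (tau b '' (T ∩ ball b ε)) ∧ tau b '' (T ∩ ball b ε) ⊆ ball 0 1 ∧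
      AccPt 0 (𝓟 (tau b '' (T ∩ ball b ε))) := by
  classical
  have hcont : ContinuousAt (tau b) b := tau_continuousAt_aux
  have hbn : ‖b‖ < 1 := by simpa using hb
  have hN : (0:ℝ) < 1 + ‖b‖ ^ 2 := by positivity
  have hbb : inner ℂ b b = (‖b‖:ℂ) ^ 2 := inner_self_eq_norm_sq_to_K b
  -- neighborhood where tau has norm < 1
  have hnb : ∀ᶠ u in 𝓝 b, tau b u ∈ ball (0 : W) 1 := by
    apply hcont
    rw [tau_self]
    exact ball_mem_nhds 0 one_pos
  obtain ⟨δ, hδ, hδb⟩ := Metric.eventually_nhds_iff.mp hnb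
  have hip : ∀ x y : W, ‖x‖ < 1 → ‖y‖ < 1 → 0 < (1 + inner ℂ x y : ℂ).re := by
    intro x y hx hy
    have h1 : ‖(inner ℂ x y : ℂ)‖ ≤ ‖x‖ * ‖y‖ := norm_inner_le_norm x y
    have h2 : ‖x‖ * ‖y‖ < 1 := by nlinarith [norm_nonneg x, norm_nonneg y]
    have h3 := Complex.abs_re_le_norm (inner ℂ x y : ℂ)
    have h4 := (abs_le.mp h3).1
    simp only [Complex.add_re, Complex.one_re]
    linarith
  have hne : ∀ z : ℂ, 0 < z.re → z ≠ 0 := by
    intro z hz h0; rw [h0] at hz; simp at hz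
  have hclose : ∀ u : W, ‖u - b‖ < 1/4 → (3/4 : ℝ) ≤ (1 + inner ℂ b u : ℂ).re ∧
      |(1 + inner ℂ b u : ℂ).im| ≤ 1/4 := by
    intro u hu
    have h1 : ‖(inner ℂ b (u - b) : ℂ)‖ ≤ ‖b‖ * ‖u - b‖ := norm_inner_le_norm b (u - b)
    have h2 : ‖b‖ * ‖u - b‖ ≤ 1/4 := by nlinarith [norm_nonneg b, norm_nonneg (u - b)]
    have h3 : (1 + inner ℂ b u : ℂ) = ((1 + ‖b‖ ^ 2 : ℝ) : ℂ) + inner ℂ b (u - b) := by
      rw [inner_sub_right, hbb]; push_cast; ring
    have h4 := (abs_le.mp (Complex.abs_re_le_norm (inner ℂ b (u - b) : ℂ))).1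
    have h5 := Complex.abs_im_le_norm (inner ℂ b (u - b) : ℂ)
    rw [h3]
    constructor
    · simp only [Complex.add_re, Complex.ofReal_re]
      nlinarith [sq_nonneg ‖b‖]
    · simp only [Complex.add_im, Complex.ofReal_im, zero_add]
      linarith
  have hinj : ∀ u u' : W, ‖u‖ < 1 → ‖u'‖ < 1 → tau b u = tau b u' → u = u' := by
    intro u u' hu hu' h
    exact tau_injOn_aux (hne _ (hip b u hbn hu)) (hne _ (hip b u' hbn hu')) h
  set ε : ℝ := min δ (1/4) with hε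
  have hε0 : 0 < ε := lt_min hδ (by norm_num)
  have hmem : ∀ u ∈ T ∩ ball b ε, ‖u‖ < 1 ∧ ‖u - b‖ < 1/4 ∧ ‖tau b u‖ < 1 := by
    intro u hu
    have h1 : ‖u‖ < 1 := by simpa using hT hu.1
    have h2 : dist u b < ε := hu.2
    refine ⟨h1, ?_, ?_⟩
    · rw [← dist_eq_norm]; exact lt_of_lt_of_le h2 (min_le_right _ _)
    · have := hδb (lt_of_lt_of_le h2 (min_le_left _ _))
      simpa using this
  refine ⟨ε, hε0, ?_, ?_, ?_⟩
  · intro t a ht
    obtain ⟨t', ht', rfl⟩ := Finset.subset_set_image_iff.mp ht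
    have hio : Set.InjOn (tau b) (t' : Set W) := by
      intro u hu u' hu' h
      exact hinj u u' (hmem u (ht' hu)).1 (hmem u' (ht' hu')).1 h
    rw [Finset.sum_image hio]
    have hN2 : ∀ u : W, True := fun _ => trivial
    set μ : W → ℂ := fun u => (((1 + ‖b‖ ^ 2 : ℝ)) : ℂ) ^ ((p/2 : ℝ) : ℂ) /
      (1 + inner ℂ b u) ^ (p : ℂ) with hμ
    have hP := hPD t' (fun u => a (tau b u) * μ u) (fun u hu => (ht' hu).1)
    have heq : ∑ u ∈ t', ∑ w ∈ t', (a (tau b u) * μ u) * (starRingEnd ℂ) (a (tau b w) * μ w) *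
        (1 + inner ℂ w u) ^ (p : ℂ) =
        ∑ u ∈ t', ∑ w ∈ t'.image (tau b), a (tau b u) * (starRingEnd ℂ) (a w) *
        (1 + inner ℂ w (tau b u)) ^ (p : ℂ) := by
      refine Finset.sum_congr rfl fun u hu => ?_
      rw [Finset.sum_image hio]
      refine Finset.sum_congr rfl fun w hw => ?_
      obtain ⟨hu1, hu2, hu3⟩ := hmem u (ht' hu)
      obtain ⟨hw1, hw2, hw3⟩ := hmem w (ht' hw)
      have hBu := hip b u hbn hu1
      have hBw := hip b w hbn hw1
      have hCw := hip w b hw1 hbn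
      have hK := hip w u hw1 hu1
      have hx := hip (tau b w) (tau b u) hw3 hu3
      have hconj : (1 + inner ℂ w b : ℂ) = (starRingEnd ℂ) (1 + inner ℂ b w) := by
        rw [map_add, map_one, inner_conj_symm]
      have hBC : 0 < ((1 + inner ℂ b u : ℂ) * (1 + inner ℂ w b)).re := by
        rw [hconj, Complex.mul_re, Complex.conj_re, Complex.conj_im]
        obtain ⟨r1, i1⟩ := hclose u hu2
        obtain ⟨r2, i2⟩ := hclose w hw2
        rw [abs_le] at i1 i2
        nlinarith [mul_nonneg (sub_nonneg.mpr i1.1) (sub_nonneg.mpr i2.1),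
          mul_nonneg (sub_nonneg.mpr i1.2) (sub_nonneg.mpr i2.2),
          mul_nonneg (sub_nonneg.mpr i1.1) (sub_nonneg.mpr i2.2),
          mul_nonneg (sub_nonneg.mpr i1.2) (sub_nonneg.mpr i2.1),
          mul_nonneg (sub_nonneg.mpr r1) (sub_nonneg.mpr r2)]
      have hti := tau_inner b u w (hne _ hBu) (hne _ hBw)
      have hti' : (1 + inner ℂ (tau b w) (tau b u)) * ((1 + inner ℂ b u) * (1 + inner ℂ w b)) =
          ((1 + ‖b‖ ^ 2 : ℝ) : ℂ) * (1 + inner ℂ w u) := by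
        rw [hti]; push_cast; ring
      have hc := cpow_aux (p := p) hN hx hBu hCw hBC (hne _ hK) hti'
      have hμw : (starRingEnd ℂ) (μ w) = (((1 + ‖b‖ ^ 2 : ℝ)) : ℂ) ^ ((p/2 : ℝ) : ℂ) /
          (1 + inner ℂ w b) ^ (p : ℂ) := by
        simp only [hμ]
        have hBwa : (1 + inner ℂ b w : ℂ).arg ≠ Real.pi := by
          have := Complex.abs_arg_lt_pi_div_two_iff.mpr (Or.inl hBw)
          intro h0
          rw [h0, abs_of_pos Real.pi_pos] at this
          linarith [Real.pi_pos]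
        have hNa : ((1 + ‖b‖ ^ 2 : ℝ) : ℂ).arg ≠ Real.pi := by
          rw [Complex.arg_ofReal_of_nonneg hN.le]
          exact Real.pi_pos.ne
        have c1 := Complex.conj_cpow _ (p : ℂ) hBwa
        have c2 := Complex.conj_cpow _ ((p/2 : ℝ) : ℂ) hNa
        rw [Complex.conj_ofReal] at c1 c2
        rw [map_div₀, ← c1, hconj]
        rw [Complex.conj_ofReal] at c2
        rw [← c2]
      rw [hc, map_mul, hμw]
      simp only [hμ]
      ring
    rw [heq] at hP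
    exact hP
  · rintro _ ⟨u, hu, rfl⟩
    simpa using (hmem u hu).2.2
  · rw [accPt_iff_nhds] at hacc ⊢
    intro U hU
    have h1 : tau b ⁻¹' U ∩ (ball b ε ∩ ball 0 1) ∈ 𝓝 b := by
      refine inter_mem ?_ (inter_mem (ball_mem_nhds b hε0) (isOpen_ball.mem_nhds hb))
      apply hcont
      rw [tau_self]
      exact hU
    obtain ⟨y, ⟨⟨hy1, hy2, hy3⟩, hyT⟩, hyb⟩ := hacc _ h1
    refine ⟨tau b y, ⟨hy1, y, ⟨hyT, hy2⟩, rfl⟩, ?_⟩
    intro h0
    apply hyb
    refine hinj y b (by simpa using hy3) hbn ?_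
    rw [h0, tau_self]

end generalW

end J4790

export J4790 (recenter_PD)

end PFrame
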