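import Pool.Agent.Helper237.PF.Defs
import Pool.Agent.Helper237.PF.RecPD
import Pool.Agent.Helper237.PF.Tau

set_option autoImplicit false

open Metric Set Filter Topology

namespace PFrame

namespace J4793

section kernel

variable {W : Type} [NormedAddCommGroup W] [InnerProductSpace ℂ W]

variable {E : Type} [NormedAddCommGroup E] [InnerProductSpace ℂ E]

end kernel

section generalW

variable {W : Type} [NormedAddCommGroup W] [InnerProductSpace ℂ W]
  {E : Type} [NormedAddCommGroup E] [InnerProductSpace ℂ E]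
  {p : ℝ} {v : W → E} {J : E →L[ℂ] E}

end generalW

theorem hyper_isom {d n : ℕ} (K : Submodule ℂ (EuclideanSpace ℂ (Fin n))) (hK : Module.finrank ℂ K = d) :
    ∃ Ψ : EuclideanSpace ℂ (Fin d) →ₗᵢ[ℂ] EuclideanSpace ℂ (Fin n), (∀ x, Ψ x ∈ K) ∧ ∀ y ∈ K, ∃ x, Ψ x = y := by
  let φ : K ≃ₗᵢ[ℂ] EuclideanSpace ℂ (Fin d) :=
    ((stdOrthonormalBasis ℂ K).reindex (finCongr hK)).repr
  refine ⟨K.subtypeₗᵢ.comp φ.symm.toLinearIsometry, fun x => (φ.symm x).2, fun y hy => ⟨φ ⟨y, hy⟩, ?_⟩⟩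
  simp

theorem hyper {p : ℝ} {d : ℕ} (hno : NoPD p d) {T : Set (EuclideanSpace ℂ (Fin (d + 1)))}
    (hT : T ⊆ ball 0 1) (hPD : PD p T) {b : EuclideanSpace ℂ (Fin (d + 1))}
    (hb : b ∈ ball (0 : EuclideanSpace ℂ (Fin (d + 1))) 1)
    (ℓ : EuclideanSpace ℂ (Fin (d + 1)) →L[ℂ] ℂ) (hℓ : ℓ ≠ 0) :
    ¬ AccPt b (𝓟 (T ∩ {z | ℓ z = ℓ b})) := by
  intro hacc
  set T' : Set (EuclideanSpace ℂ (Fin (d + 1))) := T ∩ {z | ℓ z = ℓ b} with hT'def
  have hT' : T' ⊆ ball 0 1 := fun x hx => hT hx.1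
  have hPD' : PD p T' := fun s a hs => hPD s a (fun x hx => (hs hx).1)
  obtain ⟨ε, hε, hPDS, hSball, hSacc⟩ := recenter_PD hT' hPD' hb hacc
  set S' : Set (EuclideanSpace ℂ (Fin (d + 1))) := tau b '' (T' ∩ ball b ε) with hS'
  set s : ℝ := Real.sqrt (1 + ‖b‖ ^ 2) with hs
  have hs2 : s ^ 2 = 1 + ‖b‖ ^ 2 := Real.sq_sqrt (by positivity)
  have hspos : 0 < s := Real.sqrt_pos.mpr (by positivity)
  let A : EuclideanSpace ℂ (Fin (d + 1)) →ₗ[ℂ] EuclideanSpace ℂ (Fin (d + 1)) :=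
    { toFun := fun x => (s : ℂ) • x - (inner ℂ b x / (1 + (s : ℂ))) • b
      map_add' := by
        intro x y
        simp only [inner_add_right, smul_add, add_div, add_smul]
        module
      map_smul' := by
        intro c x
        simp only [inner_smul_right, RingHom.id_apply, smul_sub, smul_smul, mul_div_assoc]
        congr 1
        rw [mul_comm] }
  have hAapp : ∀ x, A x = (s : ℂ) • x - (inner ℂ b x / (1 + (s : ℂ))) • b := fun x => rfl
  have h1s : (1 + (s : ℂ)) ≠ 0 := by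
    have : (1 + (s : ℂ)) = ((1 + s : ℝ) : ℂ) := by push_cast; ring
    rw [this]
    exact_mod_cast (by positivity : (1 + s) ≠ 0)
  have hAinj : Function.Injective A := by
    rw [← LinearMap.ker_eq_bot, LinearMap.ker_eq_bot']
    intro x hx
    have h1 : inner ℂ b (A x) = inner ℂ b x := by
      rw [hAapp, inner_sub_right, inner_smul_right, inner_smul_right, inner_self_eq_norm_sq_to_K]
      have h2 : ((‖b‖ : ℂ)) ^ 2 = (s : ℂ) ^ 2 - 1 := by
        have := congrArg (fun r : ℝ => (r : ℂ)) hs2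
        push_cast at this
        rw [this]; ring
      simp only [Complex.coe_algebraMap] at *
      rw [h2]
      field_simp
      ring
    have h3 : inner ℂ b x = 0 := by rw [← h1, hx, inner_zero_right]
    rw [hAapp, h3] at hx
    simp only [zero_div, zero_smul, sub_zero] at hx
    have : (s : ℂ) ≠ 0 := by exact_mod_cast hspos.ne'
    exact (smul_eq_zero.mp hx).resolve_left this
  let K : Submodule ℂ (EuclideanSpace ℂ (Fin (d + 1))) := (LinearMap.ker (ℓ : EuclideanSpace ℂ (Fin (d + 1)) →ₗ[ℂ] ℂ)).map A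
  have hkerdim : Module.finrank ℂ (LinearMap.ker (ℓ : EuclideanSpace ℂ (Fin (d + 1)) →ₗ[ℂ] ℂ)) = d := by
    have h1 := LinearMap.finrank_range_add_finrank_ker (ℓ : EuclideanSpace ℂ (Fin (d + 1)) →ₗ[ℂ] ℂ)
    have h2 : LinearMap.range (ℓ : EuclideanSpace ℂ (Fin (d + 1)) →ₗ[ℂ] ℂ) = ⊤ := by
      apply LinearMap.range_eq_top.mpr
      apply LinearMap.surjective
      intro h
      apply hℓ
      ext x
      have := congrArg (fun f : EuclideanSpace ℂ (Fin (d + 1)) →ₗ[ℂ] ℂ => f x) h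
      simpa using this
    rw [h2, finrank_top, Module.finrank_self, finrank_euclideanSpace_fin] at h1
    omega
  have hKdim : Module.finrank ℂ K = d :=
    (((LinearMap.ker (ℓ : EuclideanSpace ℂ (Fin (d + 1)) →ₗ[ℂ] ℂ)).equivMapOfInjective A hAinj).finrank_eq.symm).trans hkerdim
  have hSK : ∀ y ∈ S', y ∈ K := by
    rintro y ⟨u, ⟨⟨huT, hul⟩, -⟩, rfl⟩
    have hu1 : ‖u‖ < 1 := by simpa using hT huT
    have hb1 : ‖b‖ < 1 := by simpa using hb
    have hne : 1 + inner ℂ b u ≠ 0 := by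
      intro h0
      have h1 : inner ℂ b u = -1 := by linear_combination h0
      have h2 : ‖inner ℂ b u‖ ≤ ‖b‖ * ‖u‖ := norm_inner_le_norm b u
      rw [h1, norm_neg, norm_one] at h2
      nlinarith [norm_nonneg b, norm_nonneg u]
    have h3 := tau_smul b u hne
    have h4 : tau b u = (1 + inner ℂ b u)⁻¹ • A (u - b) := by
      rw [hAapp, ← h3, smul_smul, inv_mul_cancel₀ hne, one_smul]
    rw [h4]
    apply K.smul_mem
    refine ⟨u - b, ?_, rfl⟩
    simp only [SetLike.mem_coe, LinearMap.mem_ker, ContinuousLinearMap.coe_coe, map_sub]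
    rw [show ℓ u = ℓ b from hul, sub_self]
  obtain ⟨Ψ, hΨK, hΨs⟩ := hyper_isom K hKdim
  set S'' : Set (EuclideanSpace ℂ (Fin d)) := Ψ ⁻¹' S' with hS''
  refine hno S'' ?_ ?_ ?_
  · intro y hy
    have h1 : Ψ y ∈ ball (0 : EuclideanSpace ℂ (Fin (d + 1))) 1 := hSball hy
    rw [mem_ball_zero_iff] at h1 ⊢
    rwa [Ψ.norm_map] at h1
  · intro F a hF
    classical
    let a' : EuclideanSpace ℂ (Fin (d + 1)) → ℂ := fun w => if h : ∃ x, Ψ x = w then a h.choose else 0
    have ha' : ∀ y, a' (Ψ y) = a y := by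
      intro y
      have hm : ∃ x, Ψ x = Ψ y := ⟨y, rfl⟩
      simp only [a', dif_pos hm]
      congr 1
      exact Ψ.injective hm.choose_spec
    have h1 := hPDS (F.image Ψ) a' (by
      intro w hw
      rw [Finset.coe_image] at hw
      obtain ⟨y, hy, rfl⟩ := hw
      exact hF hy)
    rw [Finset.sum_image (fun x _ y _ h => Ψ.injective h)] at h1
    have h2 : ∀ u ∈ F, (∑ w ∈ F.image Ψ, a' (Ψ u) * (starRingEnd ℂ) (a' w) *
        (1 + inner ℂ w (Ψ u)) ^ (p : ℂ)) =
        ∑ w ∈ F, a u * (starRingEnd ℂ) (a w) * (1 + inner ℂ w u) ^ (p : ℂ) := by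
      intro u _
      rw [Finset.sum_image (fun x _ y _ h => Ψ.injective h)]
      refine Finset.sum_congr rfl (fun w _ => ?_)
      rw [ha', ha', Ψ.inner_map_map]
    rw [Finset.sum_congr rfl h2] at h1
    exact h1
  · rw [accPt_iff_frequently] at hSacc ⊢
    rw [Metric.nhds_basis_ball.frequently_iff] at hSacc ⊢
    intro δ hδ
    obtain ⟨y, hy, hy0, hyS⟩ := hSacc δ hδ
    have hyK := hSK y hyS
    obtain ⟨x, rfl⟩ := hΨs y hyK
    refine ⟨x, ?_, ?_, hyS⟩
    · rw [mem_ball_zero_iff] at hy ⊢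
      rwa [Ψ.norm_map] at hy
    · intro h0
      apply hy0
      rw [h0, map_zero]

end J4793

export J4793 (hyper)

end PFrame
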