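import Pool.Agent.Helper237.PF.Defs

set_option autoImplicit false

open Metric Set Filter Topology

namespace PFrame

namespace J4787

section kernel

variable {W : Type} [NormedAddCommGroup W] [InnerProductSpace ℂ W]

variable {E : Type} [NormedAddCommGroup E] [InnerProductSpace ℂ E]

end kernel

section generalW

variable {W : Type} [NormedAddCommGroup W] [InnerProductSpace ℂ W]
  {E : Type} [NormedAddCommGroup E] [InnerProductSpace ℂ E]
  {p : ℝ} {v : W → E} {J : E →L[ℂ] E}

lemma quad_formula (hΦ : IsFeat p v J) (s : Finset W) (hs : (↑s : Set W) ⊆ ball 0 1)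
    (a : W → ℂ) :
    inner ℂ (∑ u ∈ s, a u • v u) (J (∑ u ∈ s, a u • v u)) =
      ∑ u ∈ s, ∑ w ∈ s, a u * (starRingEnd ℂ) (a w) * (1 + inner ℂ w u) ^ (p : ℂ) := by
  rw [map_sum, inner_sum]
  refine Finset.sum_congr rfl fun u hu => ?_
  rw [sum_inner]
  refine Finset.sum_congr rfl fun w hw => ?_
  rw [map_smul, inner_smul_left, inner_smul_right, hΦ.ker u (hs hu) w (hs hw)]
  ring

lemma exists_sum_of_span {S : Set W} {x : E} (hx : x ∈ Submodule.span ℂ (v '' S)) :
    ∃ (s : Finset W) (a : W → ℂ), (↑s : Set W) ⊆ S ∧ x = ∑ u ∈ s, a u • v u := by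
  rw [Finsupp.mem_span_image_iff_linearCombination] at hx
  obtain ⟨l, hl, rfl⟩ := hx
  refine ⟨l.support, l, ?_, ?_⟩
  · exact (Finsupp.mem_supported _ _).1 hl
  · rw [Finsupp.linearCombination_apply, Finsupp.sum]

theorem quad_nonneg (hΦ : IsFeat p v J) {S : Set W} (hS : S ⊆ ball 0 1) (hPD : PD p S) :
    ∀ x ∈ MM v S, 0 ≤ (inner ℂ x (J x)).re := by
  intro x hx
  have hcl : IsClosed {x : E | 0 ≤ (inner ℂ x (J x)).re} := by
    apply isClosed_le continuous_const
    exact Complex.continuous_re.comp (continuous_id.inner J.continuous)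
  have hsub : (Submodule.span ℂ (v '' S) : Set E) ⊆ {x : E | 0 ≤ (inner ℂ x (J x)).re} := by
    intro y hy
    obtain ⟨s, a, hs, rfl⟩ := exists_sum_of_span hy
    show _ ∈ {x : E | 0 ≤ (inner ℂ x (J x)).re}
    rw [Set.mem_ofPred_eq]
    rw [quad_formula hΦ s (hs.trans hS) a]
    exact hPD s a hs
  have := closure_minimal hsub hcl
  apply this
  exact hx

theorem PD_HH (hΦ : IsFeat p v J) {S : Set W} (hS : S ⊆ ball 0 1) (hPD : PD p S) :
    PD p (HH v S) := by
  intro s a hs
  rw [← quad_formula hΦ s (fun u hu => (hs hu).1) a]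
  apply quad_nonneg hΦ hS hPD
  exact Submodule.sum_mem _ fun u hu => Submodule.smul_mem _ _ (hs hu).2

theorem good_PD (hΦ : IsFeat p v J) {c : W} {S : Set W} {f : E →L[ℂ] ℂ}
    (hG : Good p v J c S f) : PD p S := by
  intro s a hs
  rw [← quad_formula hΦ s (hs.trans hG.sub) a]
  have hmem : (∑ u ∈ s, a u • v u) ∈ Submodule.span ℂ (v '' S) :=
    Submodule.sum_mem _ fun u hu => Submodule.smul_mem _ _
      (Submodule.subset_span ⟨u, hs hu, rfl⟩)
  have h := hG.bound _ hmem
  have hpos : 0 < (1 + ‖c‖ ^ 2) ^ p := Real.rpow_pos_of_pos (by positivity) p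
  have h0 : 0 ≤ (1 + ‖c‖ ^ 2) ^ p *
      (inner ℂ (∑ u ∈ s, a u • v u) (J (∑ u ∈ s, a u • v u))).re := le_trans (by positivity) h
  exact nonneg_of_mul_nonneg_right h0 hpos

end generalW

end J4787

export J4787 (quad_nonneg PD_HH good_PD)

end PFrame
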