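import Pool.Agent.Helper237.PF.Defs
import Pool.Agent.Helper237.PF.Hyper
import Pool.Agent.Helper237.PF.Quad

set_option autoImplicit false

open Metric Set Filter Topology

namespace PFrame

namespace J4796

section kernel

variable {W : Type} [NormedAddCommGroup W] [InnerProductSpace ℂ W]

variable {E : Type} [NormedAddCommGroup E] [InnerProductSpace ℂ E]

end kernel

section generalW

variable {W : Type} [NormedAddCommGroup W] [InnerProductSpace ℂ W]
  {E : Type} [NormedAddCommGroup E] [InnerProductSpace ℂ E]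
  {p : ℝ} {v : W → E} {J : E →L[ℂ] E}

end generalW

section main

variable {p : ℝ} {d : ℕ} {E : Type} [NormedAddCommGroup E] [InnerProductSpace ℂ E]
  [CompleteSpace E] {v : EuclideanSpace ℂ (Fin (d + 1)) → E} {J : E →L[ℂ] E}

theorem good_far (hp : 0 < p) (hno : NoPD p d) (hΦ : IsFeat p v J)
    (hunb : ∀ R : ℝ, ∃ c S f, Good p v J c S f ∧ R < ‖c‖) :
    ∃ c S f, ∃ ρ : ℝ, Good p v J c S f ∧ c ≠ 0 ∧ 0 < ρ ∧ ρ < 1 ∧
      ∀ z ∈ HH v S, ‖z‖ = ρ → 3 ≤ ‖1 + inner ℂ c z‖ := by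
  by_contra hcon
  push Not at hcon
  -- choice of the sequences
  have h1 : ∀ n : ℕ, ∃ c S f, Good p v J c S f ∧ ((n : ℝ) + 1) < ‖c‖ := fun n => hunb _
  choose c S f hG hc using h1
  have hcpos : ∀ n, 0 < ‖c n‖ := fun n => by
    have := hc n
    have h0 : (0 : ℝ) ≤ n := Nat.cast_nonneg n
    linarith
  have hc0 : ∀ n, c n ≠ 0 := fun n => norm_pos_iff.1 (hcpos n)
  have h2 : ∀ n l : ℕ, ∃ z ∈ HH v (S n), ‖z‖ = 1 / ((l : ℝ) + 2) ∧
      ‖1 + inner ℂ (c n) z‖ < 3 := by
    intro n l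
    have h0 : (0 : ℝ) ≤ l := Nat.cast_nonneg l
    refine hcon (c n) (S n) (f n) (1 / ((l : ℝ) + 2)) (hG n) (hc0 n) (by positivity) ?_
    rw [div_lt_one (by positivity)]
    linarith
  choose z hzH hzn hz3 using h2
  have hlt1 : ∀ l : ℕ, 1 / ((l : ℝ) + 2) < 1 := fun l => by
    have h0 : (0 : ℝ) ≤ l := Nat.cast_nonneg l
    rw [div_lt_one (by positivity)]
    linarith
  have hlpos : ∀ l : ℕ, 0 < 1 / ((l : ℝ) + 2) := fun l => by positivity
  -- unit vectors
  obtain ⟨e, he⟩ : ∃ e : ℕ → EuclideanSpace ℂ (Fin (d + 1)),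
      e = fun n => (((‖c n‖)⁻¹ : ℝ) : ℂ) • c n := ⟨_, rfl⟩
  have hen : ∀ n, ‖e n‖ = 1 := by
    intro n
    rw [he]
    simp only [norm_smul, Complex.norm_real, norm_inv, norm_norm]
    exact inv_mul_cancel₀ (hcpos n).ne'
  -- ultrafilter limits
  set U : Ultrafilter ℕ := hyperfilter ℕ with hU
  have hUt : (U : Filter ℕ) ≤ atTop := Nat.hyperfilter_le_atTop
  have lim : ∀ g : ℕ → EuclideanSpace ℂ (Fin (d + 1)), (∀ n, ‖g n‖ ≤ 1) →
      ∃ x, Tendsto g U (𝓝 x) := by
    intro g hg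
    obtain ⟨x, -, hx⟩ := (isCompact_closedBall (0 : EuclideanSpace ℂ (Fin (d + 1))) 1).ultrafilter_le_nhds
      (U.map g) (by
        rw [le_principal_iff]
        refine mem_map.2 (Filter.univ_mem' fun n => ?_)
        show g n ∈ closedBall 0 1
        rw [mem_closedBall_zero_iff]
        exact hg n)
    exact ⟨x, hx⟩
  obtain ⟨e', he'⟩ := lim e (fun n => (hen n).le)
  have hz' : ∀ l, ∃ x, Tendsto (fun n => z n l) U (𝓝 x) := fun l =>
    lim _ (fun n => by rw [hzn]; exact (hlt1 l).le)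
  choose y hy using hz'
  have he'n : ‖e'‖ = 1 := by
    have h3 := he'.norm
    simp only [hen] at h3
    exact tendsto_nhds_unique h3 tendsto_const_nhds
  have hyn : ∀ l, ‖y l‖ = 1 / ((l : ℝ) + 2) := by
    intro l
    have h3 := (hy l).norm
    simp only [hzn] at h3
    exact (tendsto_nhds_unique tendsto_const_nhds h3).symm
  have horth : ∀ l, (inner ℂ e' (y l) : ℂ) = 0 := by
    intro l
    have h3 : Tendsto (fun n => (inner ℂ (e n) (z n l) : ℂ)) U (𝓝 (inner ℂ e' (y l))) :=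
      he'.inner (hy l)
    have h4 : Tendsto (fun n => (inner ℂ (e n) (z n l) : ℂ)) U (𝓝 0) := by
      have h5 : Tendsto (fun n : ℕ => 4 / ((n : ℝ) + 1)) U (𝓝 0) := by
        have : Tendsto (fun n : ℕ => 4 / ((n : ℝ) + 1)) atTop (𝓝 0) := by
          have h6 := (tendsto_one_div_add_atTop_nhds_zero_nat (𝕜 := ℝ)).const_mul 4
          rw [mul_zero] at h6
          refine h6.congr fun n => ?_
          ring
        exact this.mono_left hUt
      refine squeeze_zero_norm (fun n => ?_) h5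
      have h6 : (inner ℂ (e n) (z n l) : ℂ) = (((‖c n‖)⁻¹ : ℝ) : ℂ) * inner ℂ (c n) (z n l) := by
        rw [he]
        simp only [inner_smul_left, Complex.conj_ofReal]
      rw [h6, norm_mul, Complex.norm_real, norm_inv, norm_norm]
      have h7 : ‖(inner ℂ (c n) (z n l) : ℂ)‖ ≤ 4 := by
        have h8 : (inner ℂ (c n) (z n l) : ℂ) = (1 + inner ℂ (c n) (z n l)) - 1 := by ring
        rw [h8]
        refine (norm_sub_le _ _).trans ?_
        rw [norm_one]
        have := hz3 n l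
        linarith
      have h9 : (‖c n‖)⁻¹ ≤ ((n : ℝ) + 1)⁻¹ := inv_anti₀ (by positivity) (hc n).le
      calc (‖c n‖)⁻¹ * ‖(inner ℂ (c n) (z n l) : ℂ)‖ ≤ ((n : ℝ) + 1)⁻¹ * 4 :=
            mul_le_mul h9 h7 (norm_nonneg _) (by positivity)
        _ = 4 / ((n : ℝ) + 1) := by ring
    exact tendsto_nhds_unique h3 h4
  -- the limit set
  have hTb : Set.range y ⊆ ball (0 : EuclideanSpace ℂ (Fin (d + 1))) 1 := by
    rintro _ ⟨l, rfl⟩
    rw [mem_ball_zero_iff, hyn]
    exact hlt1 l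
  have hTPD : PD p (Set.range y) := by
    intro s a hs
    have hidx : ∀ u : EuclideanSpace ℂ (Fin (d + 1)), ∃ l, u ∈ s → y l = u := by
      intro u
      by_cases hu : u ∈ s
      · obtain ⟨l, hl⟩ := hs hu
        exact ⟨l, fun _ => hl⟩
      · exact ⟨0, fun h => absurd h hu⟩
    choose L hL using hidx
    have hlim : Tendsto (fun n => (∑ u ∈ s, ∑ w ∈ s, a u * (starRingEnd ℂ) (a w) *
        (1 + inner ℂ (z n (L w)) (z n (L u))) ^ (p : ℂ)).re) U
        (𝓝 (∑ u ∈ s, ∑ w ∈ s, a u * (starRingEnd ℂ) (a w) * (1 + inner ℂ w u) ^ (p : ℂ)).re) := by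
      refine (Complex.continuous_re.tendsto _).comp ?_
      refine tendsto_finsetSum _ fun u hu => tendsto_finsetSum _ fun w hw => ?_
      refine Tendsto.const_mul _ ?_
      have h3 : Tendsto (fun n => (1 : ℂ) + inner ℂ (z n (L w)) (z n (L u))) U
          (𝓝 (1 + inner ℂ w u)) := by
        have h4 := (hy (L w)).inner (𝕜 := ℂ) (hy (L u))
        rw [hL w hw, hL u hu] at h4
        exact h4.const_add 1
      have hw1 : ‖w‖ < 1 := mem_ball_zero_iff.1 (hTb (hs hw))
      have hu1 : ‖u‖ < 1 := mem_ball_zero_iff.1 (hTb (hs hu))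
      have h5 : ‖(inner ℂ w u : ℂ)‖ < 1 := by
        refine (norm_inner_le_norm w u).trans_lt ?_
        have := norm_nonneg w
        have := norm_nonneg u
        nlinarith
      have h6 : (1 : ℂ) + inner ℂ w u ∈ Complex.slitPlane :=
        Complex.mem_slitPlane_of_norm_lt_one h5
      exact (continuousAt_cpow_const h6).tendsto.comp h3
    refine ge_of_tendsto hlim (Eventually.of_forall fun n => ?_)
    have hx : ∑ u ∈ s, a u • v (z n (L u)) ∈ MM v (S n) :=
      Submodule.sum_mem _ fun u _ => Submodule.smul_mem _ _ (hzH n (L u)).2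
    have h3 := quad_nonneg hΦ (hG n).sub (good_PD hΦ (hG n)) _ hx
    have h4 : inner ℂ (∑ u ∈ s, a u • v (z n (L u))) (J (∑ u ∈ s, a u • v (z n (L u)))) =
        ∑ u ∈ s, ∑ w ∈ s, a u * (starRingEnd ℂ) (a w) *
        (1 + inner ℂ (z n (L w)) (z n (L u))) ^ (p : ℂ) := by
      rw [map_sum, inner_sum]
      refine Finset.sum_congr rfl fun u _ => ?_
      rw [sum_inner]
      refine Finset.sum_congr rfl fun w _ => ?_
      rw [map_smul, inner_smul_left, inner_smul_right,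
        hΦ.ker _ (hzH n (L u)).1 _ (hzH n (L w)).1]
      ring
    rw [h4] at h3
    exact h3
  -- contradiction
  have hℓ0 : (innerSL ℂ e' : EuclideanSpace ℂ (Fin (d + 1)) →L[ℂ] ℂ) ≠ 0 := by
    intro h3
    have h4 : (innerSL ℂ e' : EuclideanSpace ℂ (Fin (d + 1)) →L[ℂ] ℂ) e' = 0 := by
      rw [h3]
      rfl
    rw [innerSL_apply_apply, inner_self_eq_zero] at h4
    rw [h4, norm_zero] at he'n
    exact zero_ne_one he'n
  refine hyper hno hTb hTPD (mem_ball_self one_pos) (innerSL ℂ e') hℓ0 ?_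
  rw [accPt_iff_nhds]
  intro V hV
  obtain ⟨ε, hε, hεV⟩ := Metric.mem_nhds_iff.1 hV
  obtain ⟨l, hl⟩ := exists_nat_one_div_lt hε
  have hle : 1 / ((l : ℝ) + 2) ≤ 1 / ((l : ℝ) + 1) :=
    one_div_le_one_div_of_le (by positivity) (by linarith)
  refine ⟨y l, ⟨hεV ?_, ⟨l, rfl⟩, ?_⟩, ?_⟩
  · rw [mem_ball_zero_iff, hyn]
    linarith
  · show (innerSL ℂ e') (y l) = (innerSL ℂ e') 0
    rw [map_zero, innerSL_apply_apply, horth]
  · intro h3
    have h4 := hyn l
    rw [h3, norm_zero] at h4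
    exact (hlpos l).ne h4

end main

end J4796

export J4796 (good_far)

end PFrame
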