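import Pool.Agent.Helper237.PF.Defs
import Pool.Agent.Helper237.PF.Elimmany

set_option autoImplicit false

open Metric Set Filter Topology

namespace PFrame

namespace J4661

/-- projection theorem, with accumulation points -/
theorem proj {W : Type} [NormedAddCommGroup W] [NormedSpace ℂ W] [FiniteDimensional ℂ W]
    (ℓ : W →L[ℂ] ℂ) (hℓ : ℓ ≠ 0) {U S : Set W} {b : W} (hU : IsOpen U) (hb : b ∈ U) (hS : S ⊆ U)
    (hacc : AccPt b (𝓟 S)) (hiso : ¬ AccPt b (𝓟 (hull U S ∩ {z | ℓ z = ℓ b})))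
    {V : Set W} (hV : V ∈ 𝓝 b) :
    ∀ᶠ t in 𝓝 (0 : ℂ), ∃ z ∈ hull U S ∩ V, ℓ z = ℓ b + t ∧ AccPt z (𝓟 (hull U S)) := by
  have hproper : ProperSpace W := FiniteDimensional.proper ℂ W
  -- a closed ball
  obtain ⟨δ, hδ, hball⟩ : ∃ δ > 0, closedBall b δ ⊆ V ∩ U :=
    Metric.nhds_basis_closedBall.mem_iff.1 (Filter.inter_mem hV (hU.mem_nhds hb))
  have hV1 : closedBall b δ ∈ 𝓝 b := closedBall_mem_nhds b hδ
  have hcomp : IsCompact (closedBall b δ) := isCompact_closedBall b δ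
  have hsurj : Function.Surjective ℓ := by
    obtain ⟨w, hw⟩ : ∃ w, ℓ w ≠ 0 := by
      by_contra hcon
      push Not at hcon
      exact hℓ (ContinuousLinearMap.ext hcon)
    intro x
    refine ⟨(x / ℓ w) • w, ?_⟩
    rw [map_smul, smul_eq_mul, div_mul_cancel₀ _ hw]
  have hiso' : ∀ᶠ z in 𝓝 b, z ∈ hull U S → ℓ z = ℓ b → z = b := by
    rw [accPt_iff_frequently, Filter.not_frequently] at hiso
    filter_upwards [hiso] with z hz h1 h2
    by_contra hne
    exact hz ⟨hne, h1, h2⟩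
  obtain ⟨U', V', hV', hU'o, hbU', hV'V, hπV', hmain⟩ := elim_many _ ℓ hsurj rfl
    (ContinuousLinearMap.id ℂ ℂ) U S b hU hb hS hacc (by
      filter_upwards [hiso'] with z hz h1 h2
      exact hz h1 h2) (closedBall b δ) hV1
  -- the projected set accumulates
  have hSh : S ⊆ hull U S := fun s hs => ⟨hS hs, fun f _ hf => hf s hs⟩
  have hacc' : ∃ᶠ y in 𝓝 (ℓ b), y ≠ ℓ b ∧ y ∈ ℓ '' (S ∩ V') := by
    rw [accPt_iff_frequently] at hacc
    have h1 : ∃ᶠ s in 𝓝 b, ℓ s ≠ ℓ b ∧ ℓ s ∈ ℓ '' (S ∩ V') := by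
      refine (hacc.and_eventually (hiso'.and hV')).mono ?_
      rintro s ⟨⟨hsb, hsS⟩, hs2, hsV⟩
      exact ⟨fun h => hsb (hs2 (hSh hsS) h), s, ⟨hsS, hsV⟩, rfl⟩
    exact ℓ.continuous.continuousAt.tendsto.frequently h1
  obtain ⟨ε, hε, hεU⟩ := Metric.isOpen_iff.1 hU'o _ hbU'
  have hkey : ∀ t : ℂ, ‖t‖ < ε → ∃ z ∈ hull U S ∩ closedBall b δ, ℓ z = ℓ b + t := by
    intro t ht
    apply hmain
    have hmem : ℓ b + t ∈ ball (ℓ b) ε := by
      rw [mem_ball, dist_eq_norm]; simpa using ht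
    refine ⟨hεU hmem, ?_⟩
    intro f hf hf0
    have han : AnalyticOnNhd ℂ f (ball (ℓ b) ε) :=
      ((hf.differentiableOn (by norm_num)).mono hεU).analyticOnNhd isOpen_ball
    have hfr : ∃ᶠ z in 𝓝[≠] (ℓ b), f z = 0 := by
      rw [frequently_nhdsWithin_iff]
      refine hacc'.mono ?_
      rintro y ⟨hy1, hy2⟩
      exact ⟨hf0 y hy2, hy1⟩
    exact han.eqOn_zero_of_preconnected_of_frequently_eq_zero
      (convex_ball _ _).isPreconnected (mem_ball_self hε) hfr hmem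
  have hev : ∀ᶠ t in 𝓝 (0 : ℂ), t ∈ ball (0 : ℂ) ε := ball_mem_nhds _ hε
  filter_upwards [hev] with t ht
  rw [mem_ball_zero_iff] at ht
  -- a sequence
  set η : ℝ := ε - ‖t‖ with hη
  have hη0 : 0 < η := by rw [hη]; linarith
  have hseq : ∀ j : ℕ, ‖t + ((η / (j + 2) : ℝ) : ℂ)‖ < ε := by
    intro j
    have h1 : ‖((η / (j + 2) : ℝ) : ℂ)‖ < η := by
      rw [Complex.norm_real, Real.norm_of_nonneg (by positivity), div_lt_iff₀ (by positivity)]
      nlinarith [(Nat.cast_nonneg j : (0:ℝ) ≤ j)]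
    calc ‖t + ((η / (j + 2) : ℝ) : ℂ)‖ ≤ ‖t‖ + ‖((η / (j + 2) : ℝ) : ℂ)‖ := norm_add_le _ _
      _ < ε := by rw [hη] at h1; linarith
  choose z hz hzl using fun j : ℕ => hkey _ (hseq j)
  obtain ⟨a, ha, φ, hφ, hlim⟩ := hcomp.tendsto_subseq (fun j => (hz j).2)
  have hη_lim : Tendsto (fun j : ℕ => ℓ b + (t + ((η / (j + 2) : ℝ) : ℂ))) atTop
      (𝓝 (ℓ b + t)) := by
    have h1 : Tendsto (fun j : ℕ => (η / ((j : ℝ) + 2))) atTop (𝓝 0) := by
      refine Tendsto.div_atTop tendsto_const_nhds ?_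
      exact tendsto_atTop_add_const_right _ _ tendsto_natCast_atTop_atTop
    have h2 : Tendsto (fun j : ℕ => ((η / ((j : ℝ) + 2) : ℝ) : ℂ)) atTop (𝓝 0) := by
      have := (Complex.continuous_ofReal.tendsto 0).comp h1
      rw [Complex.ofReal_zero] at this
      exact this
    have h3 := (h2.const_add t).const_add (ℓ b)
    rwa [add_zero] at h3
  have hla : ℓ a = ℓ b + t := by
    have h1 : Tendsto (fun j => ℓ (z (φ j))) atTop (𝓝 (ℓ a)) :=
      (ℓ.continuous.tendsto a).comp hlim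
    have h2 : Tendsto (fun j => ℓ (z (φ j))) atTop (𝓝 (ℓ b + t)) := by
      have h3 := hη_lim.comp hφ.tendsto_atTop
      refine h3.congr fun j => ?_
      exact (hzl (φ j)).symm
    exact tendsto_nhds_unique h1 h2
  have haU : a ∈ U := (hball ha).2
  have hah : a ∈ hull U S := by
    refine ⟨haU, fun f hf hf0 => ?_⟩
    have h1 : Tendsto (fun j => f (z (φ j))) atTop (𝓝 (f a)) := by
      have h2 : ContinuousAt f a := (hf.continuousOn).continuousAt (hU.mem_nhds haU)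
      exact h2.tendsto.comp hlim
    have h2 : ∀ j, f (z (φ j)) = 0 := fun j => (hz (φ j)).1.2 f hf hf0
    simp_rw [h2] at h1
    exact (tendsto_nhds_unique h1 tendsto_const_nhds)
  refine ⟨a, ⟨hah, (hball ha).1⟩, hla, ?_⟩
  rw [accPt_iff_frequently]
  refine hlim.frequently (Eventually.of_forall fun j => ?_).frequently
  refine ⟨fun h => ?_, (hz (φ j)).1⟩
  have h1 := hzl (φ j)
  simp only [Function.comp_apply] at h
  rw [h, hla] at h1
  have h2 : ((η / ((φ j : ℝ) + 2) : ℝ) : ℂ) = 0 := by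
    have h3 := add_left_cancel h1
    exact (left_eq_add.1 h3)
  rw [Complex.ofReal_eq_zero] at h2
  have h3 : 0 < η / ((φ j : ℝ) + 2) := by positivity
  linarith

end J4661

export J4661 (proj)

end PFrame
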