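import Pool.Agent.Helper237.PF.Defs
import Pool.Agent.Helper237.PF.Proj

set_option autoImplicit false

open Metric Set Filter Topology

namespace PFrame

namespace J4664

lemma far_sub {W : Type*} [NormedAddCommGroup W] [NormedSpace ℂ W] {U S : Set W} (h : S ⊆ U) :
    S ⊆ hull U S := fun s hs => ⟨h hs, fun _ _ hf => hf s hs⟩

lemma far_idem {W : Type*} [NormedAddCommGroup W] [NormedSpace ℂ W] (U S : Set W) :
    hull U (hull U S) = hull U S := by
  apply Subset.antisymm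
  · intro z hz
    exact ⟨hz.1, fun f hf hS => hz.2 f hf fun s hs => hs.2 f hf hS⟩
  · exact far_sub fun z hz => hz.1

lemma far_closed {W : Type*} [NormedAddCommGroup W] [NormedSpace ℂ W] {U S : Set W}
    (hU : IsOpen U) {z : W} (hz : z ∈ U) (hc : z ∈ closure (hull U S)) : z ∈ hull U S := by
  refine ⟨hz, fun f hf hS => ?_⟩
  have h1 : ContinuousAt f z := (hf.continuousOn z hz).continuousAt (hU.mem_nhds hz)
  have h2 : f z ∈ closure (f '' (hull U S)) := by
    exact mem_closure_image h1 hc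
  have h3 : f '' (hull U S) ⊆ {0} := by
    rintro _ ⟨y, hy, rfl⟩
    exact hy.2 f hf hS
  have h4 := closure_mono h3 h2
  rw [closure_singleton] at h4
  exact h4

/-- farthest point principle -/
theorem farthest {W : Type} [NormedAddCommGroup W] [InnerProductSpace ℂ W]
    [FiniteDimensional ℂ W] [Nontrivial W] (b₀ : W) (ρ : ℝ) (S : Set W) (hS : S ⊆ ball b₀ ρ)
    (hacc : AccPt b₀ (𝓟 S))
    (hH : ∀ b ∈ ball b₀ ρ, ∀ ℓ : W →L[ℂ] ℂ, ℓ ≠ 0 →
      ¬ AccPt b (𝓟 (hull (ball b₀ ρ) S ∩ {z | ℓ z = ℓ b}))) :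
    ∀ r, 0 < r → r < ρ → ∃ z ∈ hull (ball b₀ ρ) S, ‖z - b₀‖ = r := by
  classical
  intro r hr hrρ
  by_contra hcon
  push Not at hcon
  have hprop : ProperSpace W := FiniteDimensional.proper ℂ W
  obtain ⟨H, hHdef⟩ : ∃ H, H = hull (ball b₀ ρ) S := ⟨_, rfl⟩
  rw [← hHdef] at hcon
  have hHU : H ⊆ ball b₀ ρ := by rw [hHdef]; exact fun z hz => hz.1
  have hHH : hull (ball b₀ ρ) H = H := by rw [hHdef]; exact far_idem _ _
  have hSH : S ⊆ H := by rw [hHdef]; exact far_sub hS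
  have hsub : closedBall b₀ r ⊆ ball b₀ ρ := closedBall_subset_ball hrρ
  have hAH : ∀ z, AccPt z (𝓟 H) → z ∈ closedBall b₀ r → z ∈ H := by
    intro z hz hzr
    rw [hHdef] at hz ⊢
    exact far_closed isOpen_ball (hsub hzr) (mem_closure_iff_clusterPt.2 hz.clusterPt)
  have hA : IsCompact (derivedSet H ∩ closedBall b₀ r) :=
    (isCompact_closedBall b₀ r).inter_left (isClosed_derivedSet H)
  have hb0 : b₀ ∈ derivedSet H ∩ closedBall b₀ r :=
    ⟨hacc.mono (principal_mono.2 hSH), mem_closedBall_self hr.le⟩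
  obtain ⟨b, hbA, hmax⟩ := hA.exists_isMaxOn ⟨b₀, hb0⟩
    (f := fun z => ‖z - b₀‖) (by fun_prop)
  have hbacc : AccPt b (𝓟 H) := hbA.1
  have hbH : b ∈ H := hAH b hbA.1 hbA.2
  have hbr : ‖b - b₀‖ < r := by
    refine lt_of_le_of_ne ?_ (hcon b hbH)
    have := hbA.2
    rwa [mem_closedBall, dist_eq_norm] at this
  obtain ⟨v, hv0, hv⟩ : ∃ v : W, v ≠ 0 ∧ (b - b₀ = 0 ∨ v = b - b₀) := by
    by_cases h : b - b₀ = 0
    · obtain ⟨v, hv⟩ := exists_ne (0 : W)
      exact ⟨v, hv, Or.inl h⟩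
    · exact ⟨b - b₀, h, Or.inr rfl⟩
  have hℓ : innerSL ℂ v ≠ 0 := by
    intro h
    have h1 := congrArg (fun L : W →L[ℂ] ℂ => L v) h
    simp only [innerSL_apply_apply, ContinuousLinearMap.zero_apply] at h1
    exact hv0 (inner_self_eq_zero.1 h1)
  have hiso := hH b (hHU hbH) (innerSL ℂ v) hℓ
  rw [← hHdef] at hiso
  have hbV : b ∈ ball b₀ r := by rw [mem_ball, dist_eq_norm]; exact hbr
  have hp := proj (innerSL ℂ v) hℓ (U := ball b₀ ρ) (S := H) isOpen_ball (hHU hbH) hHU hbacc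
    (by rw [hHH]; exact hiso) (V := ball b₀ r) (isOpen_ball.mem_nhds hbV)
  rw [hHH, Metric.eventually_nhds_iff] at hp
  obtain ⟨ε, hε, hp⟩ := hp
  obtain ⟨z, ⟨hzH, hzV⟩, hzl, hzacc⟩ := hp (y := ((ε / 2 : ℝ) : ℂ)) (by
    rw [dist_zero_right, Complex.norm_real, Real.norm_of_nonneg (by positivity)]
    linarith)
  have hzA : z ∈ derivedSet H ∩ closedBall b₀ r := ⟨hzacc, ball_subset_closedBall hzV⟩
  have hle : ‖z - b₀‖ ≤ ‖b - b₀‖ := hmax hzA
  rw [innerSL_apply_apply, innerSL_apply_apply] at hzl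
  rcases hv with hv | hv
  · rw [hv, norm_zero] at hle
    have h1 : z - b₀ = 0 := norm_le_zero_iff.1 hle
    have h2 : z = b := by
      rw [sub_eq_zero] at h1 hv
      rw [h1, hv]
    rw [h2] at hzl
    have h3 : ((ε / 2 : ℝ) : ℂ) = 0 := by linear_combination -hzl
    have h4 : ε / 2 = 0 := by exact_mod_cast h3
    linarith
  · have h1 : inner ℂ v (z - b₀) = ((ε / 2 + ‖v‖ ^ 2 : ℝ) : ℂ) := by
      have h2 : inner ℂ v (z - b₀) = inner ℂ v z - inner ℂ v b + inner ℂ v (b - b₀) := by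
        rw [← inner_sub_right, ← inner_add_right]
        congr 1
        abel
      rw [h2, ← hv, hzl, inner_self_eq_norm_sq_to_K]
      push_cast
      simp
    have h2 := norm_inner_le_norm (𝕜 := ℂ) v (z - b₀)
    rw [h1, Complex.norm_real, Real.norm_of_nonneg (by positivity)] at h2
    rw [← hv] at hle
    have h3 : ‖v‖ * ‖z - b₀‖ ≤ ‖v‖ * ‖v‖ := mul_le_mul_of_nonneg_left hle (norm_nonneg _)
    nlinarith

end J4664

export J4664 (farthest)

end PFrame
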