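import Pool.Agent.Helper237.PF.Defs

set_option autoImplicit false

open Metric Set Filter Topology

namespace PFrame

namespace J4786

section kernel

variable {W : Type} [NormedAddCommGroup W] [InnerProductSpace ℂ W]

variable {E : Type} [NormedAddCommGroup E] [InnerProductSpace ℂ E]

end kernel

abbrev Idx (d : ℕ) := Σ j : ℕ, (Fin j → Fin d)

noncomputable abbrev EE (d : ℕ) := lp (fun _ : Idx d => ℂ) 2

lemma choose_succ_mul (p : ℝ) (n : ℕ) :
    ((n : ℝ) + 1) * Ring.choose p (n + 1) = (p - n) * Ring.choose p n := by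
  rw [Ring.choose_eq_smul, Ring.choose_eq_smul, descPochhammer_succ_right, Nat.factorial_succ]
  simp only [Polynomial.smeval_mul, Polynomial.smeval_sub, Polynomial.smeval_X,
    Polynomial.smeval_natCast, smul_eq_mul, Nat.cast_mul, pow_one, pow_zero, nsmul_eq_mul, mul_one]
  have h1 : (n.factorial : ℝ) ≠ 0 := by positivity
  have h2 : ((n : ℝ) + 1) ≠ 0 := by positivity
  push_cast
  field_simp

lemma choose_bdd (p : ℝ) (hp : 0 < p) : ∃ M : ℝ, 0 ≤ M ∧ ∀ n, |Ring.choose p n| ≤ M := by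
  obtain ⟨N, hN⟩ := exists_nat_ge p
  refine ⟨∑ i ∈ Finset.range (N + 1), |Ring.choose p i|, Finset.sum_nonneg fun i _ => abs_nonneg _, ?_⟩
  intro n
  by_cases hn : n ≤ N
  · exact Finset.single_le_sum (f := fun i => |Ring.choose p i|) (fun i _ => abs_nonneg _)
      (Finset.mem_range.2 (by omega))
  · have key : ∀ k, |Ring.choose p (N + k)| ≤ |Ring.choose p N| := by
      intro k
      induction k with
      | zero => simp
      | succ k ih =>
        refine le_trans ?_ ih
        have h := choose_succ_mul p (N + k)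
        have h2 : (0 : ℝ) < ((N + k : ℕ) : ℝ) + 1 := by positivity
        have h3 : |p - ((N + k : ℕ) : ℝ)| ≤ ((N + k : ℕ) : ℝ) + 1 := by
          rw [abs_le]; push_cast; constructor <;> nlinarith [Nat.cast_nonneg (α := ℝ) k]
        have h4 : (((N + k : ℕ) : ℝ) + 1) * |Ring.choose p (N + (k + 1))| =
            |p - ((N + k : ℕ) : ℝ)| * |Ring.choose p (N + k)| := by
          rw [← abs_mul, ← h, abs_mul, abs_of_pos h2]; rfl
        have h5 := mul_le_mul_of_nonneg_right h3 (abs_nonneg (Ring.choose p (N + k)))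
        rw [← h4] at h5
        exact le_of_mul_le_mul_left h5 h2
    obtain ⟨k, rfl⟩ : ∃ k, n = N + k := ⟨n - N, by omega⟩
    refine (key k).trans ?_
    exact Finset.single_le_sum (f := fun i => |Ring.choose p i|) (fun i _ => abs_nonneg _)
      (Finset.mem_range.2 (by omega))

/-- the homogeneous pieces -/
noncomputable def ps (d : ℕ) : FormalMultilinearSeries ℂ (EuclideanSpace ℂ (Fin d)) (EE d) :=
  fun j => ∑ w : Fin j → Fin d,
    ((ContinuousMultilinearMap.mkPiAlgebra ℂ (Fin j) ℂ).compContinuousLinearMap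
      (fun k => (EuclideanSpace.proj (w k) : EuclideanSpace ℂ (Fin d) →L[ℂ] ℂ))).smulRight
      (lp.single 2 (⟨j, w⟩ : Idx d) (1 : ℂ))

lemma ps_apply (d j : ℕ) (m : Fin j → EuclideanSpace ℂ (Fin d)) :
    ps d j m = ∑ w : Fin j → Fin d, lp.single 2 (⟨j, w⟩ : Idx d) (∏ k, m k (w k)) := by
  rw [ps, sum_apply]
  refine Finset.sum_congr rfl fun w _ => ?_
  rw [ContinuousMultilinearMap.smulRight_apply, ContinuousMultilinearMap.compContinuousLinearMap_apply,
    ContinuousMultilinearMap.mkPiAlgebra_apply, ← lp.single_smul]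
  simp

lemma ps_norm (d j : ℕ) : ‖ps d j‖ ≤ 1 := by
  refine ContinuousMultilinearMap.opNorm_le_bound (by norm_num) fun m => ?_
  rw [one_mul, ps_apply]
  have h0 : (0 : ℝ) < (2 : ENNReal).toReal := by simp
  let f : Idx d → ℂ := fun i => if h : i.1 = j then ∏ k : Fin j, m k (i.2 (Fin.cast h.symm k)) else 0
  have hf : ∀ w : Fin j → Fin d, f ⟨j, w⟩ = ∏ k, m k (w k) := by
    intro w
    simp [f]
  have h := lp.norm_sum_single (E := fun _ : Idx d => ℂ) (p := 2) h0 f
    (Finset.univ.map ⟨fun w : Fin j → Fin d => (⟨j, w⟩ : Idx d), fun a b hab => by simpa using hab⟩)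
  rw [Finset.sum_map, Finset.sum_map] at h
  have h' : ‖(∑ w : Fin j → Fin d, (lp.single 2 (⟨j, w⟩ : Idx d) (f ⟨j, w⟩) : EE d) : EE d)‖ ^
      (2 : ENNReal).toReal = ∑ w : Fin j → Fin d, ‖f ⟨j, w⟩‖ ^ (2 : ENNReal).toReal := h
  simp only [hf] at h'
  have h1 : ‖(∑ w : Fin j → Fin d, (lp.single 2 (⟨j, w⟩ : Idx d) (∏ k, m k (w k) : ℂ) : EE d) :
      EE d)‖ ^ 2 = (∏ k, ‖m k‖) ^ 2 := by
    have h2 : (2 : ENNReal).toReal = ((2 : ℕ) : ℝ) := by simp
    rw [h2, Real.rpow_natCast] at h'
    simp only [Real.rpow_natCast] at h'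
    rw [h', ← Finset.prod_pow]
    simp only [EuclideanSpace.norm_sq_eq]
    rw [Finset.prod_univ_sum]
    simp only [Fintype.piFinset_univ, norm_prod, Finset.prod_pow]
  exact le_of_eq ((sq_eq_sq₀ (norm_nonneg _) (Finset.prod_nonneg fun k _ => norm_nonneg _)).1 h1)

lemma ps_radius (d : ℕ) : 1 ≤ (ps d).radius := by
  have := (ps d).le_radius_of_bound (r := 1) 1 (fun n => by simpa using ps_norm d n)
  simpa using this

noncomputable def vv (d : ℕ) : EuclideanSpace ℂ (Fin d) → EE d := (ps d).sum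

lemma vv_fps (d : ℕ) : HasFPowerSeriesOnBall (vv d) (ps d) 0 (ps d).radius :=
  (ps d).hasFPowerSeriesOnBall (lt_of_lt_of_le one_pos (ps_radius d))

lemma vv_coord (d : ℕ) (u : EuclideanSpace ℂ (Fin d)) (hu : u ∈ ball (0 : EuclideanSpace ℂ (Fin d)) 1)
    (i : Idx d) : (vv d u) i = ∏ k, u (i.2 k) := by
  have hmem : u ∈ Metric.eball (0 : EuclideanSpace ℂ (Fin d)) (ps d).radius := by
    refine Metric.eball_subset_eball (ps_radius d) ?_
    rw [← ENNReal.ofReal_one, Metric.eball_ofReal]; exact hu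
  have h := (vv_fps d).hasSum hmem
  rw [zero_add] at h
  have h2 := (lp.evalCLM ℂ (fun _ : Idx d => ℂ) 2 i).hasSum h
  have h3 : ∀ n, (lp.evalCLM ℂ (fun _ : Idx d => ℂ) 2 i) ((ps d n) fun _ => u) =
      if n = i.1 then ∏ k, u (i.2 k) else 0 := by
    intro n
    have e : (lp.evalCLM ℂ (fun _ : Idx d => ℂ) 2 i) ((ps d n) fun _ => u) =
      ((ps d n) fun _ => u : EE d) i := rfl
    rw [e, ps_apply, lp.coeFn_sum, Finset.sum_apply]
    obtain ⟨j, w⟩ := i
    by_cases hnj : n = j
    · subst hnj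
      rw [if_pos rfl, Finset.sum_eq_single w]
      · rw [lp.single_apply_self]
      · intro b _ hb
        rw [lp.single_apply_ne]
        intro hh
        exact hb (by simpa using hh.symm)
      · simp
    · rw [if_neg hnj]
      refine Finset.sum_eq_zero fun b _ => ?_
      rw [lp.single_apply_ne]
      intro hh
      exact hnj (congrArg Sigma.fst hh).symm
  rw [show (fun n => (lp.evalCLM ℂ (fun _ : Idx d => ℂ) 2 i) ((ps d n) fun _ => u)) =
    (fun n => if n = i.1 then ∏ k, u (i.2 k) else 0) from funext h3] at h2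
  exact h2.unique (hasSum_ite_eq i.1 (∏ k, u (i.2 k)))

lemma lp_single_coord (d : ℕ) : (vv d 0) = lp.single 2 (⟨0, Fin.elim0⟩ : Idx d) (1 : ℂ) := by
  ext i
  rw [vv_coord d 0 (by simp) i]
  obtain ⟨j, w⟩ := i
  rcases Nat.eq_zero_or_pos j with rfl | hj
  · have hw : w = Fin.elim0 := Subsingleton.elim _ _
    subst hw
    rw [lp.single_apply_self]
    simp
  · rw [lp.single_apply_ne]
    · have : NeZero j := ⟨by omega⟩
      exact Finset.prod_eq_zero (Finset.mem_univ (0 : Fin j)) (by simp)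
    · intro h
      have := congrArg Sigma.fst h
      simp only at this
      omega

/-- the diagonal operator -/
lemma exists_J (p : ℝ) (hp : 0 < p) (d : ℕ) : ∃ J : EE d →L[ℂ] EE d,
    ∀ (x : EE d) (i : Idx d), (J x) i = ((Ring.choose p i.1 : ℝ) : ℂ) * x i := by
  obtain ⟨M, hM0, hM⟩ := choose_bdd p hp
  have hle : ∀ (x : EE d) (i : Idx d), ‖((Ring.choose p i.1 : ℝ) : ℂ) * x i‖ ≤
      ‖(((M : ℝ) : ℂ) • x : EE d) i‖ := by
    intro x i
    rw [lp.coeFn_smul, Pi.smul_apply, smul_eq_mul, norm_mul, norm_mul, Complex.norm_real,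
      Complex.norm_real]
    refine mul_le_mul_of_nonneg_right ?_ (norm_nonneg _)
    rw [Real.norm_eq_abs, Real.norm_eq_abs, abs_of_nonneg hM0]
    exact hM _
  have hmem : ∀ x : EE d, Memℓp (fun i : Idx d => ((Ring.choose p i.1 : ℝ) : ℂ) * x i) 2 := by
    intro x
    have h1 : Memℓp (fun i : Idx d => M * ‖x i‖) 2 := by
      have h2 := (memℓp_norm_iff.2 (lp.memℓp x)).const_smul (𝕜 := ℝ) M
      exact h2
    refine h1.mono fun i => ?_
    rw [norm_mul, Complex.norm_real]
    exact mul_le_mul_of_nonneg_right (hM _) (norm_nonneg _)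
  have hadd : ∀ x y : EE d, (⟨fun i => ((Ring.choose p i.1 : ℝ) : ℂ) * (x + y) i, hmem (x + y)⟩ : EE d) =
      ⟨fun i => ((Ring.choose p i.1 : ℝ) : ℂ) * x i, hmem x⟩ +
        ⟨fun i => ((Ring.choose p i.1 : ℝ) : ℂ) * y i, hmem y⟩ := by
    intro x y
    apply Subtype.ext
    funext i
    change ((Ring.choose p i.1 : ℝ) : ℂ) * (x i + y i) =
      ((Ring.choose p i.1 : ℝ) : ℂ) * x i + ((Ring.choose p i.1 : ℝ) : ℂ) * y i
    ring
  have hsmul : ∀ (c : ℂ) (x : EE d),
      (⟨fun i => ((Ring.choose p i.1 : ℝ) : ℂ) * (c • x) i, hmem (c • x)⟩ : EE d) =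
      c • ⟨fun i => ((Ring.choose p i.1 : ℝ) : ℂ) * x i, hmem x⟩ := by
    intro c x
    apply Subtype.ext
    funext i
    change ((Ring.choose p i.1 : ℝ) : ℂ) * (c * x i) =
      c * (((Ring.choose p i.1 : ℝ) : ℂ) * x i)
    ring
  let L : EE d →ₗ[ℂ] EE d :=
    { toFun := fun x => ⟨fun i => ((Ring.choose p i.1 : ℝ) : ℂ) * x i, hmem x⟩
      map_add' := hadd
      map_smul' := hsmul }
  have hL : ∀ x, ‖L x‖ ≤ M * ‖x‖ := by
    intro x
    have h1 := lp.norm_mono (p := 2) (by norm_num) (x := L x) (y := (((M : ℝ) : ℂ) • x : EE d)) (hle x)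
    rwa [norm_smul, Complex.norm_real, Real.norm_eq_abs, abs_of_nonneg hM0] at h1
  exact ⟨L.mkContinuous M hL, fun x i => rfl⟩

theorem exists_feat (p : ℝ) (hp : 0 < p) (d : ℕ) :
    ∃ (E : Type) (_ : NormedAddCommGroup E) (_ : InnerProductSpace ℂ E) (_ : CompleteSpace E)
      (v : EuclideanSpace ℂ (Fin d) → E) (J : E →L[ℂ] E), IsFeat p v J := by
  obtain ⟨J, hJ⟩ := exists_J p hp d
  refine ⟨EE d, inferInstance, inferInstance, inferInstance, vv d, J, ?_⟩
  have hsymm : ∀ x y, inner ℂ (J x) y = inner ℂ x (J y) := by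
    intro x y
    rw [lp.inner_eq_tsum, lp.inner_eq_tsum]
    refine tsum_congr fun i => ?_
    rw [hJ, hJ, RCLike.inner_apply, RCLike.inner_apply, map_mul, Complex.conj_ofReal]
    ring
  refine ⟨?_, ?_, hsymm, ?_, ?_⟩
  · have h := (vv_fps d).analyticOnNhd
    have h2 := h.contDiffOn (n := 1) (Metric.isOpen_eball.uniqueDiffOn)
    refine h2.mono ?_
    refine Set.Subset.trans ?_ (Metric.eball_subset_eball (ps_radius d))
    rw [← ENNReal.ofReal_one, Metric.eball_ofReal]
  · intro u hu w hw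
    have hlt : ‖inner ℂ w u‖ < 1 := by
      refine (norm_inner_le_norm w u).trans_lt ?_
      rw [mem_ball_zero_iff] at hu hw
      nlinarith [norm_nonneg w, norm_nonneg u]
    have h := lp.hasSum_inner (𝕜 := ℂ) (vv d w) (J (vv d u))
    have hg : ∀ j : ℕ, HasSum (fun q : Fin j → Fin d =>
        inner ℂ ((vv d w) (⟨j, q⟩ : Idx d)) ((J (vv d u)) (⟨j, q⟩ : Idx d)))
        (((Ring.choose p j : ℝ) : ℂ) * (inner ℂ w u) ^ j) := by
      intro j
      have e : ((Ring.choose p j : ℝ) : ℂ) * (inner ℂ w u) ^ j = ∑ q : Fin j → Fin d,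
          inner ℂ ((vv d w) (⟨j, q⟩ : Idx d)) ((J (vv d u)) (⟨j, q⟩ : Idx d)) := by
        have e1 : ∀ q : Fin j → Fin d,
            inner ℂ ((vv d w) (⟨j, q⟩ : Idx d)) ((J (vv d u)) (⟨j, q⟩ : Idx d)) =
            ((Ring.choose p j : ℝ) : ℂ) * ∏ k, (u (q k) * (starRingEnd ℂ) (w (q k))) := by
          intro q
          rw [hJ, vv_coord d u hu, vv_coord d w hw, RCLike.inner_apply, map_prod,
            Finset.prod_mul_distrib]
          ring
        rw [Finset.sum_congr rfl fun q _ => e1 q, ← Finset.mul_sum]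
        congr 1
        have e2 : (inner ℂ w u : ℂ) = ∑ i, (u i * (starRingEnd ℂ) (w i)) := by
          rw [PiLp.inner_apply]
          rfl
        have e3 := Finset.prod_univ_sum (fun _ : Fin j => (Finset.univ : Finset (Fin d)))
          (fun _ i => u i * (starRingEnd ℂ) (w i))
        rw [Fintype.piFinset_univ] at e3
        rw [← e3, e2, Finset.prod_const, Finset.card_univ, Fintype.card_fin]
      rw [e]
      exact hasSum_fintype _
    have h2 := h.sigma hg
    have h3 := (Complex.one_add_cpow_hasFPowerSeriesOnBall_zero (a := (p : ℂ))).hasSum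
      (y := inner ℂ w u) (by
        rw [← ENNReal.ofReal_one, Metric.eball_ofReal]
        simpa using hlt)
    rw [zero_add] at h3
    have h4 : (fun n => (binomialSeries ℂ (p : ℂ) n) fun _ => (inner ℂ w u : ℂ)) =
        fun j => ((Ring.choose p j : ℝ) : ℂ) * (inner ℂ w u) ^ j := by
      funext n
      rw [binomialSeries_apply, Complex.ofReal_choose]
      simp
    rw [h4] at h3
    exact h2.unique h3
  · rw [lp_single_coord]
    ext i
    rw [hJ]
    obtain ⟨j, q⟩ := i
    rcases Nat.eq_zero_or_pos j with rfl | hj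
    · simp
    · rw [lp.single_apply_ne]
      · simp
      · intro h
        have := congrArg Sigma.fst h
        simp only at this
        omega
  · intro u hu
    rw [lp_single_coord, lp.inner_single_left, vv_coord d u hu]
    simp

end J4786

export J4786 (exists_feat)

end PFrame
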