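import Pool.Agent.Helper237.PF.Defs

set_option autoImplicit false

open Metric Set Filter Topology

namespace PFrame

namespace J4792

section kernel

variable {W : Type} [NormedAddCommGroup W] [InnerProductSpace ℂ W]

variable {E : Type} [NormedAddCommGroup E] [InnerProductSpace ℂ E]

end kernel

section generalW

variable {W : Type} [NormedAddCommGroup W] [InnerProductSpace ℂ W]
  {E : Type} [NormedAddCommGroup E] [InnerProductSpace ℂ E]
  {p : ℝ} {v : W → E} {J : E →L[ℂ] E}

theorem hull_subset_HH [CompleteSpace E] (hΦ : IsFeat p v J) {U T S : Set W}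
    (hU : U ⊆ ball 0 1) (hT : T ⊆ HH v S) : hull U T ⊆ HH v S := by
  rintro z ⟨hzU, hz⟩
  refine ⟨hU hzU, ?_⟩
  have hcl : IsClosed ((MM v S : Submodule ℂ E) : Set E) :=
    Submodule.isClosed_topologicalClosure _
  haveI : CompleteSpace (MM v S) := hcl.completeSpace_coe
  have hsub : ∀ y ∈ (MM v S)ᗮ, inner ℂ y (v z) = 0 := by
    intro y hy
    refine hz (fun u => inner ℂ y (v u)) ?_ ?_
    · exact (innerSL ℂ y).contDiff.comp_contDiffOn (hΦ.smooth.mono hU)
    · intro t ht
      exact (Submodule.mem_orthogonal' _ _).1 hy _ (hT ht).2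
  have : v z ∈ (MM v S)ᗮᗮ := by
    rw [Submodule.mem_orthogonal]
    exact hsub
  rwa [Submodule.orthogonal_orthogonal] at this

end generalW

end J4792

export J4792 (hull_subset_HH)

end PFrame
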