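import Pool.Agent.Helper237.PF.Defs

set_option autoImplicit false

open Metric Set Filter Topology

namespace PFrame

namespace J4662

theorem irr_aux (p : ℝ) (hp : 0 < p) (hirr : Irrational p) (k : ℕ) (b : Fin k → ℂ → ℂ)
    (hb : ∀ l, AnalyticAt ℂ (b l) 0) (hne : ∃ l, ¬ ∀ᶠ z in 𝓝 (0 : ℂ), b l z = 0)
    (x T : ℕ → ℂ) (hx : Tendsto x atTop (𝓝 0))
    (hx0 : ∀ n, x n ≠ 0) (hT : ∀ n, ‖T n‖ = ‖x n‖ ^ p)
    (h : ∀ n, ∑ l, b l (x n) * T n ^ (l : ℕ) = 0) : False := by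
  classical
  have hdat : ∀ l : Fin k, ∃ (e : ℕ) (g : ℂ → ℂ), AnalyticAt ℂ g 0 ∧
      ((¬ ∀ᶠ z in 𝓝 (0 : ℂ), b l z = 0) → g 0 ≠ 0) ∧ ∀ᶠ z in 𝓝 (0 : ℂ), b l z = z ^ e * g z := by
    intro l
    by_cases h0 : ∀ᶠ z in 𝓝 (0 : ℂ), b l z = 0
    · refine ⟨0, fun _ => 0, analyticAt_const, fun h1 => absurd h0 h1, ?_⟩
      filter_upwards [h0] with z hz
      rw [hz]; simp
    · obtain ⟨n, g, hg, hg0, hgz⟩ := ((hb l).exists_eventuallyEq_pow_smul_nonzero_iff).2 h0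
      refine ⟨n, g, hg, fun _ => hg0, ?_⟩
      filter_upwards [hgz] with z hz
      rw [hz]; simp
  choose e g hg hg0 hgz using hdat
  set A : Finset (Fin k) := Finset.univ.filter fun l => ¬ ∀ᶠ z in 𝓝 (0 : ℂ), b l z = 0 with hA
  have hAne : A.Nonempty := by
    obtain ⟨l, hl⟩ := hne
    exact ⟨l, Finset.mem_filter.2 ⟨Finset.mem_univ _, hl⟩⟩
  set lam : Fin k → ℝ := fun l => (e l : ℝ) + p * (l : ℕ) with hlam
  obtain ⟨l₀, hl₀A, hl₀⟩ := A.exists_min_image lam hAne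
  have hinj : ∀ l, l ≠ l₀ → lam l ≠ lam l₀ := by
    intro l hl heq
    simp only [hlam] at heq
    have hne' : ((l : ℕ) : ℤ) - ((l₀ : ℕ) : ℤ) ≠ 0 := by
      intro h1
      exact hl (Fin.ext (by omega))
    have h2 : p * ((((l : ℕ) : ℤ) - ((l₀ : ℕ) : ℤ) : ℤ) : ℝ) =
        (((e l₀ : ℕ) : ℤ) - ((e l : ℕ) : ℤ) : ℤ) := by
      push_cast
      linarith
    have h3 : Irrational (p * ((((l : ℕ) : ℤ) - ((l₀ : ℕ) : ℤ) : ℤ) : ℝ)) :=
      hirr.mul_intCast hne'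
    rw [h2] at h3
    exact (Int.not_irrational _) h3
  have hxn : ∀ n, 0 < ‖x n‖ := fun n => norm_pos_iff.2 (hx0 n)
  have hlim : ∀ l, Tendsto (fun n => ‖b l (x n) * T n ^ (l : ℕ)‖ / ‖x n‖ ^ lam l₀) atTop
      (𝓝 (if l = l₀ then ‖g l₀ 0‖ else 0)) := by
    intro l
    have hev : ∀ᶠ n in atTop, ‖b l (x n) * T n ^ (l : ℕ)‖ / ‖x n‖ ^ lam l₀ =
        ‖g l (x n)‖ * ‖x n‖ ^ (lam l - lam l₀) := by
      filter_upwards [hx.eventually (hgz l)] with n hn
      rw [hn, norm_mul, norm_mul, norm_pow, norm_pow, hT, Real.rpow_sub (hxn n)]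
      have hl1 : ‖x n‖ ^ lam l = ‖x n‖ ^ (e l) * (‖x n‖ ^ p) ^ (l : ℕ) := by
        simp only [hlam]
        rw [Real.rpow_add (hxn n), Real.rpow_mul (hxn n).le, Real.rpow_natCast, Real.rpow_natCast]
      rw [hl1]
      ring
    have hgl : Tendsto (fun n => ‖g l (x n)‖) atTop (𝓝 ‖g l 0‖) :=
      ((hg l).continuousAt.tendsto.comp hx).norm
    by_cases hll : l = l₀
    · subst hll
      rw [if_pos rfl]
      refine Tendsto.congr' (f₁ := fun n => ‖g l (x n)‖) ?_ hgl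
      filter_upwards [hev] with n hn
      rw [hn]; simp
    · rw [if_neg hll]
      by_cases hlA : l ∈ A
      · have hlt : 0 < lam l - lam l₀ := by
          have h1 := hl₀ l hlA
          have h2 := hinj l hll
          have := lt_of_le_of_ne h1 (Ne.symm h2)
          linarith
        have h3 : Tendsto (fun n => ‖x n‖ ^ (lam l - lam l₀)) atTop (𝓝 0) := by
          have h4 : Tendsto (fun n => ‖x n‖) atTop (𝓝 0) := by
            simpa using hx.norm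
          have h5 := h4.rpow_const (p := lam l - lam l₀) (Or.inr hlt.le)
          rwa [Real.zero_rpow hlt.ne'] at h5
        have h6 := hgl.mul h3
        rw [mul_zero] at h6
        refine Tendsto.congr' ?_ h6
        filter_upwards [hev] with n hn
        rw [hn]
      · have h0 : ∀ᶠ z in 𝓝 (0 : ℂ), b l z = 0 := by
          by_contra hcon
          exact hlA (Finset.mem_filter.2 ⟨Finset.mem_univ _, hcon⟩)
        refine Tendsto.congr' (f₁ := fun _ => (0 : ℝ)) ?_ tendsto_const_nhds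
        filter_upwards [hx.eventually h0] with n hn
        rw [hn]; simp
  have hsum : ∀ n, ‖b l₀ (x n) * T n ^ (l₀ : ℕ)‖ / ‖x n‖ ^ lam l₀ ≤
      ∑ l ∈ Finset.univ.erase l₀, ‖b l (x n) * T n ^ (l : ℕ)‖ / ‖x n‖ ^ lam l₀ := by
    intro n
    rw [← Finset.sum_div]
    have h1 := h n
    rw [← Finset.add_sum_erase _ _ (Finset.mem_univ l₀)] at h1
    have h2 : b l₀ (x n) * T n ^ (l₀ : ℕ) =
        - ∑ l ∈ Finset.univ.erase l₀, b l (x n) * T n ^ (l : ℕ) := by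
      exact eq_neg_of_add_eq_zero_left h1
    rw [h2, norm_neg]
    gcongr
    exact norm_sum_le _ _
  have hR : Tendsto (fun n => ∑ l ∈ Finset.univ.erase l₀,
      ‖b l (x n) * T n ^ (l : ℕ)‖ / ‖x n‖ ^ lam l₀) atTop
      (𝓝 (∑ l ∈ Finset.univ.erase l₀, (if l = l₀ then ‖g l₀ 0‖ else 0))) :=
    tendsto_finsetSum _ fun l _ => hlim l
  have hR0 : ∑ l ∈ Finset.univ.erase l₀, (if l = l₀ then ‖g l₀ 0‖ else 0) = 0 := by
    apply Finset.sum_eq_zero
    intro l hl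
    rw [if_neg (Finset.ne_of_mem_erase hl)]
  rw [hR0] at hR
  have hL := hlim l₀
  rw [if_pos rfl] at hL
  have hle := le_of_tendsto_of_tendsto' hL hR hsum
  have hgl0 : g l₀ 0 ≠ 0 := hg0 l₀ (Finset.mem_filter.1 hl₀A).2
  have := norm_pos_iff.2 hgl0
  linarith

theorem irr_poly (p : ℝ) (hp : 0 < p) (hirr : Irrational p) (m : ℕ) (a : Fin m → ℂ → ℂ)
    (ha : ∀ l, AnalyticAt ℂ (a l) 0) (x T : ℕ → ℂ) (hx : Tendsto x atTop (𝓝 0))
    (hx0 : ∀ n, x n ≠ 0) (hT : ∀ n, ‖T n‖ = ‖x n‖ ^ p)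
    (h : ∀ n, T n ^ m + ∑ l, a l (x n) * T n ^ (l : ℕ) = 0) : False := by
  refine irr_aux p hp hirr (m + 1) (Fin.snoc a (fun _ => 1)) ?_ ⟨Fin.last m, ?_⟩ x T hx hx0 hT ?_
  · intro l
    refine Fin.lastCases ?_ (fun i => ?_) l
    · rw [Fin.snoc_last]; exact analyticAt_const
    · rw [Fin.snoc_castSucc]; exact ha i
  · rw [Fin.snoc_last]
    intro hcon
    have := hcon.self_of_nhds
    exact one_ne_zero this
  · intro n
    rw [Fin.sum_univ_castSucc]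
    simp only [Fin.snoc_castSucc, Fin.snoc_last, Fin.val_castSucc, Fin.val_last, one_mul]
    rw [add_comm]
    exact h n

end J4662

export J4662 (irr_poly)

end PFrame
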