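import Pool.Agent.Helper237.PF.Defs
import Pool.Agent.Helper237.PF.Elimcore
import Pool.Agent.Helper237.PF.Elimmany
import Pool.Agent.Helper237.PF.Irrpoly

set_option autoImplicit false

open Metric Set Filter Topology

namespace PFrame

namespace J4663

theorem charpoly_coeff_analytic_aux {m : ℕ} {M : ℂ → Matrix (Fin m) (Fin m) ℂ} {z : ℂ}
    (hM : ∀ i j, AnalyticAt ℂ (fun x => M x i j) z) (l : ℕ) :
    AnalyticAt ℂ (fun x => (M x).charpoly.coeff l) z := by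
  have e : (fun x => (M x).charpoly.coeff l) = fun x =>
      MvPolynomial.aeval (fun ij : Fin m × Fin m => M x ij.1 ij.2)
      ((Matrix.charpoly.univ ℂ (Fin m)).coeff l) := by
    ext x
    have h := Matrix.charpoly.univ_coeff_eval₂Hom (n := Fin m) (f := algebraMap ℂ ℂ)
      (fun ij : Fin m × Fin m => M x ij.1 ij.2) l
    have h2 : Matrix.of (Function.curry (fun ij : Fin m × Fin m => M x ij.1 ij.2)) = M x := by
      ext i j; rfl
    rw [h2] at h
    rw [← h, MvPolynomial.coe_eval₂Hom, MvPolynomial.aeval_def]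
  rw [e]
  generalize (Matrix.charpoly.univ ℂ (Fin m)).coeff l = P
  exact AnalyticAt.aeval_mvPolynomial (f := fun x (ij : Fin m × Fin m) => M x ij.1 ij.2)
    (fun ij => hM ij.1 ij.2) P

theorem charpoly_eig_aux {m : ℕ} (A : Matrix (Fin m) (Fin m) ℂ) (T : ℂ) (w : Fin m → ℂ)
    (hw : w ≠ 0) (h : Matrix.vecMul w A = T • w) :
    T ^ m + ∑ l : Fin m, A.charpoly.coeff l * T ^ (l : ℕ) = 0 := by
  have h1 : A.charpoly.eval T = 0 := by
    rw [Matrix.eval_charpoly]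
    rw [← Matrix.exists_vecMul_eq_zero_iff]
    refine ⟨w, hw, ?_⟩
    rw [Matrix.vecMul_sub, h]
    have : Matrix.vecMul w ((Matrix.scalar (Fin m)) T) = T • w := by
      ext j
      simp [Matrix.vecMul_diagonal, mul_comm]
    rw [this, sub_self]
  rw [Polynomial.eval_eq_sum_range, Matrix.charpoly_natDegree_eq_dim, Fintype.card_fin,
    Finset.sum_range_succ] at h1
  have h2 : A.charpoly.coeff m = 1 := by
    have := Matrix.charpoly_monic A
    have h3 := this.coeff_natDegree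
    rwa [Matrix.charpoly_natDegree_eq_dim, Fintype.card_fin] at h3
  rw [h2, one_mul, Finset.sum_range] at h1
  rw [add_comm]
  exact h1

/-- an irrational power relation cannot hold along a sequence converging to a zero of `G` -/
theorem irr_final {W : Type} [NormedAddCommGroup W] [NormedSpace ℂ W] [FiniteDimensional ℂ W]
    (p : ℝ) (hp : 0 < p) (hirr : Irrational p)
    (ℓ : W →L[ℂ] ℂ) (hℓ : ℓ ≠ 0) {U : Set W} {b : W} (hU : IsOpen U) (hb : b ∈ U)
    (s : ℕ → W) (hs : Tendsto s atTop (𝓝 b)) (hsU : ∀ n, s n ∈ U) (hsb : ∀ n, ℓ (s n) ≠ ℓ b)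
    (hiso : ¬ AccPt b (𝓟 (hull U (range s) ∩ {z | ℓ z = ℓ b})))
    (F : W → ℂ) (hF : ContDiffOn ℂ 1 F U) (hrel : ∀ n, ‖F (s n)‖ = ‖ℓ (s n) - ℓ b‖ ^ p) :
    False := by
  classical
  have hℓs : Tendsto (fun n => ℓ (s n)) atTop (𝓝 (ℓ b)) := (ℓ.continuous.tendsto b).comp hs
  have hFc : ContinuousAt F b := hF.continuousOn.continuousAt (hU.mem_nhds hb)
  have hFs : Tendsto (fun n => F (s n)) atTop (𝓝 (F b)) := hFc.tendsto.comp hs
  have hFb : F b = 0 := by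
    have h2 : Tendsto (fun n => ‖ℓ (s n) - ℓ b‖ ^ p) atTop (𝓝 0) := by
      have h3 : Tendsto (fun n => ‖ℓ (s n) - ℓ b‖) atTop (𝓝 0) := by
        have := (hℓs.sub_const (ℓ b)).norm
        simpa using this
      have h4 := h3.rpow_const (p := p) (Or.inr hp.le)
      simpa [Real.zero_rpow hp.ne'] using h4
    have h5 : Tendsto (fun n => ‖F (s n)‖) atTop (𝓝 ‖F b‖) := hFs.norm
    have h6 : (fun n => ‖F (s n)‖) = fun n => ‖ℓ (s n) - ℓ b‖ ^ p := by ext n; exact hrel n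
    rw [h6] at h5
    have h7 := tendsto_nhds_unique h5 h2
    exact norm_eq_zero.mp h7
  rw [hFb] at hFs
  -- the lifted data
  set π : (W × ℂ) →L[ℂ] (ℂ × ℂ) := ℓ.prodMap (ContinuousLinearMap.id ℂ ℂ) with hπ
  have hπapp : ∀ z : W × ℂ, π z = (ℓ z.1, z.2) := fun z => rfl
  have hπs : Function.Surjective π := by
    rintro ⟨a, c⟩
    obtain ⟨w, hw⟩ : ∃ w, ℓ w ≠ 0 := by
      by_contra hno
      push Not at hno
      exact hℓ (ContinuousLinearMap.ext hno)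
    refine ⟨((a / ℓ w) • w, c), ?_⟩
    rw [hπapp]
    simp only [map_smul, smul_eq_mul]
    rw [div_mul_cancel₀ _ hw]
  set ξ : (ℂ × ℂ) →L[ℂ] ℂ := ContinuousLinearMap.fst ℂ ℂ ℂ with hξ
  set U1 : Set (W × ℂ) := U ×ˢ univ with hU1
  set S1 : Set (W × ℂ) := range (fun n => (s n, F (s n))) with hS1
  have hU1o : IsOpen U1 := hU.prod isOpen_univ
  have hb1 : ((b, 0) : W × ℂ) ∈ U1 := ⟨hb, trivial⟩
  have hS1U : S1 ⊆ U1 := by
    rintro _ ⟨n, rfl⟩; exact ⟨hsU n, trivial⟩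
  have htend : Tendsto (fun n => ((s n, F (s n)) : W × ℂ)) atTop (𝓝 (b, 0)) := by
    rw [nhds_prod_eq]; exact hs.prodMk hFs
  have hacc : AccPt ((b, 0) : W × ℂ) (𝓟 S1) := by
    rw [accPt_iff_frequently]
    apply htend.frequently
    apply Eventually.frequently
    refine Eventually.of_forall fun n => ⟨?_, n, rfl⟩
    intro h
    have : s n = b := congrArg Prod.fst h
    exact hsb n (by rw [this])
  have hhull : ∀ z ∈ hull U1 S1, z.1 ∈ hull U (range s) ∧ z.2 = F z.1 := by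
    rintro z ⟨hzU, hz⟩
    refine ⟨⟨hzU.1, ?_⟩, ?_⟩
    · intro f hf hfs
      refine hz (fun y => f y.1) ?_ ?_
      · exact hf.comp contDiff_fst.contDiffOn (fun y hy => hy.1)
      · rintro _ ⟨n, rfl⟩
        exact hfs _ ⟨n, rfl⟩
    · have := hz (fun y => y.2 - F y.1) ?_ ?_
      · exact sub_eq_zero.mp this
      · exact contDiff_snd.contDiffOn.sub (hF.comp contDiff_fst.contDiffOn (fun y hy => hy.1))
      · rintro _ ⟨n, rfl⟩
        show F (s n) - F (s n) = 0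
        exact sub_self _
  have hev : ∀ᶠ z in 𝓝 ((b, 0) : W × ℂ), z ∈ hull U1 S1 → ξ (π z) = ξ (π (b, 0)) → z = (b, 0) := by
    rw [accPt_iff_frequently, not_frequently] at hiso
    have h1 : ∀ᶠ z in 𝓝 ((b, 0) : W × ℂ), ¬ (z.1 ≠ b ∧ z.1 ∈ hull U (range s) ∩ {z | ℓ z = ℓ b}) :=
      (continuous_fst.tendsto ((b, 0) : W × ℂ)).eventually hiso
    filter_upwards [h1] with z hz hzh hze
    obtain ⟨h2, h3⟩ := hhull z hzh
    have h4 : z.1 = b := by
      by_contra hne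
      exact hz ⟨hne, h2, hze⟩
    refine Prod.ext h4 ?_
    rw [h3, h4, hFb]
  obtain ⟨U', V', hV', hU'o, hbU', hV'V, hπV', hlift⟩ :=
    elim_many _ π hπs rfl ξ U1 S1 (b, 0) hU1o hb1 hS1U hacc hev _ hev
  -- points over `ℓ b` in the hull
  have hzero : ∀ y : ℂ, (ℓ b, y) ∈ hull U' (π '' (S1 ∩ V')) → y = 0 := by
    intro y hy
    obtain ⟨z, ⟨hz1, hz2⟩, hz3⟩ := hlift _ hy
    have h1 : z = (b, 0) := hz2 hz1 (by rw [hz3]; rfl)
    rw [h1] at hz3
    exact (congrArg Prod.snd hz3).symm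
  have hbU'' : ((ℓ b, 0) : ℂ × ℂ) ∈ U' := hbU'
  obtain ⟨ε, hε, hεU⟩ := Metric.isOpen_iff.mp hU'o _ hbU''
  have hslice : ∀ y ∈ ball (0 : ℂ) ε, ((ℓ b, y) : ℂ × ℂ) ∈ U' := by
    intro y hy
    apply hεU
    rw [mem_ball, Prod.dist_eq]
    simp only [dist_self]
    rw [mem_ball] at hy
    exact max_lt hε hy
  set y0 : ℂ := ((ε / 2 : ℝ) : ℂ) with hy0
  have hy0ne : y0 ≠ 0 := by
    rw [hy0]
    exact_mod_cast (by positivity : (ε / 2 : ℝ) ≠ 0)
  have hy0b : y0 ∈ ball (0 : ℂ) ε := by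
    rw [mem_ball_zero_iff, hy0, Complex.norm_real, Real.norm_of_nonneg (by positivity)]
    linarith
  have hnot : (ℓ b, y0) ∉ hull U' (π '' (S1 ∩ V')) := fun h => hy0ne (hzero y0 h)
  have hex : ∃ f₁ : ℂ × ℂ → ℂ, ContDiffOn ℂ 1 f₁ U' ∧ (∀ s ∈ π '' (S1 ∩ V'), f₁ s = 0) ∧
      f₁ (ℓ b, y0) ≠ 0 := by
    by_contra hno
    push Not at hno
    exact hnot ⟨hslice y0 hy0b, fun f hf hfs => hno f hf hfs⟩
  obtain ⟨f₁, hf₁, hf₁s, hf₁y⟩ := hex
  have hreg : ¬ ∀ᶠ y in 𝓝 ((ℓ b, (0 : ℂ)) : ℂ × ℂ).2, f₁ (((ℓ b, (0 : ℂ)) : ℂ × ℂ).1, y) = 0 := by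
    intro hcon
    have hdiff : DifferentiableOn ℂ (fun y => f₁ (ℓ b, y)) (ball (0 : ℂ) ε) := by
      have h1 : DifferentiableOn ℂ f₁ U' := hf₁.differentiableOn (by norm_num)
      exact h1.comp ((differentiable_const _).prodMk differentiable_id).differentiableOn hslice
    have han : AnalyticOnNhd ℂ (fun y => f₁ (ℓ b, y)) (ball (0 : ℂ) ε) :=
      hdiff.analyticOnNhd isOpen_ball
    have := han.eqOn_zero_of_preconnected_of_eventuallyEq_zero
      (convex_ball (0 : ℂ) ε).isPreconnected (mem_ball_self hε) hcon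
    exact hf₁y (this hy0b)
  have hsV' : ∀ᶠ n in atTop, ((s n, F (s n)) : W × ℂ) ∈ V' := htend.eventually hV'
  have hf₁s' : ∀ᶠ n in atTop, f₁ (ℓ (s n), F (s n)) = 0 := by
    filter_upwards [hsV'] with n hn
    exact hf₁s _ ⟨(s n, F (s n)), ⟨⟨n, rfl⟩, hn⟩, rfl⟩
  have hptend : Tendsto (fun n => ((ℓ (s n), F (s n)) : ℂ × ℂ)) atTop (𝓝 (ℓ b, 0)) := by
    rw [nhds_prod_eq]; exact hℓs.prodMk hFs
  have hf₁0 : f₁ (ℓ b, 0) = 0 := by
    have hc : ContinuousAt f₁ (ℓ b, 0) := hf₁.continuousOn.continuousAt (hU'o.mem_nhds hbU'')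
    have h1 : Tendsto (fun n => f₁ (ℓ (s n), F (s n))) atTop (𝓝 (f₁ (ℓ b, 0))) :=
      hc.tendsto.comp hptend
    have h2 : Tendsto (fun n => f₁ (ℓ (s n), F (s n))) atTop (𝓝 0) :=
      (tendsto_congr' hf₁s').mpr tendsto_const_nhds
    exact tendsto_nhds_unique h1 h2
  obtain ⟨U2, δ, m, M, hU2o, hbU2, hδ, hU2sub, hMd, heig, -⟩ :=
    elim_core (X := ℂ) hU'o hbU'' hf₁ hf₁0 hreg (V := univ) univ_mem
  have hsnd : ContDiffOn ℂ 1 (Prod.snd : ℂ × ℂ → ℂ) U' := contDiff_snd.contDiffOn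
  have hevn : ∀ᶠ n in atTop, ℓ (s n) ∈ U2 ∧ F (s n) ∈ closedBall (0 : ℂ) δ ∧
      f₁ (ℓ (s n), F (s n)) = 0 := by
    have h1 : ∀ᶠ n in atTop, ℓ (s n) ∈ U2 := hℓs.eventually (hU2o.mem_nhds hbU2)
    have h2 : ∀ᶠ n in atTop, F (s n) ∈ closedBall (0 : ℂ) δ :=
      hFs.eventually (closedBall_mem_nhds 0 hδ)
    filter_upwards [h1, h2, hf₁s'] with n k1 k2 k3 using ⟨k1, k2, k3⟩
  obtain ⟨N, hN⟩ := eventually_atTop.mp hevn
  have hshift : Tendsto (fun n : ℕ => n + N) atTop atTop := tendsto_add_atTop_nat N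
  refine irr_poly p hp hirr m (fun l x => (M Prod.snd (ℓ b + x)).charpoly.coeff l) ?_
    (fun n => ℓ (s (n + N)) - ℓ b) (fun n => F (s (n + N))) ?_ ?_ ?_ ?_
  · intro l
    have hent : ∀ i j, AnalyticAt ℂ (fun x => M Prod.snd x i j) (ℓ b) := by
      intro i j
      have h1 : DifferentiableOn ℂ (fun x => M Prod.snd x i j) U2 :=
        (hMd _ hsnd i j).differentiableOn (by norm_num)
      exact h1.analyticAt (hU2o.mem_nhds hbU2)
    have hent' : ∀ i j, AnalyticAt ℂ (fun x => M Prod.snd (ℓ b + x) i j) 0 := by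
      intro i j
      have h1 : AnalyticAt ℂ (fun x => M Prod.snd x i j) (ℓ b + 0) := by rw [add_zero]; exact hent i j
      exact h1.comp (f := fun x : ℂ => ℓ b + x) (analyticAt_const.add analyticAt_id)
    exact charpoly_coeff_analytic_aux (M := fun x => M Prod.snd (ℓ b + x)) hent' l
  · have := (hℓs.comp hshift).sub_const (ℓ b)
    simpa using this
  · intro n
    exact sub_ne_zero.mpr (hsb _)
  · intro n
    exact hrel _
  · intro n
    obtain ⟨k1, k2, k3⟩ := hN (n + N) (Nat.le_add_left _ _)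
    obtain ⟨w, hw, hw2⟩ := heig _ k1 _ k2 k3
    have h1 := hw2 Prod.snd hsnd
    have h2 := charpoly_eig_aux _ _ w hw h1
    have e : ℓ b + (ℓ (s (n + N)) - ℓ b) = ℓ (s (n + N)) := by ring
    simp only [e]
    exact h2

end J4663

export J4663 (irr_final)

end PFrame
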