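import Pool.Agent.Helper237.PF.Defs
import Pool.Agent.Helper237.PF.Elimcore
import Pool.Agent.Helper237.PF.Elim2
import Pool.Agent.Helper237.PF.Irrfinal

set_option autoImplicit false

open Metric Set Filter Topology

namespace PFrame

/-- integral dependence over a projection with isolated fibre -/
theorem integral_dep {W : Type} [NormedAddCommGroup W] [NormedSpace ℂ W] [FiniteDimensional ℂ W]
    (ℓ : W →L[ℂ] ℂ) (hℓ : ℓ ≠ 0) {U Z : Set W} {b : W} (hU : IsOpen U) (hb : b ∈ U)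
    (hZ : Z ⊆ U) (hZh : hull U Z ⊆ Z) (hacc : AccPt b (𝓟 Z))
    (hiso : ¬ AccPt b (𝓟 (Z ∩ {z | ℓ z = ℓ b})))
    (F : W → ℂ) (hF : ContDiffOn ℂ 1 F U) :
    ∃ (m : ℕ) (a : Fin m → ℂ → ℂ), (∀ l, AnalyticAt ℂ (a l) (ℓ b)) ∧
      ∀ᶠ z in 𝓝 b, z ∈ Z → F z ^ m + ∑ l, a l (ℓ z) * F z ^ (l : ℕ) = 0 := by
  classical
  have hFc : ContinuousAt F b := hF.continuousOn.continuousAt (hU.mem_nhds hb)
  -- the lifted data
  set π : (W × ℂ) →L[ℂ] (ℂ × ℂ) := ℓ.prodMap (ContinuousLinearMap.id ℂ ℂ) with hπ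
  have hπapp : ∀ z : W × ℂ, π z = (ℓ z.1, z.2) := fun z => rfl
  have hπs : Function.Surjective π := by
    rintro ⟨a, c⟩
    obtain ⟨w, hw⟩ : ∃ w, ℓ w ≠ 0 := by
      by_contra hno
      push Not at hno
      exact hℓ (ContinuousLinearMap.ext hno)
    refine ⟨((a / ℓ w) • w, c), ?_⟩
    rw [hπapp]
    simp only [map_smul, smul_eq_mul]
    rw [div_mul_cancel₀ _ hw]
  set U1 : Set (W × ℂ) := U ×ˢ univ with hU1
  set S1 : Set (W × ℂ) := (fun z => (z, F z)) '' Z with hS1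
  have hU1o : IsOpen U1 := hU.prod isOpen_univ
  have hb1 : ((b, F b) : W × ℂ) ∈ U1 := ⟨hb, trivial⟩
  have hS1U : S1 ⊆ U1 := by
    rintro _ ⟨z, hz, rfl⟩; exact ⟨hZ hz, trivial⟩
  have hacc1 : AccPt ((b, F b) : W × ℂ) (𝓟 S1) := by
    rw [accPt_iff_frequently] at hacc ⊢
    have hc : Tendsto (fun z => ((z, F z) : W × ℂ)) (𝓝 b) (𝓝 (b, F b)) := by
      rw [nhds_prod_eq]; exact tendsto_id.prodMk hFc
    refine hc.frequently (hacc.mono fun z hz => ⟨?_, z, hz.2, rfl⟩)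
    intro h
    exact hz.1 (congrArg Prod.fst h)
  have hhull : ∀ z ∈ hull U1 S1, z.1 ∈ Z ∧ z.2 = F z.1 := by
    rintro z ⟨hzU, hz⟩
    refine ⟨hZh ⟨hzU.1, ?_⟩, ?_⟩
    · intro f hf hfs
      refine hz (fun y => f y.1) ?_ ?_
      · exact hf.comp contDiff_fst.contDiffOn (fun y hy => hy.1)
      · rintro _ ⟨y, hy, rfl⟩
        exact hfs _ hy
    · have := hz (fun y => y.2 - F y.1) ?_ ?_
      · exact sub_eq_zero.mp this
      · exact contDiff_snd.contDiffOn.sub (hF.comp contDiff_fst.contDiffOn (fun y hy => hy.1))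
      · rintro _ ⟨y, hy, rfl⟩
        exact sub_self _
  have hev : ∀ᶠ z in 𝓝 ((b, F b) : W × ℂ), z ∈ hull U1 S1 → (π z).1 = ℓ b → z = (b, F b) := by
    rw [accPt_iff_frequently, not_frequently] at hiso
    have h1 : ∀ᶠ z in 𝓝 ((b, F b) : W × ℂ), ¬ (z.1 ≠ b ∧ z.1 ∈ Z ∩ {z | ℓ z = ℓ b}) :=
      (continuous_fst.tendsto ((b, F b) : W × ℂ)).eventually hiso
    filter_upwards [h1] with z hz hzh hze
    obtain ⟨h2, h3⟩ := hhull z hzh
    have h4 : z.1 = b := by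
      by_contra hne
      exact hz ⟨hne, h2, hze⟩
    refine Prod.ext h4 ?_
    rw [h3, h4]
  have hev' : ∀ᶠ z in 𝓝 ((b, F b) : W × ℂ), z ∈ hull U1 S1 → π z = π (b, F b) → z = (b, F b) := by
    filter_upwards [hev] with z hz h1 h2
    exact hz h1 (congrArg Prod.fst h2)
  obtain ⟨U', V', hV', hU'o, hbU', hV'V, hπV', hlift⟩ :=
    elim_many' _ π hπs rfl U1 S1 (b, F b) hU1o hb1 hS1U hacc1 hev' _ hev
  -- points over `ℓ b` in the hull
  have hzero : ∀ y : ℂ, (ℓ b, y) ∈ hull U' (π '' (S1 ∩ V')) → y = F b := by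
    intro y hy
    obtain ⟨z, ⟨hz1, hz2⟩, hz3⟩ := hlift _ hy
    have h1 : z = (b, F b) := hz2 hz1 (by rw [hz3])
    rw [h1] at hz3
    exact (congrArg Prod.snd hz3).symm
  have hbU'' : ((ℓ b, F b) : ℂ × ℂ) ∈ U' := hbU'
  obtain ⟨ε, hε, hεU⟩ := Metric.isOpen_iff.mp hU'o _ hbU''
  have hslice : ∀ y ∈ ball (F b) ε, ((ℓ b, y) : ℂ × ℂ) ∈ U' := by
    intro y hy
    apply hεU
    rw [mem_ball, Prod.dist_eq]
    simp only [dist_self]
    rw [mem_ball] at hy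
    exact max_lt hε hy
  set y0 : ℂ := F b + ((ε / 2 : ℝ) : ℂ) with hy0
  have hy0ne : y0 ≠ F b := by
    rw [hy0]
    intro h
    have h2 : ((ε / 2 : ℝ) : ℂ) = 0 := by
      have := congrArg (fun z => z - F b) h
      simpa using this
    have h3 : (ε / 2 : ℝ) = 0 := by exact_mod_cast h2
    linarith
  have hy0b : y0 ∈ ball (F b) ε := by
    rw [mem_ball, hy0, dist_eq_norm, add_sub_cancel_left, Complex.norm_real,
      Real.norm_of_nonneg (by positivity)]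
    linarith
  have hnot : (ℓ b, y0) ∉ hull U' (π '' (S1 ∩ V')) := fun h => hy0ne (hzero y0 h)
  have hex : ∃ f₁ : ℂ × ℂ → ℂ, ContDiffOn ℂ 1 f₁ U' ∧ (∀ s ∈ π '' (S1 ∩ V'), f₁ s = 0) ∧
      f₁ (ℓ b, y0) ≠ 0 := by
    by_contra hno
    push Not at hno
    exact hnot ⟨hslice y0 hy0b, fun f hf hfs => hno f hf hfs⟩
  obtain ⟨f₁, hf₁, hf₁s, hf₁y⟩ := hex
  have hreg : ¬ ∀ᶠ y in 𝓝 ((ℓ b, F b) : ℂ × ℂ).2, f₁ (((ℓ b, F b) : ℂ × ℂ).1, y) = 0 := by
    intro hcon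
    have hdiff : DifferentiableOn ℂ (fun y => f₁ (ℓ b, y)) (ball (F b) ε) := by
      have h1 : DifferentiableOn ℂ f₁ U' := hf₁.differentiableOn (by norm_num)
      exact h1.comp ((differentiable_const _).prodMk differentiable_id).differentiableOn hslice
    have han : AnalyticOnNhd ℂ (fun y => f₁ (ℓ b, y)) (ball (F b) ε) :=
      hdiff.analyticOnNhd isOpen_ball
    have := han.eqOn_zero_of_preconnected_of_eventuallyEq_zero
      (convex_ball (F b) ε).isPreconnected (mem_ball_self hε) hcon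
    exact hf₁y (this hy0b)
  have hc : Tendsto (fun z => ((z, F z) : W × ℂ)) (𝓝 b) (𝓝 (b, F b)) := by
    rw [nhds_prod_eq]; exact tendsto_id.prodMk hFc
  have hf₁s' : ∀ᶠ z in 𝓝 b, z ∈ Z → f₁ (ℓ z, F z) = 0 := by
    filter_upwards [hc.eventually hV'] with z hz hzZ
    exact hf₁s _ ⟨(z, F z), ⟨⟨z, hzZ, rfl⟩, hz⟩, rfl⟩
  have hf₁0 : f₁ (ℓ b, F b) = 0 := by
    have hcont : ContinuousAt f₁ (ℓ b, F b) :=
      hf₁.continuousOn.continuousAt (hU'o.mem_nhds hbU'')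
    have hpt : Tendsto (fun z => ((ℓ z, F z) : ℂ × ℂ)) (𝓝 b) (𝓝 (ℓ b, F b)) := by
      rw [nhds_prod_eq]; exact (ℓ.continuous.tendsto b).prodMk hFc
    by_contra hne
    have h1 : ∀ᶠ z in 𝓝 b, f₁ (ℓ z, F z) ≠ 0 :=
      (hcont.tendsto.comp hpt).eventually (isOpen_ne.mem_nhds hne)
    rw [accPt_iff_frequently] at hacc
    obtain ⟨z, ⟨-, hzZ⟩, hz1, hz2⟩ := (hacc.and_eventually (h1.and hf₁s')).exists
    exact hz1 (hz2 hzZ)
  obtain ⟨U2, δ, m, M, hU2o, hbU2, hδ, hU2sub, hMd, heig, -⟩ :=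
    elim_core (X := ℂ) hU'o hbU'' hf₁ hf₁0 hreg (V := univ) univ_mem
  have hsnd : ContDiffOn ℂ 1 (Prod.snd : ℂ × ℂ → ℂ) U' := contDiff_snd.contDiffOn
  refine ⟨m, fun l x => (M Prod.snd x).charpoly.coeff l, ?_, ?_⟩
  · intro l
    have hent : ∀ i j, AnalyticAt ℂ (fun x => M Prod.snd x i j) (ℓ b) := by
      intro i j
      have h1 : DifferentiableOn ℂ (fun x => M Prod.snd x i j) U2 :=
        (hMd _ hsnd i j).differentiableOn (by norm_num)
      exact h1.analyticAt (hU2o.mem_nhds hbU2)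
    exact J4663.charpoly_coeff_analytic_aux (M := fun x => M Prod.snd x) hent l
  · have h1 : ∀ᶠ z in 𝓝 b, ℓ z ∈ U2 :=
      (ℓ.continuous.tendsto b).eventually (hU2o.mem_nhds hbU2)
    have h2 : ∀ᶠ z in 𝓝 b, F z ∈ closedBall (F b) δ :=
      hFc.eventually (closedBall_mem_nhds _ hδ)
    filter_upwards [h1, h2, hf₁s'] with z k1 k2 k3 hzZ
    obtain ⟨w, hw, hw2⟩ := heig _ k1 _ k2 (k3 hzZ)
    exact J4663.charpoly_eig_aux _ _ w hw (hw2 Prod.snd hsnd)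

end PFrame
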