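import Pool.Agent.Helper237.PF.Defs
import Pool.Agent.Helper237.PF.Farthest
import Pool.Agent.Helper237.PF.HullHH
import Pool.Agent.Helper237.PF.Hyper
import Pool.Agent.Helper237.PF.Quad

set_option autoImplicit false

open Metric Set Filter Topology

namespace PFrame

namespace J4794

section kernel

variable {W : Type} [NormedAddCommGroup W] [InnerProductSpace ℂ W]

variable {E : Type} [NormedAddCommGroup E] [InnerProductSpace ℂ E]

end kernel

section generalW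

variable {W : Type} [NormedAddCommGroup W] [InnerProductSpace ℂ W]
  {E : Type} [NormedAddCommGroup E] [InnerProductSpace ℂ E]
  {p : ℝ} {v : W → E} {J : E →L[ℂ] E}

end generalW

section main

variable {p : ℝ} {d : ℕ} {E : Type} [NormedAddCommGroup E] [InnerProductSpace ℂ E]
  [CompleteSpace E] {v : EuclideanSpace ℂ (Fin (d + 1)) → E} {J : E →L[ℂ] E}

omit [CompleteSpace E] in
theorem bound_MM {c : EuclideanSpace ℂ (Fin (d + 1))} {S : Set (EuclideanSpace ℂ (Fin (d + 1)))}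
    {f : E →L[ℂ] ℂ} (hG : Good p v J c S f) :
    ∀ x ∈ MM v S, ‖f x‖ ^ 2 ≤ (1 + ‖c‖ ^ 2) ^ p * (inner ℂ x (J x)).re := by
  intro x hx
  have hcl : IsClosed {x : E | ‖f x‖ ^ 2 ≤ (1 + ‖c‖ ^ 2) ^ p * (inner ℂ x (J x)).re} := by
    refine isClosed_le (by fun_prop) ?_
    exact continuous_const.mul (Complex.continuous_re.comp (continuous_id.inner J.continuous))
  have h1 : (MM v S : Set E) ⊆ {x : E | ‖f x‖ ^ 2 ≤ (1 + ‖c‖ ^ 2) ^ p * (inner ℂ x (J x)).re} := by
    rw [MM, Submodule.topologicalClosure_coe]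
    exact closure_minimal (fun y hy => hG.bound y hy) hcl
  exact h1 hx

theorem step_one (hno : NoPD p d) (hΦ : IsFeat p v J)
    {c : EuclideanSpace ℂ (Fin (d + 1))} {S : Set (EuclideanSpace ℂ (Fin (d + 1)))}
    {f : E →L[ℂ] ℂ} (hG : Good p v J c S f) {R ρ : ℝ} (hR : ‖c‖ ≤ R) (hρ : 0 < ρ)
    (hρ1 : ρ ≤ 1) (hRρ : R * ρ ≤ 1 / 2) {r : ℝ} (hr : 0 < r) (hrρ : r < ρ) :
    ∃ z : EuclideanSpace ℂ (Fin (d + 1)), ‖z‖ = r ∧ v z ∈ MM v S ∧
      f (v z) = (1 + inner ℂ c z) ^ (p : ℂ) := by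
  have hsub1 : ball (0 : EuclideanSpace ℂ (Fin (d + 1))) ρ ⊆ ball 0 1 := ball_subset_ball hρ1
  have hT : ball 0 ρ ∩ S ⊆ HH v S := by
    rintro s ⟨hs1, hs2⟩
    exact ⟨hsub1 hs1, Submodule.le_topologicalClosure _ (Submodule.subset_span ⟨s, hs2, rfl⟩)⟩
  have hH := hull_subset_HH hΦ hsub1 hT
  have hPD : PD p (HH v S) := PD_HH hΦ hG.sub (good_PD hΦ hG)
  have hHb : HH v S ⊆ ball 0 1 := fun u hu => hu.1
  obtain ⟨z, hz, hzr⟩ := farthest (0 : EuclideanSpace ℂ (Fin (d + 1))) ρ (ball 0 ρ ∩ S)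
    inter_subset_left (hG.acc.nhds_inter (ball_mem_nhds _ hρ)) (by
      intro b hb ℓ hℓ hacc
      refine hyper hno hHb hPD (hsub1 hb) ℓ hℓ (hacc.mono ?_)
      exact principal_mono.2 (inter_subset_inter_left _ hH)) r hr hrρ
  refine ⟨z, by simpa using hzr, (hH hz).2, ?_⟩
  have hsmall : ∀ z ∈ ball (0 : EuclideanSpace ℂ (Fin (d + 1))) ρ, ‖inner ℂ c z‖ < 1 := by
    intro z hz
    have h0 : ‖z‖ < ρ := by simpa using hz
    have h1 := norm_inner_le_norm (𝕜 := ℂ) c z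
    have h2 : ‖c‖ * ‖z‖ ≤ R * ρ := mul_le_mul hR h0.le (norm_nonneg _) ((norm_nonneg _).trans hR)
    linarith
  have h := hz.2 (fun z => f (v z) - (1 + inner ℂ c z) ^ (p : ℂ)) ?_ ?_
  · exact sub_eq_zero.1 h
  · refine ContDiffOn.sub (f.contDiff.comp_contDiffOn (hΦ.smooth.mono hsub1)) ?_
    have h3 : ContDiffOn ℂ 1 (fun w : ℂ => (1 + w) ^ (p : ℂ)) (ball 0 1) := by
      refine DifferentiableOn.contDiffOn ?_ isOpen_ball
      intro w hw
      refine DifferentiableAt.differentiableWithinAt ?_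
      refine (differentiableAt_id.const_add 1).cpow_const ?_
      exact Complex.mem_slitPlane_of_norm_lt_one (by simpa using hw)
    have h4 : ContDiffOn ℂ 1 (fun z : EuclideanSpace ℂ (Fin (d + 1)) => inner ℂ c z)
        (ball 0 ρ) := ((innerSL ℂ c).contDiff).contDiffOn
    exact h3.comp h4 (fun z hz => by simpa using hsmall z hz)
  · rintro s ⟨hs1, hs2⟩
    exact sub_eq_zero.2 (hG.rel s hs2).2

/-- limits of good data -/
theorem good_limit (hp : 0 < p) (hno : NoPD p d) (hΦ : IsFeat p v J)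
    (c : ℕ → EuclideanSpace ℂ (Fin (d + 1))) (S : ℕ → Set (EuclideanSpace ℂ (Fin (d + 1))))
    (f : ℕ → (E →L[ℂ] ℂ)) (hG : ∀ n, Good p v J (c n) (S n) (f n)) (M : ℝ)
    (hM : Tendsto (fun n => ‖c n‖) atTop (𝓝 M)) :
    ∃ c' S' f', Good p v J c' S' f' ∧ ‖c'‖ = M := by
  obtain ⟨R, hR⟩ := hM.bddAbove_range
  have hcR : ∀ n, ‖c n‖ ≤ R := fun n => hR ⟨n, rfl⟩
  have hR0 : 0 ≤ R := (norm_nonneg _).trans (hcR 0)
  set ρ : ℝ := 1 / (2 * (1 + R)) with hρdef
  have hρ : 0 < ρ := by positivity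
  have hρ1 : ρ ≤ 1 / 2 := by
    rw [hρdef, div_le_div_iff₀ (by positivity) (by norm_num)]; nlinarith
  have hRρ : R * ρ ≤ 1 / 2 := by
    rw [hρdef, mul_one_div, div_le_div_iff₀ (by positivity) (by norm_num)]; nlinarith
  set r : ℕ → ℝ := fun l => ρ / ((l : ℝ) + 2) with hrdef
  have hr0 : ∀ l, 0 < r l := fun l => by positivity
  have hrρ : ∀ l, r l < ρ := by
    intro l
    simp only [hrdef]
    rw [div_lt_iff₀ (by positivity)]
    have : (0:ℝ) ≤ l := Nat.cast_nonneg l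
    nlinarith
  have hst := fun n l => step_one hno hΦ (hG n) (hcR n) hρ (hρ1.trans (by norm_num)) hRρ
    (hr0 l) (hrρ l)
  choose z hz1 hz2 hz3 using hst
  set U : Ultrafilter ℕ := Filter.hyperfilter ℕ with hU
  have hUle : (U : Filter ℕ) ≤ atTop := Nat.hyperfilter_le_atTop
  -- compactness
  have hcpt : ∀ {X : Type} [PseudoMetricSpace X] [ProperSpace X] (x0 : X) (u : ℕ → X) (B : ℝ),
      (∀ n, dist (u n) x0 ≤ B) → ∃ x, Tendsto u U (𝓝 x) := by
    intro X _ _ x0 u B hb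
    obtain ⟨x, -, hx⟩ := (isCompact_closedBall x0 B).ultrafilter_le_nhds (U.map u) (by
      rw [le_principal_iff]
      change u ⁻¹' (closedBall x0 B) ∈ (U : Filter ℕ)
      exact Filter.univ_mem' (fun n => mem_closedBall.2 (hb n)))
    exact ⟨x, hx⟩
  obtain ⟨c', hc'⟩ := hcpt 0 c R (fun n => by simpa using hcR n)
  have hzl : ∀ l, ∃ x, Tendsto (fun n => z n l) U (𝓝 x) := fun l =>
    hcpt 0 (fun n => z n l) (r l) (fun n => by simpa using (hz1 n l).le)
  choose z' hz' using hzl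
  have hnc' : ‖c'‖ = M := tendsto_nhds_unique hc'.norm (hM.mono_left hUle)
  have hM0 : 0 ≤ M := hnc' ▸ norm_nonneg _
  have hnz' : ∀ l, ‖z' l‖ = r l := fun l => tendsto_nhds_unique (hz' l).norm
    (tendsto_const_nhds.congr fun n => (hz1 n l).symm)
  -- norms of functionals
  set K : ℕ → ℝ := fun n => Real.sqrt (‖J‖ * (1 + ‖c n‖ ^ 2) ^ p) with hKdef
  have hfK : ∀ n, ‖f n‖ ≤ K n := fun n => Real.le_sqrt_of_sq_le (hG n).nrm
  have hKt : Tendsto K U (𝓝 (Real.sqrt (‖J‖ * (1 + ‖c'‖ ^ 2) ^ p))) := by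
    refine (Real.continuous_sqrt.tendsto _).comp ?_
    refine Tendsto.const_mul _ ?_
    refine Tendsto.rpow_const ?_ (Or.inr hp.le)
    exact tendsto_const_nhds.add (hc'.norm.pow 2)
  set C : ℝ := Real.sqrt (‖J‖ * (1 + R ^ 2) ^ p) with hCdef
  have hKC : ∀ n, K n ≤ C := by
    intro n
    apply Real.sqrt_le_sqrt
    apply mul_le_mul_of_nonneg_left _ (norm_nonneg _)
    apply Real.rpow_le_rpow (by positivity) _ hp.le
    have := hcR n
    have := norm_nonneg (c n)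
    nlinarith
  have hfC : ∀ n, ‖f n‖ ≤ C := fun n => (hfK n).trans (hKC n)
  have hfx : ∀ x : E, ∃ y, Tendsto (fun n => f n x) U (𝓝 y) := fun x =>
    hcpt 0 (fun n => f n x) (C * ‖x‖) (fun n => by
      rw [dist_zero_right]
      exact (f n).le_of_opNorm_le (hfC n) x)
  choose g hg using hfx
  have hgadd : ∀ x y, g (x + y) = g x + g y := fun x y =>
    tendsto_nhds_unique (hg (x + y)) (((hg x).add (hg y)).congr fun n => ((f n).map_add x y).symm)
  have hgsmul : ∀ (a : ℂ) x, g (a • x) = a • g x := fun a x =>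
    tendsto_nhds_unique (hg (a • x)) (((hg x).const_smul a).congr fun n =>
      ((f n).map_smul a x).symm)
  have hgb : ∀ x, ‖g x‖ ≤ Real.sqrt (‖J‖ * (1 + ‖c'‖ ^ 2) ^ p) * ‖x‖ := fun x =>
    le_of_tendsto_of_tendsto (hg x).norm (hKt.mul_const ‖x‖)
      (Eventually.of_forall fun n => (f n).le_of_opNorm_le (hfK n) x)
  let f' : E →L[ℂ] ℂ := LinearMap.mkContinuous
    { toFun := g, map_add' := hgadd, map_smul' := hgsmul } _ hgb
  have hf' : ∀ x, f' x = g x := fun x => rfl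
  -- joint convergence
  have hjoint : ∀ (y : ℕ → E) (x : E), Tendsto y U (𝓝 x) →
      Tendsto (fun n => f n (y n)) U (𝓝 (f' x)) := by
    intro y x hy
    have h1 : Tendsto (fun n => f n (y n - x)) U (𝓝 0) := by
      have h2 : Tendsto (fun n => C * ‖y n - x‖) U (𝓝 0) := by
        have := (tendsto_iff_norm_sub_tendsto_zero.1 hy).const_mul C
        simpa using this
      refine squeeze_zero_norm (fun n => (f n).le_of_opNorm_le (hfC n) _) h2
    have h3 := h1.add (hg x)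
    rw [zero_add] at h3
    exact h3.congr fun n => by rw [map_sub]; ring
  have hvz : ∀ l, Tendsto (fun n => v (z n l)) U (𝓝 (v (z' l))) := by
    intro l
    have hin : z' l ∈ ball (0 : EuclideanSpace ℂ (Fin (d + 1))) 1 := by
      rw [mem_ball_zero_iff, hnz' l]
      linarith [hrρ l]
    exact ((hΦ.smooth.continuousOn.continuousAt (isOpen_ball.mem_nhds hin)).tendsto).comp (hz' l)
  have hsm : ∀ l, ‖inner ℂ c' (z' l)‖ ≤ 1 / 2 := by
    intro l
    have h1 := norm_inner_le_norm (𝕜 := ℂ) c' (z' l)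
    have h2 : ‖c'‖ ≤ R := by
      refine le_of_tendsto hc'.norm (Eventually.of_forall hcR)
    have h3 : ‖c'‖ * ‖z' l‖ ≤ R * ρ := by
      rw [hnz' l]
      exact mul_le_mul h2 (hrρ l).le (hr0 l).le hR0
    linarith
  refine ⟨c', range z', f', ⟨?_, ?_, ?_, ?_, ?_⟩, hnc'⟩
  · rintro _ ⟨l, rfl⟩
    rw [mem_ball_zero_iff, hnz' l]
    linarith [hrρ l]
  · rw [accPt_iff_nhds]
    intro V hV
    obtain ⟨ε, hε, hεV⟩ := Metric.mem_nhds_iff.1 hV
    have hrt : Tendsto r atTop (𝓝 0) := by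
      have h1 : Tendsto (fun l : ℕ => (l : ℝ) + 2) atTop atTop :=
        tendsto_atTop_add_const_right _ _ tendsto_natCast_atTop_atTop
      exact h1.const_div_atTop ρ
    obtain ⟨l, hl⟩ := ((tendsto_order.1 hrt).2 ε hε).exists
    refine ⟨z' l, ⟨hεV ?_, ⟨l, rfl⟩⟩, ?_⟩
    · rw [mem_ball_zero_iff, hnz' l]; exact hl
    · intro h0
      have := hnz' l
      rw [h0, norm_zero] at this
      exact absurd this (hr0 l).ne
  · intro x hx
    have happ : ∃ y : ℕ → E, (∀ n, y n ∈ MM v (S n)) ∧ Tendsto y U (𝓝 x) := by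
      induction hx using Submodule.span_induction with
      | mem x hx =>
        obtain ⟨_, ⟨l, rfl⟩, rfl⟩ := hx
        exact ⟨fun n => v (z n l), fun n => hz2 n l, hvz l⟩
      | zero => exact ⟨fun _ => 0, fun n => zero_mem _, tendsto_const_nhds⟩
      | add x y _ _ hx hy =>
        obtain ⟨a, ha1, ha2⟩ := hx
        obtain ⟨b, hb1, hb2⟩ := hy
        exact ⟨fun n => a n + b n, fun n => add_mem (ha1 n) (hb1 n), ha2.add hb2⟩
      | smul a x _ hx =>
        obtain ⟨b, hb1, hb2⟩ := hx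
        exact ⟨fun n => a • b n, fun n => Submodule.smul_mem _ _ (hb1 n), hb2.const_smul a⟩
    obtain ⟨y, hy1, hy2⟩ := happ
    have hA : Tendsto (fun n => ‖f n (y n)‖ ^ 2) U (𝓝 (‖f' x‖ ^ 2)) :=
      (hjoint y x hy2).norm.pow 2
    have hB : Tendsto (fun n => (1 + ‖c n‖ ^ 2) ^ p * (inner ℂ (y n) (J (y n))).re) U
        (𝓝 ((1 + ‖c'‖ ^ 2) ^ p * (inner ℂ x (J x)).re)) := by
      refine Tendsto.mul ?_ ?_
      · exact Tendsto.rpow_const (tendsto_const_nhds.add (hc'.norm.pow 2)) (Or.inr hp.le)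
      · exact (Complex.continuous_re.tendsto _).comp
          (hy2.inner ((J.continuous.tendsto _).comp hy2))
    exact le_of_tendsto_of_tendsto hA hB (Eventually.of_forall fun n =>
      bound_MM (hG n) (y n) (hy1 n))
  · rintro _ ⟨l, rfl⟩
    refine ⟨hsm l, ?_⟩
    have h1 := hjoint _ _ (hvz l)
    have h2 : Tendsto (fun n => (1 + inner ℂ (c n) (z n l)) ^ (p : ℂ)) U
        (𝓝 ((1 + inner ℂ c' (z' l)) ^ (p : ℂ))) := by
      have h3 : Tendsto (fun n => 1 + inner ℂ (c n) (z n l)) U (𝓝 (1 + inner ℂ c' (z' l))) :=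
        tendsto_const_nhds.add (hc'.inner (hz' l))
      refine ((continuousAt_cpow_const ?_).tendsto).comp h3
      exact Complex.mem_slitPlane_of_norm_lt_one (lt_of_le_of_lt (hsm l) (by norm_num))
    exact tendsto_nhds_unique (h1.congr fun n => hz3 n l) h2
  · have h1 : ‖f'‖ ≤ Real.sqrt (‖J‖ * (1 + ‖c'‖ ^ 2) ^ p) :=
      LinearMap.mkContinuous_norm_le _ (Real.sqrt_nonneg _) _
    calc ‖f'‖ ^ 2 ≤ (Real.sqrt (‖J‖ * (1 + ‖c'‖ ^ 2) ^ p)) ^ 2 :=
          pow_le_pow_left₀ (norm_nonneg _) h1 2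
      _ = _ := Real.sq_sqrt (by positivity)

end main

end J4794

export J4794 (good_limit)

end PFrame
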