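import Pool.Agent.Helper237.PF.Defs

set_option autoImplicit false

open Metric Set Filter Topology

namespace PFrame

namespace J4803

section SV

open MeasureTheory

/-- the kernel on pairs -/
noncomputable def svK (d : ℕ) (p : ℝ)
    (q : sphere (0 : EuclideanSpace ℝ (Fin (d + 1))) 1 × sphere (0 : EuclideanSpace ℝ (Fin (d + 1))) 1) : ℝ :=
  |inner ℝ (q.1 : EuclideanSpace ℝ (Fin (d + 1))) (q.2 : EuclideanSpace ℝ (Fin (d + 1)))| ^ p

lemma svK_cont {d : ℕ} {p : ℝ} (hp : 0 < p) : Continuous (svK d p) := by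
  unfold svK
  apply Continuous.rpow_const
  · apply Continuous.abs
    exact Continuous.inner (continuous_subtype_val.comp continuous_fst)
      (continuous_subtype_val.comp continuous_snd)
  · intro q
    exact Or.inr hp.le

lemma svK_nonneg {d : ℕ} {p : ℝ} (q) : 0 ≤ svK d p q := Real.rpow_nonneg (abs_nonneg _) _

lemma svK_le_one {d : ℕ} {p : ℝ} (hp : 0 < p) (q) : svK d p q ≤ 1 := by
  unfold svK
  apply Real.rpow_le_one (abs_nonneg _) _ hp.le
  have h := abs_real_inner_le_norm (q.1 : EuclideanSpace ℝ (Fin (d + 1)))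
    (q.2 : EuclideanSpace ℝ (Fin (d + 1)))
  rw [norm_eq_of_mem_sphere, norm_eq_of_mem_sphere, one_mul] at h
  exact h

/-- bounded measurable functions times the kernel are integrable -/
lemma sv_int {d : ℕ} {p : ℝ} (hp : 0 < p)
    {μ : Measure (sphere (0 : EuclideanSpace ℝ (Fin (d + 1))) 1)} [IsProbabilityMeasure μ]
    {u v : sphere (0 : EuclideanSpace ℝ (Fin (d + 1))) 1 → ℝ} (hu : Measurable u)
    (hv : Measurable v) {C D : ℝ} (hC : ∀ x, |u x| ≤ C) (hD : ∀ x, |v x| ≤ D) :
    Integrable (fun q : sphere (0 : EuclideanSpace ℝ (Fin (d + 1))) 1 ×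
      sphere (0 : EuclideanSpace ℝ (Fin (d + 1))) 1 => u q.1 * v q.2 * svK d p q) (μ.prod μ) := by
  apply Integrable.of_bound (C := |C| * |D| * 1)
  · exact (((hu.comp measurable_fst).mul (hv.comp measurable_snd)).mul
      (svK_cont hp).measurable).aestronglyMeasurable
  · filter_upwards with q
    rw [Real.norm_eq_abs, abs_mul, abs_mul]
    have hK : |svK d p q| ≤ 1 := by
      rw [abs_of_nonneg (svK_nonneg q)]
      exact svK_le_one hp q
    exact mul_le_mul (mul_le_mul ((hC _).trans (le_abs_self C)) ((hD _).trans (le_abs_self D))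
      (abs_nonneg _) (abs_nonneg _)) hK (abs_nonneg _) (mul_nonneg (abs_nonneg _) (abs_nonneg _))

/-- energy of a measure with a bounded density -/
lemma sv_energy {d : ℕ} {p : ℝ} (hp : 0 < p)
    {μ : Measure (sphere (0 : EuclideanSpace ℝ (Fin (d + 1))) 1)} [IsProbabilityMeasure μ]
    {φ : sphere (0 : EuclideanSpace ℝ (Fin (d + 1))) 1 → ℝ} (hφ : Measurable φ)
    (h0 : ∀ x, 0 ≤ φ x) {C : ℝ} (hC : ∀ x, |φ x| ≤ C) :
    frameEnergy d p (μ.withDensity (fun x => ENNReal.ofReal (φ x))) =
      ∫ q, φ q.1 * φ q.2 * svK d p q ∂(μ.prod μ) := by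
  have hm : Measurable (fun x => ENNReal.ofReal (φ x)) := hφ.ennreal_ofReal
  have hfin : ∀ᵐ x ∂μ, ENNReal.ofReal (φ x) < ⊤ := by
    filter_upwards with x using ENNReal.ofReal_lt_top
  unfold frameEnergy
  rw [integral_withDensity_eq_integral_toReal_smul hm hfin, integral_prod _ (sv_int hp hφ hφ hC hC)]
  congr 1
  funext x
  rw [integral_withDensity_eq_integral_toReal_smul hm hfin, ENNReal.toReal_ofReal (h0 x), smul_eq_mul,
    ← integral_const_mul]
  congr 1
  funext y
  rw [ENNReal.toReal_ofReal (h0 y), smul_eq_mul, ← mul_assoc]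
  rfl

end SV

open MeasureTheory in
/-- second variation -/
theorem second_variation {d : ℕ} {p : ℝ} (hp : 0 < p)
    {μ : Measure (sphere (0 : EuclideanSpace ℝ (Fin (d + 1))) 1)} (hμ : IsMinimizer d p μ)
    (g : sphere (0 : EuclideanSpace ℝ (Fin (d + 1))) 1 → ℝ) (hg : Measurable g)
    (hb : ∃ C, ∀ x, |g x| ≤ C) :
    0 ≤ ∫ x, ∫ y, g x * g y * |inner ℝ (x : EuclideanSpace ℝ (Fin (d + 1)))
      (y : EuclideanSpace ℝ (Fin (d + 1)))| ^ p ∂μ ∂μ := by
  obtain ⟨hprob, hmin⟩ := hμ
  obtain ⟨C0, hC0⟩ := hb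
  set C := |C0| with hCdef
  have hC : ∀ x, |g x| ≤ C := fun x => (hC0 x).trans (le_abs_self _)
  have hC0' : 0 ≤ C := abs_nonneg _
  set a := ∫ x, g x ∂μ with ha
  have hgint : Integrable g μ := Integrable.of_bound hg.aestronglyMeasurable C
    (by filter_upwards with x using hC x)
  have haC : |a| ≤ C := by
    have h1 := norm_integral_le_of_norm_le_const (μ := μ) (f := g) (C := C)
      (by filter_upwards with x using hC x)
    simpa using h1
  -- the four integrals
  have hone : Measurable (fun _ : sphere (0 : EuclideanSpace ℝ (Fin (d + 1))) 1 => (1 : ℝ)) :=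
    measurable_const
  have h1b : ∀ x : sphere (0 : EuclideanSpace ℝ (Fin (d + 1))) 1, |(fun _ => (1 : ℝ)) x| ≤ 1 :=
    fun x => by simp
  have i00 := sv_int hp (μ := μ) hone hone h1b h1b
  have i10 := sv_int hp (μ := μ) hg hone hC h1b
  have i01 := sv_int hp (μ := μ) hone hg h1b hC
  have i11 := sv_int hp (μ := μ) hg hg hC hC
  simp only [one_mul, mul_one] at i00 i10 i01
  set I := ∫ q, svK d p q ∂(μ.prod μ) with hI
  set L1 := ∫ q, g q.1 * svK d p q ∂(μ.prod μ) with hL1
  set L2 := ∫ q, g q.2 * svK d p q ∂(μ.prod μ) with hL2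
  set B := ∫ q, g q.1 * g q.2 * svK d p q ∂(μ.prod μ) with hB
  have hI0 : 0 ≤ I := integral_nonneg fun q => svK_nonneg q
  have hIe : frameEnergy d p μ = I := by
    rw [hI, integral_prod _ i00]; rfl
  have hBe : ∫ x, ∫ y, g x * g y * |inner ℝ (x : EuclideanSpace ℝ (Fin (d + 1)))
      (y : EuclideanSpace ℝ (Fin (d + 1)))| ^ p ∂μ ∂μ = B := by
    rw [hB, integral_prod _ i11]; rfl
  rw [hBe]
  -- the variation
  have key : ∀ s : ℝ, |s| * C ≤ 1 / 2 → I * (1 + s * a) ^ 2 ≤ I + s * L1 + s * L2 + s ^ 2 * B := by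
    intro s hs
    have hsg : ∀ x, |s * g x| ≤ 1 / 2 := by
      intro x
      rw [abs_mul]
      exact (mul_le_mul_of_nonneg_left (hC x) (abs_nonneg s)).trans hs
    have hsa : |s * a| ≤ 1 / 2 := by
      rw [abs_mul]
      exact (mul_le_mul_of_nonneg_left haC (abs_nonneg s)).trans hs
    have hZ : 0 < 1 + s * a := by linarith [(abs_le.mp hsa).1]
    have hZ2 : 1 / 2 ≤ 1 + s * a := by linarith [(abs_le.mp hsa).1]
    set Z := 1 + s * a with hZdef
    set φ : sphere (0 : EuclideanSpace ℝ (Fin (d + 1))) 1 → ℝ := fun x => (1 + s * g x) / Z with hφ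
    have hφm : Measurable φ := (measurable_const.add (hg.const_mul s)).div_const Z
    have hφ0 : ∀ x, 0 ≤ φ x := by
      intro x
      have := (abs_le.mp (hsg x)).1
      exact div_nonneg (by linarith) hZ.le
    have hφb : ∀ x, |φ x| ≤ 3 := by
      intro x
      rw [abs_of_nonneg (hφ0 x), hφ]
      simp only
      rw [div_le_iff₀ hZ]
      have := (abs_le.mp (hsg x)).2
      linarith
    have hφint : Integrable φ μ := Integrable.of_bound hφm.aestronglyMeasurable 3
      (by filter_upwards with x using hφb x)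
    have hφ1 : ∫ x, φ x ∂μ = 1 := by
      rw [hφ, integral_div, integral_add (integrable_const _) (hgint.const_mul s),
        integral_const_mul]
      simp only [integral_const, probReal_univ, smul_eq_mul, mul_one]
      rw [← ha]
      exact div_self hZ.ne'
    have hν : IsProbabilityMeasure (μ.withDensity (fun x => ENNReal.ofReal (φ x))) := by
      constructor
      rw [withDensity_apply _ MeasurableSet.univ, Measure.restrict_univ,
        ← ofReal_integral_eq_lintegral_ofReal hφint (by filter_upwards with x using hφ0 x), hφ1,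
        ENNReal.ofReal_one]
    have hm := hmin _ hν
    rw [hIe, sv_energy hp hφm hφ0 hφb] at hm
    have hexp : ∫ q, φ q.1 * φ q.2 * svK d p q ∂(μ.prod μ) =
        (I + s * L1 + s * L2 + s ^ 2 * B) / Z ^ 2 := by
      have e1 : (fun q : sphere (0 : EuclideanSpace ℝ (Fin (d + 1))) 1 ×
          sphere (0 : EuclideanSpace ℝ (Fin (d + 1))) 1 => φ q.1 * φ q.2 * svK d p q) =
          fun q => (svK d p q + s * (g q.1 * svK d p q) + s * (g q.2 * svK d p q) +
            s ^ 2 * (g q.1 * g q.2 * svK d p q)) / Z ^ 2 := by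
        funext q
        simp only [hφ]
        field_simp
        ring
      have j1 : Integrable (fun q : sphere (0 : EuclideanSpace ℝ (Fin (d + 1))) 1 ×
          sphere (0 : EuclideanSpace ℝ (Fin (d + 1))) 1 =>
          svK d p q + s * (g q.1 * svK d p q)) (μ.prod μ) := i00.add (i10.const_mul s)
      have j2 : Integrable (fun q : sphere (0 : EuclideanSpace ℝ (Fin (d + 1))) 1 ×
          sphere (0 : EuclideanSpace ℝ (Fin (d + 1))) 1 =>
          svK d p q + s * (g q.1 * svK d p q) + s * (g q.2 * svK d p q)) (μ.prod μ) :=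
        j1.add (i01.const_mul s)
      rw [e1, integral_div, integral_add j2 (i11.const_mul (s ^ 2)),
        integral_add j1 (i01.const_mul s),
        integral_add i00 (i10.const_mul s), integral_const_mul, integral_const_mul,
        integral_const_mul]
    rw [hexp, le_div_iff₀ (by positivity)] at hm
    exact hm
  set t : ℝ := 1 / (2 * (C + 1)) with ht
  have htpos : 0 < t := by positivity
  have htC : |t| * C ≤ 1 / 2 := by
    rw [abs_of_pos htpos, ht, div_mul_eq_mul_div, one_mul, div_le_div_iff₀ (by positivity) (by norm_num)]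
    linarith
  have k1 := key t htC
  have k2 := key (-t) (by rw [abs_neg]; exact htC)
  have hsum : 0 ≤ 2 * t ^ 2 * (B - I * a ^ 2) := by nlinarith
  have h3 : 0 ≤ B - I * a ^ 2 := by
    by_contra hcon
    push Not at hcon
    have : 2 * t ^ 2 * (B - I * a ^ 2) < 0 := mul_neg_of_pos_of_neg (by positivity) hcon
    linarith
  have h4 : 0 ≤ I * a ^ 2 := by positivity
  linarith

end J4803

export J4803 (second_variation)

end PFrame
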