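import Pool.Agent.Helper237.PF.Defs
import Pool.Agent.Helper237.PF.Secvar

set_option autoImplicit false

open Metric Set Filter Topology

namespace PFrame

namespace J4804

open MeasureTheory in
/-- abstract averaging lemma -/
lemma psd_of_avg {S : Type*} [MetricSpace S] [CompactSpace S] [MeasurableSpace S] [BorelSpace S]
    (μ : Measure S) [IsProbabilityMeasure μ] (K : S → S → ℝ)
    (hK : Continuous (fun z : S × S => K z.1 z.2))
    (hpos : ∀ g : S → ℝ, Measurable g → (∃ C, ∀ x, |g x| ≤ C) →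
      0 ≤ ∫ x, ∫ y, g x * g y * K x y ∂μ ∂μ)
    (t : Finset S) (b : S → ℝ) (ht : ∀ x ∈ t, x ∈ μ.support) :
    0 ≤ ∑ x ∈ t, ∑ y ∈ t, b x * b y * K x y := by
  classical
  -- it suffices to have an epsilon bound
  have key : ∀ ε > 0, 0 ≤ (∑ x ∈ t, ∑ y ∈ t, b x * b y * K x y)
      + ε * (∑ x ∈ t, ∑ y ∈ t, |b x * b y|) := by
    intro ε hε
    have huc : UniformContinuous (fun z : S × S => K z.1 z.2) :=
      CompactSpace.uniformContinuous_of_continuous hK
    obtain ⟨r, hr, hKr⟩ := Metric.uniformContinuous_iff.mp huc ε hε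
    -- measure of balls
    have hm : ∀ x ∈ t, 0 < μ.real (ball x r) := by
      intro x hx
      have h1 : 0 < μ (ball x r) :=
        (Measure.mem_support_iff_forall x).mp (ht x hx) _ (ball_mem_nhds x hr)
      exact ENNReal.toReal_pos h1.ne' (measure_ne_top _ _)
    let φ : S → S → ℝ := fun x => (ball x r).indicator (fun _ => (μ.real (ball x r))⁻¹)
    have hφmeas : ∀ x, Measurable (φ x) := fun x =>
      measurable_const.indicator measurableSet_ball
    have hφnn : ∀ x u, 0 ≤ φ x u := by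
      intro x u
      exact Set.indicator_nonneg (fun _ _ => inv_nonneg.mpr measureReal_nonneg) u
    have hφle : ∀ x u, φ x u ≤ (μ.real (ball x r))⁻¹ := by
      intro x u
      exact Set.indicator_le_self' (fun _ _ => inv_nonneg.mpr measureReal_nonneg) u
    have hφint : ∀ x ∈ t, ∫ u, φ x u ∂μ = 1 := by
      intro x hx
      simp only [φ]
      rw [integral_indicator_const _ measurableSet_ball, smul_eq_mul,
        mul_inv_cancel₀ (hm x hx).ne']
    let g : S → ℝ := fun u => ∑ x ∈ t, b x * φ x u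
    have hgmeas : Measurable g := by
      exact Finset.measurable_fun_sum t (fun x _ => (hφmeas x).const_mul (b x))
    obtain ⟨C, hC⟩ : ∃ C, ∀ u, |g u| ≤ C := by
      refine ⟨∑ x ∈ t, |b x| * (μ.real (ball x r))⁻¹, fun u => ?_⟩
      refine (Finset.abs_sum_le_sum_abs _ _).trans (Finset.sum_le_sum fun x _ => ?_)
      rw [abs_mul, abs_of_nonneg (hφnn x u)]
      exact mul_le_mul_of_nonneg_left (hφle x u) (abs_nonneg _)
    have h0 := hpos g hgmeas ⟨C, hC⟩
    obtain ⟨D, hD⟩ : ∃ D, ∀ z : S × S, |K z.1 z.2| ≤ D := by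
      obtain ⟨D, hD⟩ := isCompact_univ.exists_bound_of_continuousOn (f := fun z : S × S => K z.1 z.2)
        hK.continuousOn
      exact ⟨D, fun z => hD z (mem_univ _)⟩
    have hFint : Integrable (fun z : S × S => g z.1 * g z.2 * K z.1 z.2) (μ.prod μ) := by
      have hmeas : Measurable (fun z : S × S => g z.1 * g z.2 * K z.1 z.2) := by
        have : SecondCountableTopology S := inferInstance
        exact ((hgmeas.comp measurable_fst).mul (hgmeas.comp measurable_snd)).mul hK.measurable
      refine Integrable.of_bound hmeas.aestronglyMeasurable (C * C * D) (Eventually.of_forall fun z => ?_)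
      rw [Real.norm_eq_abs, abs_mul, abs_mul]
      have hC0 : 0 ≤ C := (abs_nonneg _).trans (hC z.1)
      exact mul_le_mul (mul_le_mul (hC z.1) (hC z.2) (abs_nonneg _) hC0) (hD z) (abs_nonneg _)
        (mul_nonneg hC0 hC0)
    have hφi : ∀ x, Integrable (φ x) μ := fun x =>
      (integrable_const _).indicator measurableSet_ball
    have hGint : ∀ x y, Integrable (fun z : S × S => (b x * b y * K x y + ε * |b x * b y|) *
        (φ x z.1 * φ y z.2)) (μ.prod μ) := fun x y =>
      ((hφi x).mul_prod (hφi y)).const_mul _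
    have hle : ∫ z, g z.1 * g z.2 * K z.1 z.2 ∂(μ.prod μ) ≤
        ∫ z, ∑ x ∈ t, ∑ y ∈ t, (b x * b y * K x y + ε * |b x * b y|) *
          (φ x z.1 * φ y z.2) ∂(μ.prod μ) := by
      refine integral_mono hFint (integrable_finsetSum _ fun x _ =>
        integrable_finsetSum _ fun y _ => hGint x y) (fun z => ?_)
      simp only [g]
      rw [Finset.sum_mul_sum, Finset.sum_mul]
      refine Finset.sum_le_sum fun x _ => ?_
      rw [Finset.sum_mul]
      refine Finset.sum_le_sum fun y _ => ?_
      by_cases hz : z.1 ∈ ball x r ∧ z.2 ∈ ball y r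
      · have hd : dist (z : S × S) (x, y) < r := by
          rw [Prod.dist_eq]
          exact max_lt hz.1 hz.2
        have hk := hKr hd
        rw [Real.dist_eq] at hk
        have hφφ : 0 ≤ φ x z.1 * φ y z.2 := mul_nonneg (hφnn _ _) (hφnn _ _)
        have e1 : b x * b y * (K z.1 z.2 - K x y) ≤ ε * |b x * b y| := by
          calc b x * b y * (K z.1 z.2 - K x y) ≤ |b x * b y * (K z.1 z.2 - K x y)| := le_abs_self _
            _ = |b x * b y| * |K z.1 z.2 - K x y| := abs_mul _ _
            _ ≤ |b x * b y| * ε := mul_le_mul_of_nonneg_left hk.le (abs_nonneg _)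
            _ = ε * |b x * b y| := mul_comm _ _
        have e2 : b x * b y * K z.1 z.2 ≤ b x * b y * K x y + ε * |b x * b y| := by linarith
        calc b x * φ x z.1 * (b y * φ y z.2) * K z.1 z.2
            = (b x * b y * K z.1 z.2) * (φ x z.1 * φ y z.2) := by ring
          _ ≤ _ := mul_le_mul_of_nonneg_right e2 hφφ
      · have hzero : φ x z.1 * φ y z.2 = 0 := by
          rw [not_and_or] at hz
          rcases hz with hz | hz
          · have : φ x z.1 = 0 := Set.indicator_of_notMem hz _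
            rw [this, zero_mul]
          · have : φ y z.2 = 0 := Set.indicator_of_notMem hz _
            rw [this, mul_zero]
        have : b x * φ x z.1 * (b y * φ y z.2) * K z.1 z.2
            = (b x * b y * K z.1 z.2) * (φ x z.1 * φ y z.2) := by ring
        rw [this, hzero, mul_zero, mul_zero]
    rw [integral_prod _ hFint] at hle
    have hrhs : ∫ z, ∑ x ∈ t, ∑ y ∈ t, (b x * b y * K x y + ε * |b x * b y|) *
          (φ x z.1 * φ y z.2) ∂(μ.prod μ) = ∑ x ∈ t, ∑ y ∈ t, (b x * b y * K x y + ε * |b x * b y|) := by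
      rw [integral_finsetSum _ fun x _ => integrable_finsetSum _ fun y _ => hGint x y]
      refine Finset.sum_congr rfl fun x hx => ?_
      rw [integral_finsetSum _ fun y _ => hGint x y]
      refine Finset.sum_congr rfl fun y hy => ?_
      rw [integral_const_mul, integral_prod_mul (φ x) (φ y), hφint x hx, hφint y hy]
      ring
    rw [hrhs] at hle
    have h2 : 0 ≤ ∑ x ∈ t, ∑ y ∈ t, (b x * b y * K x y + ε * |b x * b y|) := h0.trans hle
    have h3 : ∑ x ∈ t, ∑ y ∈ t, (b x * b y * K x y + ε * |b x * b y|)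
        = (∑ x ∈ t, ∑ y ∈ t, b x * b y * K x y) + ε * (∑ x ∈ t, ∑ y ∈ t, |b x * b y|) := by
      simp only [Finset.sum_add_distrib, Finset.mul_sum]
    rwa [h3] at h2
  -- conclude
  by_contra hneg
  push Not at hneg
  set A := ∑ x ∈ t, ∑ y ∈ t, b x * b y * K x y with hA
  set B := ∑ x ∈ t, ∑ y ∈ t, |b x * b y| with hB
  have hB0 : 0 ≤ B := Finset.sum_nonneg fun _ _ => Finset.sum_nonneg fun _ _ => abs_nonneg _
  have hB1 : 0 < B + 1 := by linarith
  have h := key (-A / (2 * (B + 1))) (div_pos (by linarith) (by linarith))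
  have h4 : -A / (2 * (B + 1)) * B ≤ -A / 2 := by
    rw [div_mul_eq_mul_div, div_le_div_iff₀ (by linarith) (by norm_num)]
    nlinarith
  linarith

open MeasureTheory in
/-- the kernel is positive semidefinite on the support of a minimizer -/
theorem minimizer_PD {d : ℕ} {p : ℝ} (hp : 0 < p)
    {μ : Measure (sphere (0 : EuclideanSpace ℝ (Fin (d + 1))) 1)} (hμ : IsMinimizer d p μ)
    (s : Finset (EuclideanSpace ℝ (Fin (d + 1))))
    (a : EuclideanSpace ℝ (Fin (d + 1)) → ℝ) (hs : (s : Set (EuclideanSpace ℝ (Fin (d + 1)))) ⊆ Subtype.val '' μ.support) :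
    0 ≤ ∑ x ∈ s, ∑ y ∈ s, a x * a y * |inner ℝ x y| ^ p := by
  classical
  have hprob : IsProbabilityMeasure μ := hμ.1
  have hmem : ∀ x ∈ s, x ∈ sphere (0 : EuclideanSpace ℝ (Fin (d + 1))) 1 := by
    intro x hx
    obtain ⟨y, _, rfl⟩ := hs hx
    exact y.2
  have hK : Continuous (fun z : (sphere (0 : EuclideanSpace ℝ (Fin (d + 1))) 1) ×
      (sphere (0 : EuclideanSpace ℝ (Fin (d + 1))) 1) =>
      |inner ℝ (z.1 : EuclideanSpace ℝ (Fin (d + 1))) (z.2 : EuclideanSpace ℝ (Fin (d + 1)))| ^ p) := by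
    have h1 : Continuous (fun z : (sphere (0 : EuclideanSpace ℝ (Fin (d + 1))) 1) ×
      (sphere (0 : EuclideanSpace ℝ (Fin (d + 1))) 1) =>
      inner ℝ (z.1 : EuclideanSpace ℝ (Fin (d + 1))) (z.2 : EuclideanSpace ℝ (Fin (d + 1)))) :=
      (continuous_subtype_val.comp continuous_fst).inner (continuous_subtype_val.comp continuous_snd)
    exact h1.abs.rpow_const (fun _ => Or.inr hp.le)
  have h := psd_of_avg μ
    (fun x y => |inner ℝ (x : EuclideanSpace ℝ (Fin (d + 1))) (y : EuclideanSpace ℝ (Fin (d + 1)))| ^ p)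
    hK (fun g hg hb => second_variation hp hμ g hg hb)
    (s.subtype (· ∈ sphere (0 : EuclideanSpace ℝ (Fin (d + 1))) 1)) (fun x => a x)
    (by
      intro x hx
      rw [Finset.mem_subtype] at hx
      obtain ⟨y, hy, hyx⟩ := hs hx
      have : y = x := Subtype.ext hyx
      rwa [← this])
  have e1 : ∀ F : EuclideanSpace ℝ (Fin (d + 1)) → ℝ,
      ∑ x ∈ s.subtype (· ∈ sphere (0 : EuclideanSpace ℝ (Fin (d + 1))) 1), F x = ∑ x ∈ s, F x :=
    fun F => Finset.sum_subtype_of_mem F hmem
  have e2 : ∑ x ∈ s, ∑ y ∈ s, a x * a y * |inner ℝ x y| ^ p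
      = ∑ x ∈ s.subtype (· ∈ sphere (0 : EuclideanSpace ℝ (Fin (d + 1))) 1),
        ∑ y ∈ s.subtype (· ∈ sphere (0 : EuclideanSpace ℝ (Fin (d + 1))) 1),
          a x * a y * |inner ℝ (x : EuclideanSpace ℝ (Fin (d + 1))) (y : EuclideanSpace ℝ (Fin (d + 1)))| ^ p := by
    rw [e1 (fun x => ∑ y ∈ s.subtype (· ∈ sphere (0 : EuclideanSpace ℝ (Fin (d + 1))) 1),
          a x * a y * |inner ℝ (x : EuclideanSpace ℝ (Fin (d + 1))) (y : EuclideanSpace ℝ (Fin (d + 1)))| ^ p)]
    refine Finset.sum_congr rfl fun x _ => ?_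
    exact (e1 (fun y => a x * a y * |inner ℝ x y| ^ p)).symm
  rw [e2]
  exact h

end J4804

export J4804 (minimizer_PD)

end PFrame
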