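import Pool.Agent.Helper237.PF.Defs
import Pool.Agent.Helper237.PF.Tau

set_option autoImplicit false

open Metric Set Filter Topology

namespace PFrame

namespace J4791

section kernel

variable {W : Type} [NormedAddCommGroup W] [InnerProductSpace ℂ W]

variable {E : Type} [NormedAddCommGroup E] [InnerProductSpace ℂ E]

end kernel

section generalW

variable {W : Type} [NormedAddCommGroup W] [InnerProductSpace ℂ W]
  {E : Type} [NormedAddCommGroup E] [InnerProductSpace ℂ E]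
  {p : ℝ} {v : W → E} {J : E →L[ℂ] E}

theorem cpow_core {A B C D : ℂ} {r p : ℝ} (hr : 0 < r) (hA : ‖A‖ ≤ 1 / 2) (hB : ‖B‖ ≤ 1 / 2)
    (hC : ‖C‖ ≤ 1 / 2) (hD : ‖D‖ ≤ 1 / 2)
    (h : (1 + A) * ((1 + B) * (1 + C)) = (r : ℂ) * (1 + D)) :
    (1 + A) ^ (p : ℂ) * ((1 + B) ^ (p : ℂ) * (1 + C) ^ (p : ℂ)) =
      (r : ℂ) ^ (p : ℂ) * (1 + D) ^ (p : ℂ) := by
  have ne : ∀ z : ℂ, ‖z‖ ≤ 1 / 2 → 1 + z ≠ 0 := by
    intro z hz h0
    have : z = -1 := by linear_combination h0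
    rw [this] at hz
    norm_num at hz
  have im : ∀ z : ℂ, ‖z‖ ≤ 1 / 2 → |(Complex.log (1 + z)).im| ≤ 3 / 4 := by
    intro z hz
    have h1 := Complex.norm_log_one_add_half_le_self hz
    have h2 := Complex.abs_im_le_norm (Complex.log (1 + z))
    linarith
  have hA' := abs_le.1 (im A hA)
  have hB' := abs_le.1 (im B hB)
  have hC' := abs_le.1 (im C hC)
  have hD' := abs_le.1 (im D hD)
  have hpi := Real.pi_gt_three
  have hr0 : (r : ℂ) ≠ 0 := by exact_mod_cast hr.ne'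
  have key : Complex.log (1 + A) + (Complex.log (1 + B) + Complex.log (1 + C)) =
      Complex.log r + Complex.log (1 + D) := by
    apply Complex.exp_inj_of_neg_pi_lt_of_le_pi
    · simp only [Complex.add_im]; linarith [hA'.1, hB'.1, hC'.1]
    · simp only [Complex.add_im]; linarith [hA'.2, hB'.2, hC'.2]
    · simp only [Complex.add_im]
      rw [← Complex.ofReal_log hr.le, Complex.ofReal_im]; linarith [hD'.1]
    · simp only [Complex.add_im]
      rw [← Complex.ofReal_log hr.le, Complex.ofReal_im]; linarith [hD'.2]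
    · rw [Complex.exp_add, Complex.exp_add, Complex.exp_add, Complex.exp_log (ne A hA),
        Complex.exp_log (ne B hB), Complex.exp_log (ne C hC), Complex.exp_log (ne D hD),
        Complex.exp_log hr0, h]
  rw [Complex.cpow_def_of_ne_zero (ne A hA), Complex.cpow_def_of_ne_zero (ne B hB),
    Complex.cpow_def_of_ne_zero (ne C hC), Complex.cpow_def_of_ne_zero (ne D hD),
    Complex.cpow_def_of_ne_zero hr0, ← Complex.exp_add, ← Complex.exp_add, ← Complex.exp_add]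
  congr 1
  linear_combination (p : ℂ) * key

theorem conj_cpow_core {B : ℂ} {p : ℝ} (hB : ‖B‖ ≤ 1 / 2) :
    (starRingEnd ℂ) ((1 + B) ^ (p : ℂ)) = (1 + (starRingEnd ℂ) B) ^ (p : ℂ) := by
  have hre : 0 < (1 + B).re := by
    have h1 := Complex.abs_re_le_norm B
    have h2 := (abs_le.1 (h1.trans hB)).1
    simp only [Complex.add_re, Complex.one_re]
    linarith
  have harg : (1 + B).arg ≠ Real.pi := by
    intro h
    have h3 := (Complex.arg_eq_pi_iff.1 h).1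
    linarith
  have h := Complex.conj_cpow (1 + B) (p : ℂ) harg
  rw [Complex.conj_ofReal, map_add, map_one] at h
  exact h.symm

theorem inner_lc_eq {ι : Type} {φ ψ : ι → E} (J : E →L[ℂ] E)
    (h : ∀ i j, inner ℂ (φ i) (J (φ j)) = inner ℂ (ψ i) (J (ψ j))) (a : ι →₀ ℂ) :
    inner ℂ (Finsupp.linearCombination ℂ φ a) (J (Finsupp.linearCombination ℂ φ a)) =
      inner ℂ (Finsupp.linearCombination ℂ ψ a) (J (Finsupp.linearCombination ℂ ψ a)) := by
  simp only [Finsupp.linearCombination_apply, Finsupp.sum, map_sum, sum_inner, inner_sum,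
    map_smul, inner_smul_left, inner_smul_right, h]

theorem tau_zero {b u : W} (hu : 1 + inner ℂ b u ≠ 0) (h : tau b u = 0) : u = b := by
  have h1 := tau_smul b u hu
  rw [h, smul_zero] at h1
  set s : ℝ := Real.sqrt (1 + ‖b‖ ^ 2) with hs
  have hs2 : s ^ 2 = 1 + ‖b‖ ^ 2 := Real.sq_sqrt (by positivity)
  have hs0 : 0 < s := Real.sqrt_pos.2 (by positivity)
  have hsC : (s : ℂ) ^ 2 = 1 + (‖b‖ : ℂ) ^ 2 := by exact_mod_cast hs2
  have hs1 : (1 + (s : ℂ)) ≠ 0 := by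
    have : (1 + s : ℝ) ≠ 0 := by positivity
    exact_mod_cast this
  have hsne : (s : ℂ) ≠ 0 := by exact_mod_cast hs0.ne'
  have h2 : inner ℂ b ((s : ℂ) • (u - b) - (inner ℂ b (u - b) / (1 + (s : ℂ))) • b) = 0 := by
    rw [← h1, inner_zero_right]
  rw [inner_sub_right, inner_smul_right, inner_smul_right, inner_self_eq_norm_sq_to_K] at h2
  have h3 : inner ℂ b (u - b) = 0 := by
    have h4 : (inner ℂ b (u - b) : ℂ) * ((s : ℂ) * (1 + s) - (‖b‖ : ℂ) ^ 2) = 0 := by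
      have h5 : (s : ℂ) * inner ℂ b (u - b) * (1 + s) -
          (inner ℂ b (u - b) / (1 + (s : ℂ)) * (1 + s)) * (‖b‖ : ℂ) ^ 2 = 0 := by
        have := congrArg (fun z => z * (1 + (s : ℂ))) h2
        simp only [zero_mul] at this
        rw [← this]
        simp only [Complex.coe_algebraMap]
        ring
      rw [div_mul_cancel₀ _ hs1] at h5
      linear_combination h5
    have h6 : (s : ℂ) * (1 + s) - (‖b‖ : ℂ) ^ 2 = 1 + s := by
      linear_combination hsC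
    rw [h6] at h4
    exact (mul_eq_zero.1 h4).resolve_right hs1
  rw [h3, zero_div, zero_smul, sub_zero] at h1
  have h4 := (smul_eq_zero.1 h1.symm).resolve_left hsne
  exact sub_eq_zero.1 h4

theorem tau_cont {b : W} : ContinuousAt (tau b) b := by
  have h0 : (1 + inner ℂ b b : ℂ) ≠ 0 := by
    have h1 : (1 + inner ℂ b b : ℂ) = ((1 + ‖b‖ ^ 2 : ℝ) : ℂ) := by
      rw [inner_self_eq_norm_sq_to_K]
      push_cast
      rfl
    rw [h1]
    have : (1 + ‖b‖ ^ 2 : ℝ) ≠ 0 := by positivity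
    exact Complex.ofReal_ne_zero.2 this
  unfold tau
  have hi : ContinuousAt (fun u : W => (inner ℂ b u : ℂ)) b := by fun_prop
  refine ContinuousAt.smul (ContinuousAt.inv₀ (continuousAt_const.add hi) h0) ?_
  refine ContinuousAt.sub (continuousAt_const.smul continuousAt_id) ?_
  exact ContinuousAt.smul (continuousAt_const.add (hi.div_const _)) continuousAt_const

/-- a functional on a span which is bounded by a quadratic form -/
theorem exists_functional {ι : Type} (φ : ι → E) (J : E →L[ℂ] E) (l : (ι →₀ ℂ) →ₗ[ℂ] ℂ) {C : ℝ}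
    (hC : 0 ≤ C)
    (hl : ∀ a, ‖l a‖ ^ 2 ≤ C * (inner ℂ (Finsupp.linearCombination ℂ φ a)
      (J (Finsupp.linearCombination ℂ φ a))).re) :
    ∃ f' : E →L[ℂ] ℂ, (∀ a, f' (Finsupp.linearCombination ℂ φ a) = l a) ∧
      ‖f'‖ ^ 2 ≤ ‖J‖ * C := by
  set X := Finsupp.linearCombination ℂ φ with hX
  have hker : LinearMap.ker X ≤ LinearMap.ker l := by
    intro a ha
    rw [LinearMap.mem_ker] at ha ⊢
    have h := hl a
    rw [ha] at h
    simp only [inner_zero_left, Complex.zero_re, mul_zero] at h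
    have h2 : ‖l a‖ ^ 2 = 0 := le_antisymm h (by positivity)
    have h3 : ‖l a‖ = 0 := by
      exact pow_eq_zero_iff (two_ne_zero) |>.1 h2
    exact norm_eq_zero.1 h3
  let L : LinearMap.range X →ₗ[ℂ] ℂ :=
    ((LinearMap.ker X).liftQ l hker).comp X.quotKerEquivRange.symm.toLinearMap
  have hL : ∀ a, L ⟨X a, LinearMap.mem_range_self X a⟩ = l a := by
    intro a
    simp only [L, LinearMap.comp_apply, LinearEquiv.coe_coe,
      LinearMap.quotKerEquivRange_symm_apply_image]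
    rfl
  have hbd : ∀ x, ‖L x‖ ≤ Real.sqrt (‖J‖ * C) * ‖x‖ := by
    rintro ⟨_, a, rfl⟩
    rw [hL a]
    have h1 := hl a
    have h2 : (inner ℂ (X a) (J (X a))).re ≤ ‖J‖ * ‖X a‖ ^ 2 := by
      calc (inner ℂ (X a) (J (X a))).re ≤ ‖(inner ℂ (X a) (J (X a)) : ℂ)‖ := Complex.re_le_norm _
        _ ≤ ‖X a‖ * ‖J (X a)‖ := norm_inner_le_norm _ _
        _ ≤ ‖X a‖ * (‖J‖ * ‖X a‖) := by
            gcongr
            exact J.le_opNorm _
        _ = ‖J‖ * ‖X a‖ ^ 2 := by ring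
    have h3 : ‖l a‖ ^ 2 ≤ (‖J‖ * C) * ‖X a‖ ^ 2 := by
      refine h1.trans ?_
      calc C * (inner ℂ (X a) (J (X a))).re ≤ C * (‖J‖ * ‖X a‖ ^ 2) :=
            mul_le_mul_of_nonneg_left h2 hC
        _ = (‖J‖ * C) * ‖X a‖ ^ 2 := by ring
    have h4 : ‖l a‖ ≤ Real.sqrt ((‖J‖ * C) * ‖X a‖ ^ 2) := Real.le_sqrt_of_sq_le h3
    rw [Real.sqrt_mul (by positivity), Real.sqrt_sq (norm_nonneg _)] at h4
    exact h4
  obtain ⟨f', hf', hn⟩ := exists_extension_norm_eq (LinearMap.range X)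
    (L.mkContinuous _ hbd)
  refine ⟨f', fun a => ?_, ?_⟩
  · have h1 := hf' ⟨X a, LinearMap.mem_range_self X a⟩
    rw [LinearMap.mkContinuous_apply, hL a] at h1
    exact h1
  · have h1 : ‖f'‖ ≤ Real.sqrt (‖J‖ * C) := by
      rw [hn]
      exact LinearMap.mkContinuous_norm_le _ (Real.sqrt_nonneg _) _
    calc ‖f'‖ ^ 2 ≤ (Real.sqrt (‖J‖ * C)) ^ 2 := by gcongr
      _ = ‖J‖ * C := Real.sq_sqrt (by positivity)

theorem recenter_Good [CompleteSpace E] (hp : 0 < p) (hΦ : IsFeat p v J) {c : W} {S : Set W}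
    {f : E →L[ℂ] ℂ} (hS : S ⊆ ball 0 1)
    (hbound : ∀ x ∈ Submodule.span ℂ (v '' S),
      ‖f x‖ ^ 2 ≤ (1 + ‖c‖ ^ 2) ^ p * (inner ℂ x (J x)).re)
    (hrel : ∀ s ∈ S, ‖inner ℂ c s‖ ≤ 1 / 2 ∧ f (v s) = (1 + inner ℂ c s) ^ (p : ℂ))
    {b : W} (hb : ‖b‖ ≤ 1 / 2) (hbc : ‖inner ℂ c b‖ ≤ 1 / 2) (hacc : AccPt b (𝓟 S)) :
    ∃ S' f', Good p v J (tau b c) S' f' := by
  have ne : ∀ z : ℂ, ‖z‖ ≤ 1 / 2 → 1 + z ≠ 0 := by
    intro z hz h0
    have : z = -1 := by linear_combination h0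
    rw [this] at hz
    norm_num at hz
  set c' := tau b c with hc'
  set r : ℝ := 1 + ‖b‖ ^ 2 with hr
  have hr0 : 0 < r := by positivity
  have hrC : (1 + (‖b‖ : ℂ) ^ 2) = (r : ℂ) := by rw [hr]; push_cast; ring
  -- the neighbourhood
  have hcont : Tendsto (fun u => ‖tau b u‖) (𝓝 b) (𝓝 0) := by
    have h := (tau_cont (b := b)).norm
    unfold ContinuousAt at h
    simp only [tau_self, norm_zero] at h
    exact h
  set N : Set W := {u | ‖u‖ < 7 / 10 ∧ ‖tau b u‖ < 7 / 10 ∧ ‖c'‖ * ‖tau b u‖ < 1 / 2} with hN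
  have hNb : N ∈ 𝓝 b := by
    have h1 : ∀ᶠ u in 𝓝 b, ‖u‖ < 7 / 10 :=
      (continuous_norm.tendsto b).eventually_lt_const (by linarith)
    have h2 : ∀ᶠ u in 𝓝 b, ‖tau b u‖ < 7 / 10 :=
      hcont.eventually_lt_const (by norm_num)
    have h3 : ∀ᶠ u in 𝓝 b, ‖c'‖ * ‖tau b u‖ < 1 / 2 := by
      have h4 : Tendsto (fun u => ‖c'‖ * ‖tau b u‖) (𝓝 b) (𝓝 (‖c'‖ * 0)) := hcont.const_mul _
      rw [mul_zero] at h4
      exact h4.eventually_lt_const (by norm_num)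
    filter_upwards [h1, h2, h3] with u a1 a2 a3
    exact ⟨a1, a2, a3⟩
  set T : Set W := S ∩ N with hT
  have hcb : ‖(inner ℂ b c : ℂ)‖ ≤ 1 / 2 := by rwa [norm_inner_symm]
  have hbu : ∀ u ∈ T, ‖(inner ℂ b u : ℂ)‖ ≤ 1 / 2 := by
    intro u hu
    have h1 := norm_inner_le_norm (𝕜 := ℂ) b u
    have h2 : ‖b‖ * ‖u‖ ≤ 1 / 2 * (7 / 10) :=
      mul_le_mul hb hu.2.1.le (norm_nonneg _) (by norm_num)
    linarith
  have hub : ∀ u ∈ T, ‖(inner ℂ u b : ℂ)‖ ≤ 1 / 2 := by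
    intro u hu
    rw [norm_inner_symm]
    exact hbu u hu
  have hwu : ∀ u ∈ T, ∀ w ∈ T, ‖(inner ℂ w u : ℂ)‖ ≤ 1 / 2 := by
    intro u hu w hw
    have h1 := norm_inner_le_norm (𝕜 := ℂ) w u
    have h2 : ‖w‖ * ‖u‖ ≤ 7 / 10 * (7 / 10) :=
      mul_le_mul hw.2.1.le hu.2.1.le (norm_nonneg _) (by norm_num)
    linarith
  have hwu' : ∀ u ∈ T, ∀ w ∈ T, ‖(inner ℂ (tau b w) (tau b u) : ℂ)‖ ≤ 1 / 2 := by
    intro u hu w hw
    have h1 := norm_inner_le_norm (𝕜 := ℂ) (tau b w) (tau b u)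
    have h2 : ‖tau b w‖ * ‖tau b u‖ ≤ 7 / 10 * (7 / 10) :=
      mul_le_mul hw.2.2.1.le hu.2.2.1.le (norm_nonneg _) (by norm_num)
    linarith
  have hcu' : ∀ u ∈ T, ‖(inner ℂ c' (tau b u) : ℂ)‖ ≤ 1 / 2 := by
    intro u hu
    have h1 := norm_inner_le_norm (𝕜 := ℂ) c' (tau b u)
    have h2 := hu.2.2.2
    linarith
  -- factors
  set ρ : ℝ := r ^ (p / 2) with hρ
  have hρ0 : 0 < ρ := Real.rpow_pos_of_pos hr0 _
  have hρ2 : (ρ : ℂ) * ρ = (r : ℂ) ^ (p : ℂ) := by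
    rw [← Complex.ofReal_cpow hr0.le, ← Complex.ofReal_mul, hρ, ← Real.rpow_add hr0]
    congr 2
    ring
  set μ : W → ℂ := fun u => ρ / (1 + inner ℂ b u) ^ (p : ℂ) with hμ
  set κ : ℂ := ρ / (1 + inner ℂ c b) ^ (p : ℂ) with hκ
  have hcpne : ∀ z : ℂ, ‖z‖ ≤ 1 / 2 → (1 + z) ^ (p : ℂ) ≠ 0 := by
    intro z hz h0
    rw [Complex.cpow_eq_zero_iff] at h0
    exact ne z hz h0.1
  have hM : ∀ u ∈ T, ∀ w ∈ T, (starRingEnd ℂ) (μ w) * (μ u * (1 + inner ℂ w u) ^ (p : ℂ)) =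
      (1 + inner ℂ (tau b w) (tau b u)) ^ (p : ℂ) := by
    intro u hu w hw
    have h1 := tau_inner b u w (ne _ (hbu u hu)) (ne _ (hbu w hw))
    rw [hrC] at h1
    have h2 := cpow_core (p := p) hr0 (hwu' u hu w hw) (hbu u hu) (hub w hw) (hwu u hu w hw) h1
    have h3 : (starRingEnd ℂ) (μ w) = ρ / (1 + inner ℂ w b) ^ (p : ℂ) := by
      simp only [hμ]
      rw [map_div₀, Complex.conj_ofReal, conj_cpow_core (hbu w hw), inner_conj_symm]
    rw [h3]
    simp only [hμ]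
    have n1 := hcpne _ (hbu u hu)
    have n2 := hcpne _ (hub w hw)
    rw [← hρ2] at h2
    field_simp
    linear_combination -h2
  have hK : ∀ u ∈ T, κ * (μ u * (1 + inner ℂ c u) ^ (p : ℂ)) =
      (1 + inner ℂ c' (tau b u)) ^ (p : ℂ) := by
    intro u hu
    have h1 := tau_inner b u c (ne _ (hbu u hu)) (ne _ hcb)
    rw [hrC] at h1
    have h2 := cpow_core (p := p) hr0 (hcu' u hu) (hbu u hu) hbc (hrel u hu.1).1 h1
    simp only [hμ, hκ]
    have n1 := hcpne _ (hbu u hu)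
    have n2 := hcpne _ hbc
    rw [← hρ2] at h2
    field_simp
    linear_combination -h2
  have hκn : ‖κ‖ ^ 2 * (1 + ‖c‖ ^ 2) ^ p = (1 + ‖c'‖ ^ 2) ^ p := by
    have h1 := tau_inner b c c (ne _ hcb) (ne _ hcb)
    rw [inner_self_eq_norm_sq_to_K, inner_self_eq_norm_sq_to_K, ← hc'] at h1
    have h2 : (1 + inner ℂ b c : ℂ) * (1 + inner ℂ c b) = ((‖(1 + inner ℂ c b : ℂ)‖ ^ 2 : ℝ) : ℂ) := by
      have h3 : (1 + inner ℂ b c : ℂ) = (starRingEnd ℂ) (1 + inner ℂ c b) := by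
        rw [map_add, map_one, inner_conj_symm]
      rw [h3, Complex.conj_mul']
      push_cast
      rfl
    rw [h2, hrC] at h1
    have h4 : (1 + ‖c'‖ ^ 2) * ‖(1 + inner ℂ c b : ℂ)‖ ^ 2 = r * (1 + ‖c‖ ^ 2) := by
      have h5 : (((1 + ‖c'‖ ^ 2) * ‖(1 + inner ℂ c b : ℂ)‖ ^ 2 : ℝ) : ℂ) =
          ((r * (1 + ‖c‖ ^ 2) : ℝ) : ℂ) := by
        push_cast
        push_cast at h1
        exact h1
      exact_mod_cast h5
    have h5 := congrArg (fun x : ℝ => x ^ p) h4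
    rw [Real.mul_rpow (by positivity) (by positivity), Real.mul_rpow hr0.le (by positivity)] at h5
    have h6 : ‖κ‖ = ρ / ‖(1 + inner ℂ c b : ℂ)‖ ^ p := by
      rw [hκ, norm_div, Complex.norm_cpow_real, Complex.norm_real, Real.norm_of_nonneg hρ0.le]
    have h7 : 0 < ‖(1 + inner ℂ c b : ℂ)‖ := norm_pos_iff.2 (ne _ hbc)
    have h8 : (‖(1 + inner ℂ c b : ℂ)‖ ^ 2) ^ p = (‖(1 + inner ℂ c b : ℂ)‖ ^ p) ^ 2 := by
      rw [← Real.rpow_natCast, ← Real.rpow_mul h7.le, ← Real.rpow_natCast, ← Real.rpow_mul h7.le,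
        mul_comm]
    have h9 : 0 < ‖(1 + inner ℂ c b : ℂ)‖ ^ p := Real.rpow_pos_of_pos h7 _
    have h10 : ρ ^ 2 = r ^ p := by
      rw [hρ, sq, ← Real.rpow_add hr0]
      congr 1
      ring
    rw [h8] at h5
    rw [h6, div_pow, h10]
    field_simp
    linarith
  -- the functional
  let φ : T → E := fun u => v (tau b u)
  let ψ : T → E := fun u => μ u • v u
  let l : (T →₀ ℂ) →ₗ[ℂ] ℂ := κ • (f.toLinearMap.comp (Finsupp.linearCombination ℂ ψ))
  have hball : ∀ u ∈ T, tau b u ∈ ball (0 : W) 1 := by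
    intro u hu
    rw [mem_ball_zero_iff]
    linarith [hu.2.2.1]
  have hφψ : ∀ i j : T, inner ℂ (φ i) (J (φ j)) = inner ℂ (ψ i) (J (ψ j)) := by
    intro i j
    simp only [φ, ψ, map_smul, inner_smul_left, inner_smul_right]
    rw [hΦ.ker _ (hball _ j.2) _ (hball _ i.2), hΦ.ker _ (hS j.2.1) _ (hS i.2.1),
      ← hM _ j.2 _ i.2]
    ring
  have hl : ∀ a, ‖l a‖ ^ 2 ≤ (1 + ‖c'‖ ^ 2) ^ p *
      (inner ℂ (Finsupp.linearCombination ℂ φ a) (J (Finsupp.linearCombination ℂ φ a))).re := by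
    intro a
    rw [inner_lc_eq J hφψ a]
    have hmem : Finsupp.linearCombination ℂ ψ a ∈ Submodule.span ℂ (v '' S) := by
      have h1 : Finsupp.linearCombination ℂ ψ a ∈ LinearMap.range (Finsupp.linearCombination ℂ ψ) :=
        LinearMap.mem_range_self _ _
      rw [Finsupp.range_linearCombination] at h1
      refine (Submodule.span_le.2 ?_) h1
      rintro _ ⟨u, rfl⟩
      exact Submodule.smul_mem _ _ (Submodule.subset_span ⟨u, u.2.1, rfl⟩)
    have h2 := hbound _ hmem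
    have h3 : l a = κ * f (Finsupp.linearCombination ℂ ψ a) := rfl
    rw [h3, norm_mul, mul_pow, ← hκn, mul_assoc]
    exact mul_le_mul_of_nonneg_left h2 (by positivity)
  obtain ⟨f', hf', hn⟩ := exists_functional φ J l (by positivity) hl
  refine ⟨tau b '' T, f', ?_, ?_, ?_, ?_, hn⟩
  · rintro _ ⟨u, hu, rfl⟩
    exact hball u hu
  · rw [accPt_iff_nhds] at hacc ⊢
    intro U hU
    have h1 : tau b ⁻¹' U ∈ 𝓝 b := by
      apply tau_cont.preimage_mem_nhds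
      rwa [tau_self]
    obtain ⟨u, ⟨hu1, hu2⟩, hne⟩ := hacc _ (Filter.inter_mem h1 hNb)
    have huT : u ∈ T := ⟨hu2, hu1.2⟩
    refine ⟨tau b u, ⟨hu1.1, u, huT, rfl⟩, fun h0 => hne ?_⟩
    exact tau_zero (ne _ (hbu u huT)) h0
  · intro x hx
    have h1 : x ∈ LinearMap.range (Finsupp.linearCombination ℂ φ) := by
      rw [Finsupp.range_linearCombination]
      refine (Submodule.span_mono ?_) hx
      rintro _ ⟨_, ⟨u, hu, rfl⟩, rfl⟩
      exact ⟨⟨u, hu⟩, rfl⟩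
    obtain ⟨a, rfl⟩ := h1
    rw [hf' a]
    exact hl a
  · rintro _ ⟨u, hu, rfl⟩
    refine ⟨hcu' u hu, ?_⟩
    have h1 := hf' (Finsupp.single ⟨u, hu⟩ 1)
    rw [Finsupp.linearCombination_single, one_smul] at h1
    have h2 : l (Finsupp.single ⟨u, hu⟩ 1) = κ * (μ u * f (v u)) := by
      simp only [l, LinearMap.smul_apply, LinearMap.comp_apply, Finsupp.linearCombination_single,
        one_smul, ψ]
      simp
    have h3 : φ ⟨u, hu⟩ = v (tau b u) := rfl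
    rw [← h3, h1, h2, (hrel u hu.1).2, hK u hu]

end generalW

end J4791

export J4791 (recenter_Good)

end PFrame
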