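import Pool.Agent.Helper237.PF.Defs
import Pool.Agent.Helper237.PF.HullHH
import Pool.Agent.Helper237.PF.Hyper
import Pool.Agent.Helper237.PF.Proj
import Pool.Agent.Helper237.PF.Quad
import Pool.Agent.Helper237.PF.RecGood
import Pool.Agent.Helper237.PF.Tau

set_option autoImplicit false

open Metric Set Filter Topology

namespace PFrame

namespace J4795

section kernel

variable {W : Type} [NormedAddCommGroup W] [InnerProductSpace ℂ W]

variable {E : Type} [NormedAddCommGroup E] [InnerProductSpace ℂ E]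

end kernel

section generalW

variable {W : Type} [NormedAddCommGroup W] [InnerProductSpace ℂ W]
  {E : Type} [NormedAddCommGroup E] [InnerProductSpace ℂ E]
  {p : ℝ} {v : W → E} {J : E →L[ℂ] E}

end generalW

section main

variable {p : ℝ} {d : ℕ} {E : Type} [NormedAddCommGroup E] [InnerProductSpace ℂ E]
  [CompleteSpace E] {v : EuclideanSpace ℂ (Fin (d + 1)) → E} {J : E →L[ℂ] E}

/-- good data can be moved -/
theorem good_move (hp : 0 < p) (hno : NoPD p d) (hΦ : IsFeat p v J)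
    {c : EuclideanSpace ℂ (Fin (d + 1))} {S : Set (EuclideanSpace ℂ (Fin (d + 1)))}
    {f : E →L[ℂ] ℂ} (hG : Good p v J c S f) :
    ∃ c' S' f', Good p v J c' S' f' ∧ ‖c‖ < ‖c'‖ := by
  have hc0 : 0 ≤ ‖c‖ := norm_nonneg c
  obtain ⟨ρ, hρ⟩ : ∃ ρ : ℝ, ρ = 1 / (2 * (1 + ‖c‖)) := ⟨_, rfl⟩
  have hρpos : 0 < ρ := by rw [hρ]; positivity
  have hρmul : ρ * (1 + ‖c‖) = 1 / 2 := by
    rw [hρ]; field_simp
  have hρhalf : ρ ≤ 1 / 2 := by nlinarith
  have hcρ : ‖c‖ * ρ ≤ 1 / 2 := by nlinarith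
  set U : Set (EuclideanSpace ℂ (Fin (d + 1))) := ball 0 ρ with hU
  have hU1 : U ⊆ ball 0 1 := ball_subset_ball (by linarith)
  have hSHH : S ⊆ HH v S := fun s hs =>
    ⟨hG.sub hs, Submodule.le_topologicalClosure _ (Submodule.subset_span ⟨s, hs, rfl⟩)⟩
  set T : Set (EuclideanSpace ℂ (Fin (d + 1))) := S ∩ U with hT
  have hTacc : AccPt 0 (𝓟 T) := by
    have := (accPt_iff_frequently.1 hG.acc)
    rw [accPt_iff_frequently]
    have hev : ∀ᶠ y in 𝓝 (0 : EuclideanSpace ℂ (Fin (d + 1))), y ∈ U :=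
      ball_mem_nhds 0 hρpos
    exact (this.and_eventually hev).mono fun y hy => ⟨hy.1.1, hy.1.2, hy.2⟩
  set H := hull U T with hH
  have hHHH : H ⊆ HH v S := hull_subset_HH hΦ hU1 (fun s hs => hSHH hs.1)
  have hHU : H ⊆ U := fun z hz => hz.1
  have hH1 : H ⊆ ball 0 1 := hHU.trans hU1
  have hPDS : PD p (HH v S) := PD_HH hΦ hG.sub (good_PD hΦ hG)
  have hPDH : PD p H := fun s a hs => hPDS s a (hs.trans hHHH)
  have hinner : ∀ z ∈ U, ‖inner ℂ c z‖ ≤ 1 / 2 := by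
    intro z hz
    have h1 : ‖z‖ < ρ := by simpa [hU] using hz
    calc ‖inner ℂ c z‖ ≤ ‖c‖ * ‖z‖ := norm_inner_le_norm c z
      _ ≤ ‖c‖ * ρ := by gcongr
      _ ≤ 1 / 2 := hcρ
  have hslit : ∀ z ∈ U, 1 + inner ℂ c z ∈ Complex.slitPlane := by
    intro z hz
    have h1 := hinner z hz
    have h2 := Complex.abs_re_le_norm (inner ℂ c z)
    left
    have h3 := (abs_le.1 (h2.trans h1)).1
    simp only [Complex.add_re, Complex.one_re]
    linarith
  have hsmooth : ContDiffOn ℂ 1 (fun z => f (v z) - (1 + inner ℂ c z) ^ (p : ℂ)) U := by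
    apply ContDiffOn.sub
    · exact f.contDiff.comp_contDiffOn (hΦ.smooth.mono hU1)
    · have hl : ContDiffOn ℂ 1 (fun z : EuclideanSpace ℂ (Fin (d + 1)) => 1 + inner ℂ c z) U := by
        have : ContDiff ℂ 1 (fun z : EuclideanSpace ℂ (Fin (d + 1)) => 1 + innerSL ℂ c z) :=
          contDiff_const.add (innerSL ℂ c).contDiff
        exact this.contDiffOn
      have hexp : ContDiffOn ℂ 1 (fun z : EuclideanSpace ℂ (Fin (d + 1)) =>
          Complex.exp (Complex.log (1 + inner ℂ c z) * p)) U := by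
        apply ContDiffOn.cexp
        apply ContDiffOn.mul _ contDiffOn_const
        intro z hz
        exact ContDiffAt.comp_contDiffWithinAt (g := Complex.log)
          (f := fun z : EuclideanSpace ℂ (Fin (d + 1)) => 1 + inner ℂ c z) z
          (Complex.contDiffAt_log (hslit z hz)) (hl z hz)
      refine hexp.congr fun z hz => ?_
      rw [Complex.cpow_def_of_ne_zero (Complex.slitPlane_ne_zero (hslit z hz))]
  have hHrel : ∀ s ∈ H, ‖inner ℂ c s‖ ≤ 1 / 2 ∧ f (v s) = (1 + inner ℂ c s) ^ (p : ℂ) := by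
    intro s hs
    refine ⟨hinner s (hHU hs), ?_⟩
    have := hs.2 _ hsmooth (fun t ht => by
      rw [(hG.rel t ht.1).2, sub_self])
    exact sub_eq_zero.1 this
  have hboundMM : ∀ x ∈ MM v S, ‖f x‖ ^ 2 ≤ (1 + ‖c‖ ^ 2) ^ p * (inner ℂ x (J x)).re := by
    intro x hx
    have hcl : IsClosed {x : E | ‖f x‖ ^ 2 ≤ (1 + ‖c‖ ^ 2) ^ p * (inner ℂ x (J x)).re} := by
      apply isClosed_le
      · fun_prop
      · have h1 : Continuous fun x : E => inner ℂ x (J x) := by fun_prop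
        exact continuous_const.mul (Complex.continuous_re.comp h1)
    have hx' : x ∈ closure ((Submodule.span ℂ (v '' S) : Submodule ℂ E) : Set E) := hx
    exact closure_minimal (fun y hy => hG.bound y hy) hcl hx'
  have hbound : ∀ x ∈ Submodule.span ℂ (v '' H),
      ‖f x‖ ^ 2 ≤ (1 + ‖c‖ ^ 2) ^ p * (inner ℂ x (J x)).re := by
    intro x hx
    refine hboundMM x ?_
    refine (Submodule.span_le.2 ?_) hx
    rintro _ ⟨z, hz, rfl⟩
    exact (hHHH hz).2
  have hUo : IsOpen U := isOpen_ball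
  have h0U : (0 : EuclideanSpace ℂ (Fin (d + 1))) ∈ U := mem_ball_self hρpos
  have key : ∀ ℓ : EuclideanSpace ℂ (Fin (d + 1)) →L[ℂ] ℂ, ℓ ≠ 0 →
      ∀ᶠ t in 𝓝 (0 : ℂ), ∃ b ∈ H, ℓ b = t ∧ ∃ S' f', Good p v J (tau b c) S' f' := by
    intro ℓ hℓ
    have hiso := hyper hno hH1 hPDH (b := 0) (mem_ball_self one_pos) ℓ hℓ
    have := proj ℓ hℓ hUo h0U (S := T) (fun s hs => hs.2) hTacc hiso (V := univ) univ_mem
    filter_upwards [this] with t ht
    obtain ⟨z, hz, hzt, hacc⟩ := ht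
    refine ⟨z, hz.1, by simpa using hzt, ?_⟩
    have hzn : ‖z‖ < ρ := by simpa [hU] using hHU hz.1
    exact recenter_Good hp hΦ hH1 hbound hHrel (by linarith) (hinner z (hHU hz.1)) hacc
  have hnorm : ∀ b ∈ H, (1 + ‖tau b c‖ ^ 2) * ‖1 + inner ℂ c b‖ ^ 2 =
      (1 + ‖b‖ ^ 2) * (1 + ‖c‖ ^ 2) := by
    intro b hb
    have h1 : (1 + inner ℂ c b) ≠ 0 := Complex.slitPlane_ne_zero (hslit b (hHU hb))
    have hconj : (1 + inner ℂ b c : ℂ) = (starRingEnd ℂ) (1 + inner ℂ c b) := by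
      rw [map_add, map_one, inner_conj_symm]
    have h2 : (1 + inner ℂ b c : ℂ) ≠ 0 := by
      rw [hconj]; exact (map_ne_zero _).2 h1
    have h3 := tau_inner b c c h2 h2
    rw [hconj] at h3
    rw [inner_self_eq_norm_sq_to_K, inner_self_eq_norm_sq_to_K] at h3
    have h4 : (starRingEnd ℂ) (1 + inner ℂ c b) * (1 + inner ℂ c b) =
        ((‖1 + inner ℂ c b‖ ^ 2 : ℝ) : ℂ) := by
      rw [mul_comm, Complex.mul_conj, Complex.normSq_eq_norm_sq]
    rw [h4] at h3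
    have h5 : (((1 + ‖tau b c‖ ^ 2) * ‖1 + inner ℂ c b‖ ^ 2 : ℝ) : ℂ) =
      (((1 + ‖b‖ ^ 2) * (1 + ‖c‖ ^ 2) : ℝ) : ℂ) := by
      push_cast
      push_cast at h3
      exact h3
    exact_mod_cast h5
  have hfin : ∀ b ∈ H, (b ≠ 0 ∨ c ≠ 0) → (b ≠ 0 ∧ c = 0 ∨ ‖1 + inner ℂ c b‖ < 1) →
      ‖c‖ < ‖tau b c‖ := by
    intro b hb _ hor
    have h1 := hnorm b hb
    have hb2 : 0 ≤ ‖b‖ ^ 2 := by positivity
    have hc2 : 0 ≤ ‖c‖ ^ 2 := by positivity
    have : ‖c‖ ^ 2 < ‖tau b c‖ ^ 2 := by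
      rcases hor with ⟨hb0, rfl⟩ | hlt
      · have : 0 < ‖b‖ ^ 2 := by positivity
        simp only [inner_zero_left, add_zero, norm_one, one_pow, mul_one, norm_zero] at h1 ⊢
        nlinarith
      · have h2 : ‖1 + inner ℂ c b‖ ^ 2 < 1 := by
          have := norm_nonneg (1 + inner ℂ c b)
          nlinarith
        have h3 : 0 ≤ ‖tau b c‖ ^ 2 := by positivity
        nlinarith
    exact lt_of_pow_lt_pow_left₀ 2 (norm_nonneg _) this
  by_cases hc : c = 0
  · obtain ⟨ℓ, hℓ⟩ : ∃ ℓ : EuclideanSpace ℂ (Fin (d + 1)) →L[ℂ] ℂ, ℓ ≠ 0 := by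
      refine ⟨innerSL ℂ (EuclideanSpace.single 0 1), fun h => ?_⟩
      have := congrArg (fun g => g (EuclideanSpace.single (0 : Fin (d + 1)) (1 : ℂ))) h
      simp at this
    have hk := key ℓ hℓ
    have hne : ∃ᶠ t in 𝓝 (0 : ℂ), t ≠ 0 := by
      have : (𝓝[≠] (0 : ℂ)).NeBot := inferInstance
      exact (frequently_nhdsWithin_iff.1 (Filter.Eventually.frequently (f := 𝓝[≠] (0 : ℂ))
        (Filter.eventually_mem_set.2 self_mem_nhdsWithin))).mono fun x hx => hx.1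
    obtain ⟨t, ht0, b, hbH, hbt, S', f', hG'⟩ := (hne.and_eventually hk).exists
    have hb0 : b ≠ 0 := by
      rintro rfl
      exact ht0 (by rw [← hbt, map_zero])
    exact ⟨_, S', f', hG', hfin b hbH (Or.inl hb0) (Or.inl ⟨hb0, hc⟩)⟩
  · have hℓ : innerSL ℂ c ≠ 0 := by
      intro h
      have := congrArg (fun g => g c) h
      simp [hc] at this
    have hk := key (innerSL ℂ c) hℓ
    have hre : Tendsto (fun τ : ℝ => ((-τ : ℝ) : ℂ)) (𝓝 0) (𝓝 0) := by
      have : Continuous (fun τ : ℝ => ((-τ : ℝ) : ℂ)) := by fun_prop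
      simpa using this.tendsto 0
    have hk2 := hre.eventually hk
    have hpos : ∃ᶠ τ in 𝓝 (0 : ℝ), 0 < τ ∧ τ < 1 := by
      have h1 : ∃ᶠ τ in 𝓝[>] (0 : ℝ), 0 < τ ∧ τ < 1 := by
        apply Filter.Eventually.frequently
        exact Ioo_mem_nhdsGT one_pos
      exact (frequently_nhdsWithin_iff.1 h1).mono fun x hx => hx.1
    obtain ⟨τ, ⟨hτ0, hτ1⟩, b, hbH, hbt, S', f', hG'⟩ := (hpos.and_eventually hk2).exists
    refine ⟨_, S', f', hG', hfin b hbH (Or.inr hc) (Or.inr ?_)⟩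
    have : inner ℂ c b = ((-τ : ℝ) : ℂ) := by simpa using hbt
    rw [this]
    have h6 : (1 + ((-τ : ℝ) : ℂ)) = ((1 - τ : ℝ) : ℂ) := by push_cast; ring
    rw [h6, Complex.norm_real, Real.norm_eq_abs, abs_of_pos (by linarith)]
    linarith

end main

end J4795

export J4795 (good_move)

end PFrame
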