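import Pool.Agent.Helper237.PF.Defs

set_option autoImplicit false

open Metric Set Filter Topology

namespace PFrame

namespace J4802

section kernel

variable {W : Type} [NormedAddCommGroup W] [InnerProductSpace ℂ W]

variable {E : Type} [NormedAddCommGroup E] [InnerProductSpace ℂ E]

end kernel

/-- the inner product splits -/
theorem rf_inner_split {d : ℕ} {x0 : EuclideanSpace ℝ (Fin (d + 1))} (hx0 : ‖x0‖ = 1)
    (e : OrthonormalBasis (Fin d) ℝ (Submodule.span ℝ {x0})ᗮ)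
    (x y : EuclideanSpace ℝ (Fin (d + 1))) :
    inner ℝ x y = inner ℝ x0 x * inner ℝ x0 y +
      ∑ i, inner ℝ (e i : EuclideanSpace ℝ (Fin (d + 1))) x *
        inner ℝ (e i : EuclideanSpace ℝ (Fin (d + 1))) y := by
  have hmem : ∀ z : EuclideanSpace ℝ (Fin (d + 1)),
      z - inner ℝ x0 z • x0 ∈ (Submodule.span ℝ {x0})ᗮ := by
    intro z
    rw [Submodule.mem_orthogonal_singleton_iff_inner_right]
    rw [inner_sub_right, inner_smul_right, real_inner_self_eq_norm_sq, hx0]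
    ring
  have hperp : ∀ i, inner ℝ (e i : EuclideanSpace ℝ (Fin (d + 1))) x0 = 0 := by
    intro i
    exact (Submodule.mem_orthogonal_singleton_iff_inner_left).mp (e i).2
  have h1 := e.sum_inner_mul_inner ⟨_, hmem x⟩ ⟨_, hmem y⟩
  simp only [Submodule.coe_inner] at h1
  have h2 : ∀ i, inner ℝ (x - inner ℝ x0 x • x0) (e i : EuclideanSpace ℝ (Fin (d + 1))) =
      inner ℝ (e i : EuclideanSpace ℝ (Fin (d + 1))) x := by
    intro i
    rw [real_inner_comm, inner_sub_right, inner_smul_right, hperp i]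
    ring
  have h3 : ∀ i, inner ℝ (e i : EuclideanSpace ℝ (Fin (d + 1))) (y - inner ℝ x0 y • x0) =
      inner ℝ (e i : EuclideanSpace ℝ (Fin (d + 1))) y := by
    intro i
    rw [inner_sub_right, inner_smul_right, hperp i]
    ring
  simp only [h2, h3] at h1
  rw [h1, inner_sub_left, inner_sub_right, inner_sub_right, inner_smul_left, inner_smul_left,
    inner_smul_right, inner_smul_right, real_inner_self_eq_norm_sq, hx0, real_inner_comm x0 x]
  simp
  ring

/-- the chart -/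
noncomputable def rfu {d : ℕ} (x0 : EuclideanSpace ℝ (Fin (d + 1)))
    (e : OrthonormalBasis (Fin d) ℝ (Submodule.span ℝ {x0})ᗮ)
    (x : EuclideanSpace ℝ (Fin (d + 1))) : EuclideanSpace ℂ (Fin d) :=
  WithLp.toLp 2 (fun i => ((inner ℝ (e i : EuclideanSpace ℝ (Fin (d + 1))) x /
    inner ℝ x0 x : ℝ) : ℂ))

theorem rfu_inner {d : ℕ} {x0 : EuclideanSpace ℝ (Fin (d + 1))} (hx0 : ‖x0‖ = 1)
    (e : OrthonormalBasis (Fin d) ℝ (Submodule.span ℝ {x0})ᗮ)
    (x y : EuclideanSpace ℝ (Fin (d + 1))) (hx : 0 < inner ℝ x0 x) (hy : 0 < inner ℝ x0 y) :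
    1 + inner ℂ (rfu x0 e y) (rfu x0 e x) =
      ((inner ℝ x y / (inner ℝ x0 x * inner ℝ x0 y) : ℝ) : ℂ) := by
  have h1 : inner ℂ (rfu x0 e y) (rfu x0 e x) =
      ((∑ i, (inner ℝ (e i : EuclideanSpace ℝ (Fin (d + 1))) x / inner ℝ x0 x) *
        (inner ℝ (e i : EuclideanSpace ℝ (Fin (d + 1))) y / inner ℝ x0 y) : ℝ) : ℂ) := by
    rw [PiLp.inner_apply]
    push_cast
    apply Finset.sum_congr rfl
    intro i _
    simp only [rfu]
    rw [RCLike.inner_apply, Complex.conj_ofReal]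
    push_cast
    ring
  rw [h1, rf_inner_split hx0 e x y]
  rw [← Complex.ofReal_one, ← Complex.ofReal_add]
  congr 1
  have h2 : ∑ i, (inner ℝ (e i : EuclideanSpace ℝ (Fin (d + 1))) x / inner ℝ x0 x) *
        (inner ℝ (e i : EuclideanSpace ℝ (Fin (d + 1))) y / inner ℝ x0 y) =
      (∑ i, inner ℝ (e i : EuclideanSpace ℝ (Fin (d + 1))) x *
        inner ℝ (e i : EuclideanSpace ℝ (Fin (d + 1))) y) / (inner ℝ x0 x * inner ℝ x0 y) := by
    rw [Finset.sum_div]
    apply Finset.sum_congr rfl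
    intro i _
    rw [div_mul_div_comm]
  rw [h2, add_div, div_self (mul_pos hx hy).ne']

theorem rfu_norm {d : ℕ} {x0 : EuclideanSpace ℝ (Fin (d + 1))} (hx0 : ‖x0‖ = 1)
    (e : OrthonormalBasis (Fin d) ℝ (Submodule.span ℝ {x0})ᗮ)
    (x : EuclideanSpace ℝ (Fin (d + 1))) (hx : 0 < inner ℝ x0 x) (hx1 : ‖x‖ = 1) :
    1 + ‖rfu x0 e x‖ ^ 2 = 1 / (inner ℝ x0 x) ^ 2 := by
  have h1 := rfu_inner hx0 e x x hx hx
  rw [inner_self_eq_norm_sq_to_K, real_inner_self_eq_norm_sq, hx1] at h1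
  have h2 := congrArg Complex.re h1
  rw [Complex.ofReal_re, Complex.add_re, Complex.one_re] at h2
  have h3 : (((‖rfu x0 e x‖ : ℂ)) ^ 2).re = ‖rfu x0 e x‖ ^ 2 := by
    rw [← Complex.ofReal_pow, Complex.ofReal_re]
  have h4 : (((‖rfu x0 e x‖ : ℝ) : ℂ) ^ 2).re = ‖rfu x0 e x‖ ^ 2 := h3
  simp only [one_pow] at h2
  rw [pow_two (inner ℝ x0 x), ← h2]
  congr 1
  exact h4.symm

/-- finiteness of positive semidefinite sets on the real sphere -/
theorem real_finite {p : ℝ} {d : ℕ} (hno : NoPD p d)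
    (S : Set (EuclideanSpace ℝ (Fin (d + 1)))) (hS : S ⊆ sphere 0 1)
    (hPD : ∀ (s : Finset (EuclideanSpace ℝ (Fin (d + 1))))
      (a : EuclideanSpace ℝ (Fin (d + 1)) → ℝ), (↑s ⊆ S) →
      0 ≤ ∑ x ∈ s, ∑ y ∈ s, a x * a y * |inner ℝ x y| ^ p) : S.Finite := by
  classical
  by_contra hinf
  have hinf' : S.Infinite := hinf
  obtain ⟨x0, hx0S, hacc⟩ := hinf'.exists_accPt_of_subset_isCompact (isCompact_sphere 0 1) hS
  have hx0 : ‖x0‖ = 1 := by simpa using hx0S
  have hx0ne : x0 ≠ 0 := by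
    intro h; rw [h, norm_zero] at hx0; exact zero_ne_one hx0
  haveI : Fact (Module.finrank ℝ (EuclideanSpace ℝ (Fin (d + 1))) = d + 1) := ⟨by simp⟩
  let e : OrthonormalBasis (Fin d) ℝ (Submodule.span ℝ {x0})ᗮ :=
    OrthonormalBasis.fromOrthogonalSpanSingleton d hx0ne
  set N : Set (EuclideanSpace ℝ (Fin (d + 1))) := S ∩ ball x0 (1 / 2) with hN
  have hnorm : ∀ x ∈ N, ‖x‖ = 1 := by
    intro x hx
    have := hS hx.1
    simpa using this
  have hin : ∀ x y : EuclideanSpace ℝ (Fin (d + 1)), ‖x‖ = 1 → ‖y‖ = 1 →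
      inner ℝ x y = 1 - ‖x - y‖ ^ 2 / 2 := by
    intro x y hx hy
    have := @norm_sub_sq_real (EuclideanSpace ℝ (Fin (d + 1))) _ _ x y
    rw [hx, hy] at this
    linarith
  have hpos0 : ∀ x ∈ N, 7 / 8 < inner ℝ x0 x := by
    intro x hx
    rw [hin x0 x hx0 (hnorm x hx)]
    have h1 : ‖x0 - x‖ < 1 / 2 := by
      have := hx.2
      rw [mem_ball, dist_comm, dist_eq_norm] at this
      exact this
    have h2 : 0 ≤ ‖x0 - x‖ := norm_nonneg _
    nlinarith
  have hpos1 : ∀ x ∈ N, ∀ y ∈ N, 0 < inner ℝ x y := by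
    intro x hx y hy
    rw [hin x y (hnorm x hx) (hnorm y hy)]
    have h1 : ‖x - y‖ < 1 := by
      have h3 := hx.2
      have h4 := hy.2
      rw [mem_ball] at h3 h4
      rw [← dist_eq_norm]
      calc dist x y ≤ dist x x0 + dist x0 y := dist_triangle _ _ _
        _ < 1 := by rw [dist_comm x0 y]; linarith
    have h2 : 0 ≤ ‖x - y‖ := norm_nonneg _
    nlinarith
  have hp0 : ∀ x ∈ N, 0 < inner ℝ x0 x := fun x hx => lt_trans (by norm_num) (hpos0 x hx)
  apply hno (rfu x0 e '' N)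
  · rintro _ ⟨x, hx, rfl⟩
    rw [mem_ball_zero_iff]
    have h1 := rfu_norm hx0 e x (hp0 x hx) (hnorm x hx)
    have h2 := hpos0 x hx
    have h3 : 1 / (inner ℝ x0 x) ^ 2 < 2 := by
      rw [div_lt_iff₀ (by nlinarith)]
      nlinarith
    have h4 : ‖rfu x0 e x‖ ^ 2 < 1 := by linarith
    nlinarith [norm_nonneg (rfu x0 e x)]
  · intro s a hs
    -- choose preimages
    have hch : ∀ u : EuclideanSpace ℂ (Fin d), ∃ x, u ∈ s → (x ∈ N ∧ rfu x0 e x = u) := by
      intro u
      by_cases hu : u ∈ s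
      · obtain ⟨x, hx, hxu⟩ := hs hu
        exact ⟨x, fun _ => ⟨hx, hxu⟩⟩
      · exact ⟨0, fun h => absurd h hu⟩
    choose g hg using hch
    have hginj : Set.InjOn g s := by
      intro u hu w hw h
      rw [← (hg u hu).2, ← (hg w hw).2, h]
    have hker : ∀ u ∈ s, ∀ w ∈ s, (1 + inner ℂ w u) ^ (p : ℂ) =
        ((|inner ℝ (g u) (g w)| ^ p / (inner ℝ x0 (g u) ^ p * inner ℝ x0 (g w) ^ p) : ℝ) : ℂ) := by
      intro u hu w hw
      have h1 := rfu_inner hx0 e (g u) (g w) (hp0 _ (hg u hu).1) (hp0 _ (hg w hw).1)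
      rw [(hg u hu).2, (hg w hw).2] at h1
      have h2 := hpos1 _ (hg u hu).1 _ (hg w hw).1
      have h3 := hp0 _ (hg u hu).1
      have h4 := hp0 _ (hg w hw).1
      rw [h1, ← Complex.ofReal_cpow (div_pos h2 (mul_pos h3 h4)).le,
        Real.div_rpow h2.le (mul_pos h3 h4).le, Real.mul_rpow h3.le h4.le, abs_of_pos h2]
    have hreal : ∀ b : EuclideanSpace ℂ (Fin d) → ℝ,
        0 ≤ ∑ u ∈ s, ∑ w ∈ s, b u * b w * (|inner ℝ (g u) (g w)| ^ p /
          (inner ℝ x0 (g u) ^ p * inner ℝ x0 (g w) ^ p)) := by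
      intro b
      have h1 := hPD (s.image g) (fun x => b (rfu x0 e x) / (inner ℝ x0 x) ^ p) (by
        intro x hx
        rw [Finset.coe_image] at hx
        obtain ⟨u, hu, rfl⟩ := hx
        exact (hg u hu).1.1)
      rw [Finset.sum_image hginj] at h1
      refine h1.trans (le_of_eq ?_)
      apply Finset.sum_congr rfl
      intro u hu
      rw [Finset.sum_image hginj]
      apply Finset.sum_congr rfl
      intro w hw
      rw [(hg u hu).2, (hg w hw).2]
      rw [div_mul_div_comm, div_mul_eq_mul_div, mul_div_assoc]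
    have hexp : (∑ u ∈ s, ∑ w ∈ s, a u * (starRingEnd ℂ) (a w) * (1 + inner ℂ w u) ^ (p : ℂ)).re =
        ∑ u ∈ s, ∑ w ∈ s, (a u).re * (a w).re * (|inner ℝ (g u) (g w)| ^ p /
          (inner ℝ x0 (g u) ^ p * inner ℝ x0 (g w) ^ p)) +
        ∑ u ∈ s, ∑ w ∈ s, (a u).im * (a w).im * (|inner ℝ (g u) (g w)| ^ p /
          (inner ℝ x0 (g u) ^ p * inner ℝ x0 (g w) ^ p)) := by
      rw [Complex.re_sum, ← Finset.sum_add_distrib]
      apply Finset.sum_congr rfl
      intro u hu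
      rw [Complex.re_sum, ← Finset.sum_add_distrib]
      apply Finset.sum_congr rfl
      intro w hw
      rw [hker u hu w hw, Complex.mul_re, Complex.ofReal_re, Complex.ofReal_im, mul_zero, sub_zero,
        Complex.mul_re, Complex.conj_re, Complex.conj_im]
      ring
    rw [hexp]
    exact add_nonneg (hreal fun u => (a u).re) (hreal fun u => (a u).im)
  · rw [accPt_iff_nhds] at hacc ⊢
    intro U hU
    have hperp : ∀ i, inner ℝ (e i : EuclideanSpace ℝ (Fin (d + 1))) x0 = 0 := by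
      intro i
      exact (Submodule.mem_orthogonal_singleton_iff_inner_left).mp (e i).2
    have hu0 : rfu x0 e x0 = 0 := by
      unfold rfu
      ext i
      simp [hperp i]
    have hcont : ContinuousAt (rfu x0 e) x0 := by
      unfold rfu
      apply (PiLp.continuous_toLp 2 _).continuousAt.comp
      rw [continuousAt_pi]
      intro i
      apply Complex.continuous_ofReal.continuousAt.comp
      apply ContinuousAt.div
      · exact (continuous_const.inner continuous_id).continuousAt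
      · exact (continuous_const.inner continuous_id).continuousAt
      · rw [real_inner_self_eq_norm_sq, hx0]; norm_num
    have hpre : rfu x0 e ⁻¹' U ∈ 𝓝 x0 := by
      apply hcont
      rw [hu0]; exact hU
    obtain ⟨x, ⟨hx1, hx2⟩, hx3⟩ := hacc (rfu x0 e ⁻¹' U ∩ ball x0 (1 / 2))
      (Filter.inter_mem hpre (ball_mem_nhds _ (by norm_num)))
    have hxN : x ∈ N := ⟨hx2, hx1.2⟩
    refine ⟨rfu x0 e x, ⟨hx1.1, ⟨x, hxN, rfl⟩⟩, ?_⟩
    intro h0
    apply hx3
    have h1 := rfu_norm hx0 e x (hp0 x hxN) (hnorm x hxN)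
    rw [h0, norm_zero] at h1
    have h2 := hp0 x hxN
    have h3 : (inner ℝ x0 x) ^ 2 = 1 := by
      have h5 : (inner ℝ x0 x) ^ 2 ≠ 0 := by positivity
      field_simp at h1
      linarith
    have h4 : inner ℝ x0 x = 1 := by nlinarith
    have h5 := hin x0 x hx0 (hnorm x hxN)
    rw [h4] at h5
    have h6 : ‖x0 - x‖ ^ 2 = 0 := by linarith
    have h7 : ‖x0 - x‖ = 0 := by simpa using h6
    exact (sub_eq_zero.mp (norm_eq_zero.mp h7)).symm

end J4802

export J4802 (real_finite)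

end PFrame
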