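import Pool.Agent.Helper237.PF.Defs
import Pool.Agent.Helper237.PF.Farthest
import Pool.Agent.Helper237.PF.HullHH
import Pool.Agent.Helper237.PF.Hyper
import Pool.Agent.Helper237.PF.Quad

set_option autoImplicit false

open Metric Set Filter Topology

namespace PFrame

namespace J4798

section kernel

variable {W : Type} [NormedAddCommGroup W] [InnerProductSpace ℂ W]

variable {E : Type} [NormedAddCommGroup E] [InnerProductSpace ℂ E]

end kernel

section generalW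

variable {W : Type} [NormedAddCommGroup W] [InnerProductSpace ℂ W]
  {E : Type} [NormedAddCommGroup E] [InnerProductSpace ℂ E]
  {p : ℝ} {v : W → E} {J : E →L[ℂ] E}

end generalW

section main

variable {p : ℝ} {d : ℕ} {E : Type} [NormedAddCommGroup E] [InnerProductSpace ℂ E]
  [CompleteSpace E] {v : EuclideanSpace ℂ (Fin (d + 1)) → E} {J : E →L[ℂ] E}

theorem quot_close (x y : ℂ) (hx : ‖x - 1‖ < 1 / 8) (hy : ‖y - 1‖ < 1 / 8) :
    ‖x / y - 1‖ ≤ 1 / 2 := by
  have h1 : (7 : ℝ) / 8 ≤ ‖y‖ := by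
    have h2 : ‖(1 : ℂ)‖ ≤ ‖y‖ + ‖y - 1‖ := by
      have h3 := norm_sub_le y (y - 1)
      simpa using h3
    have h4 : ‖(1 : ℂ)‖ = 1 := norm_one
    linarith
  have hy0 : y ≠ 0 := by
    intro h
    rw [h, norm_zero] at h1
    linarith
  have h5 : x / y - 1 = ((x - 1) - (y - 1)) / y := by
    field_simp
    ring
  rw [h5, norm_div, div_le_iff₀ (by linarith)]
  have h6 := norm_sub_le (x - 1) (y - 1)
  linarith

theorem slit_of_close (x : ℂ) (hx : ‖x - 1‖ ≤ 1 / 2) : x ∈ Complex.slitPlane := by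
  left
  have h1 := Complex.abs_re_le_norm (x - 1)
  rw [abs_le] at h1
  have h2 : (x - 1).re = x.re - 1 := by simp
  rw [h2] at h1
  linarith [h1.1]

theorem cont_cpow (p : ℂ) (c : EuclideanSpace ℂ (Fin (d + 1))) (D : ℂ)
    (U : Set (EuclideanSpace ℂ (Fin (d + 1))))
    (h : ∀ u ∈ U, ‖(1 + inner ℂ c u) / D - 1‖ ≤ 1 / 2) :
    ContDiffOn ℂ 1 (fun u : EuclideanSpace ℂ (Fin (d + 1)) => ((1 + inner ℂ c u) / D) ^ p) U := by
  have h1 : ContDiff ℂ 1 (fun u : EuclideanSpace ℂ (Fin (d + 1)) => (1 + inner ℂ c u) / D) := by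
    have h2 : ContDiff ℂ 1 (fun u : EuclideanSpace ℂ (Fin (d + 1)) => inner ℂ c u) :=
      (innerSL ℂ c).contDiff
    exact (contDiff_const.add h2).div_const D
  have h3 : ContDiffOn ℂ 1 (fun u : EuclideanSpace ℂ (Fin (d + 1)) =>
      Complex.exp (Complex.log ((1 + inner ℂ c u) / D) * p)) U := by
    apply ContDiffOn.cexp
    apply ContDiffOn.mul _ contDiffOn_const
    intro u hu
    apply ContDiffAt.contDiffWithinAt
    exact (Complex.contDiffAt_log (slit_of_close _ (h u hu))).comp u h1.contDiffAt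
  apply h3.congr
  intro u hu
  rw [Complex.cpow_def_of_ne_zero (Complex.slitPlane_ne_zero (slit_of_close _ (h u hu)))]

theorem acc_inter {W : Type*} [NormedAddCommGroup W] {b : W} {T : Set W} {ρ : ℝ} (hρ : 0 < ρ)
    (h : AccPt b (𝓟 T)) : AccPt b (𝓟 (T ∩ ball b ρ)) := by
  rw [accPt_iff_nhds] at h ⊢
  intro U hU
  obtain ⟨y, ⟨hy1, hy2⟩, hy3⟩ := h (U ∩ ball b ρ) (inter_mem hU (ball_mem_nhds b hρ))
  exact ⟨y, ⟨hy1.1, hy2, hy1.2⟩, hy3⟩

theorem acc_mono {W : Type*} [NormedAddCommGroup W] {b : W} {T T' : Set W} (hTT : T ⊆ T')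
    (h : AccPt b (𝓟 T)) : AccPt b (𝓟 T') := h.mono (principal_mono.mpr hTT)

theorem step (hno : NoPD p d) (hΦ : IsFeat p v J)
    {c : EuclideanSpace ℂ (Fin (d + 1))} {S : Set (EuclideanSpace ℂ (Fin (d + 1)))}
    (f : E →L[ℂ] ℂ) (hS : S ⊆ ball 0 1) (hPD : PD p S)
    (b : EuclideanSpace ℂ (Fin (d + 1))) (hb : Rel p v f c (HH v S) b) {ρ : ℝ} (hρ : 0 < ρ)
    (hU : ball b ρ ⊆ ball 0 1)
    (hcl : ∀ u ∈ ball b ρ, ‖(1 + inner ℂ c u) / (1 + inner ℂ c b) - 1‖ ≤ 1 / 2)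
    {r : ℝ} (hr : 0 < r) (hrρ : r < ρ) :
    ∃ z ∈ HH v S, ‖z - b‖ = r ∧
      f (v z) = f (v b) * ((1 + inner ℂ c z) / (1 + inner ℂ c b)) ^ (p : ℂ) := by
  obtain ⟨hbZ, hbne, hbn, T, hTZ, hTacc, hTrel⟩ := hb
  have hHsub : HH v S ⊆ ball 0 1 := fun u hu => hu.1
  have hPDH : PD p (HH v S) := PD_HH hΦ hS hPD
  have hsub : hull (ball b ρ) (T ∩ ball b ρ) ⊆ HH v S :=
    hull_subset_HH hΦ hU (fun u hu => hTZ hu.1)
  obtain ⟨z, hz, hzr⟩ := farthest b ρ (T ∩ ball b ρ) inter_subset_right (acc_inter hρ hTacc)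
    (fun b₁ hb₁ ℓ hℓ hacc => hyper hno hHsub hPDH (hU hb₁) ℓ hℓ
      (acc_mono (inter_subset_inter_left _ hsub) hacc)) r hr hrρ
  refine ⟨z, hsub hz, hzr, ?_⟩
  have h1 : ContDiffOn ℂ 1 (fun u : EuclideanSpace ℂ (Fin (d + 1)) =>
      f (v u) - f (v b) * ((1 + inner ℂ c u) / (1 + inner ℂ c b)) ^ (p : ℂ)) (ball b ρ) := by
    apply ContDiffOn.sub
    · exact f.contDiff.comp_contDiffOn (hΦ.smooth.mono hU)
    · exact contDiffOn_const.mul (cont_cpow (p : ℂ) c _ _ hcl)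
  have h2 := hz.2 _ h1 (fun s hs => by
    show f (v s) - f (v b) * ((1 + inner ℂ c s) / (1 + inner ℂ c b)) ^ (p : ℂ) = 0
    rw [(hTrel s hs.1).2, sub_self])
  exact sub_eq_zero.mp h2

theorem rel_closed (hp : 0 < p) (hno : NoPD p d) (hΦ : IsFeat p v J)
    {c : EuclideanSpace ℂ (Fin (d + 1))} {S : Set (EuclideanSpace ℂ (Fin (d + 1)))}
    (f : E →L[ℂ] ℂ) (hS : S ⊆ ball 0 1) (hPD : PD p S)
    (b : ℕ → EuclideanSpace ℂ (Fin (d + 1))) (hb : ∀ n, Rel p v f c (HH v S) (b n))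
    {b' : EuclideanSpace ℂ (Fin (d + 1))} (hlim : Tendsto b atTop (𝓝 b'))
    (hb' : b' ∈ ball (0 : EuclideanSpace ℂ (Fin (d + 1))) 1) (hne : 1 + inner ℂ c b' ≠ 0) :
    Rel p v f c (HH v S) b' := by
  have hvc : ∀ u ∈ ball (0 : EuclideanSpace ℂ (Fin (d + 1))) 1, ContinuousAt v u := fun u hu =>
    (hΦ.smooth.continuousOn).continuousAt (isOpen_ball.mem_nhds hu)
  have hMc : IsClosed (MM v S : Set E) := Submodule.isClosed_topologicalClosure _
  have hclos : ∀ (x : ℕ → EuclideanSpace ℂ (Fin (d + 1))) (x' : EuclideanSpace ℂ (Fin (d + 1))),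
      x' ∈ ball (0 : EuclideanSpace ℂ (Fin (d + 1))) 1 → Tendsto x atTop (𝓝 x') →
      (∀ n, x n ∈ HH v S) → x' ∈ HH v S := by
    intro x x' hx' hx hxn
    refine ⟨hx', ?_⟩
    exact hMc.mem_of_tendsto ((hvc x' hx').tendsto.comp hx)
      (Eventually.of_forall fun n => (hxn n).2)
  have hic : Continuous (fun u : EuclideanSpace ℂ (Fin (d + 1)) => 1 + inner ℂ c u) :=
    continuous_const.add (innerSL ℂ c).continuous
  have hA1 : Tendsto (fun u : EuclideanSpace ℂ (Fin (d + 1)) =>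
      (1 + inner ℂ c u) / (1 + inner ℂ c b') - 1) (𝓝 b') (𝓝 0) := by
    have h1 : Continuous (fun u : EuclideanSpace ℂ (Fin (d + 1)) =>
      (1 + inner ℂ c u) / (1 + inner ℂ c b') - 1) := (hic.div_const _).sub continuous_const
    have h2 := h1.tendsto b'
    simp only [div_self hne, sub_self] at h2
    exact h2
  have hev : ∀ᶠ u in 𝓝 b', u ∈ ball (0 : EuclideanSpace ℂ (Fin (d + 1))) 1 ∧
      ‖(1 + inner ℂ c u) / (1 + inner ℂ c b') - 1‖ < 1 / 8 := by
    refine Filter.Eventually.and (isOpen_ball.mem_nhds hb') ?_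
    have h2 := hA1.norm
    rw [norm_zero] at h2
    exact h2.eventually (gt_mem_nhds (by norm_num))
  obtain ⟨ε, hε, hball⟩ := Metric.eventually_nhds_iff_ball.mp hev
  set ρ : ℝ := ε / 2 with hρdef
  have hρ : 0 < ρ := by positivity
  have hne' : ∀ u ∈ ball b' ε, 1 + inner ℂ c u ≠ 0 := by
    intro u hu h0
    have h1 := (hball u hu).2
    rw [h0, zero_div, zero_sub, norm_neg, norm_one] at h1
    norm_num at h1
  have hquot : ∀ u ∈ ball b' ε, ∀ w ∈ ball b' ε,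
      ‖(1 + inner ℂ c u) / (1 + inner ℂ c w) - 1‖ ≤ 1 / 2 := by
    intro u hu w hw
    have h1 := quot_close _ _ (hball u hu).2 (hball w hw).2
    rwa [div_div_div_cancel_right₀ hne] at h1
  have hnear : ∀ᶠ n in atTop, b n ∈ ball b' ρ := hlim.eventually (ball_mem_nhds b' hρ)
  obtain ⟨n0, hn0⟩ := eventually_atTop.mp hnear
  have hsubball : ∀ n, n0 ≤ n → ball (b n) ρ ⊆ ball b' ε := by
    intro n hn u hu
    have h1 := hn0 n hn
    rw [mem_ball] at hu h1 ⊢
    have h2 := dist_triangle u (b n) b'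
    linarith
  have hbZ' : b' ∈ HH v S := hclos b b' hb' hlim (fun n => (hb n).1)
  have hfv : Tendsto (fun n => f (v (b n))) atTop (𝓝 (f (v b'))) :=
    (f.continuous.tendsto _).comp ((hvc b' hb').tendsto.comp hlim)
  have hib : Tendsto (fun n => 1 + inner ℂ c (b n)) atTop (𝓝 (1 + inner ℂ c b')) :=
    (hic.tendsto b').comp hlim
  have key : ∀ r : ℝ, 0 < r → r < ρ → ∃ z ∈ HH v S, ‖z - b'‖ = r ∧
      ‖(1 + inner ℂ c z) / (1 + inner ℂ c b') - 1‖ ≤ 1 / 2 ∧
      f (v z) = f (v b') * ((1 + inner ℂ c z) / (1 + inner ℂ c b')) ^ (p : ℂ) := by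
    intro r hr hrρ
    have hst : ∀ n, ∃ z ∈ HH v S, ‖z - b (n + n0)‖ = r ∧
      f (v z) = f (v (b (n + n0))) *
        ((1 + inner ℂ c z) / (1 + inner ℂ c (b (n + n0)))) ^ (p : ℂ) := by
      intro n
      have hn : n0 ≤ n + n0 := Nat.le_add_left _ _
      have hbb : b (n + n0) ∈ ball b' ε := hsubball (n + n0) hn (mem_ball_self hρ)
      exact step hno hΦ f hS hPD (b (n + n0)) (hb _) hρ
        (fun u hu => (hball u (hsubball _ hn hu)).1)
        (fun u hu => hquot u (hsubball _ hn hu) _ hbb) hr hrρ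
    choose z hzH hzr hzrel using hst
    have hzball : ∀ n, z n ∈ closedBall b' ε := by
      intro n
      have h1 : z n ∈ ball (b (n + n0)) ρ := by
        rw [mem_ball_iff_norm, hzr n]
        exact hrρ
      exact ball_subset_closedBall (hsubball _ (Nat.le_add_left _ _) h1)
    obtain ⟨a, ha, φ, hφ, hφt⟩ := (isCompact_closedBall b' ε).tendsto_subseq hzball
    have hbsub : Tendsto (fun n => b (φ n + n0)) atTop (𝓝 b') :=
      hlim.comp ((tendsto_add_atTop_nat n0).comp hφ.tendsto_atTop)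
    have hnorm : ‖a - b'‖ = r := by
      have h1 : Tendsto (fun n => ‖z (φ n) - b (φ n + n0)‖) atTop (𝓝 ‖a - b'‖) :=
        (hφt.sub hbsub).norm
      have h2 : Tendsto (fun n => ‖z (φ n) - b (φ n + n0)‖) atTop (𝓝 r) := by
        simp only [hzr]
        exact tendsto_const_nhds
      exact tendsto_nhds_unique h1 h2
    have haball : a ∈ ball b' ε := by
      rw [mem_ball_iff_norm, hnorm]
      linarith
    have ha1 := (hball a haball).1
    have hb'ball : b' ∈ ball b' ε := mem_ball_self hε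
    refine ⟨a, hclos _ a ha1 hφt (fun n => hzH _), hnorm, hquot a haball b' hb'ball, ?_⟩
    have hL : Tendsto (fun n => f (v (z (φ n)))) atTop (𝓝 (f (v a))) :=
      (f.continuous.tendsto _).comp ((hvc a ha1).tendsto.comp hφt)
    have hR : Tendsto (fun n => f (v (b (φ n + n0))) *
        ((1 + inner ℂ c (z (φ n))) / (1 + inner ℂ c (b (φ n + n0)))) ^ (p : ℂ)) atTop
        (𝓝 (f (v b') * ((1 + inner ℂ c a) / (1 + inner ℂ c b')) ^ (p : ℂ))) := by
      apply Tendsto.mul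
      · exact (f.continuous.tendsto _).comp ((hvc b' hb').tendsto.comp hbsub)
      · apply Tendsto.cpow _ tendsto_const_nhds
          (slit_of_close _ (hquot a haball b' hb'ball))
        exact ((hic.tendsto a).comp hφt).div ((hic.tendsto b').comp hbsub) hne
    refine tendsto_nhds_unique hL (hR.congr fun n => ?_)
    exact (hzrel (φ n)).symm
  refine ⟨hbZ', hne, ?_, {z | z ∈ HH v S ∧
      ‖(1 + inner ℂ c z) / (1 + inner ℂ c b') - 1‖ ≤ 1 / 2 ∧
      f (v z) = f (v b') * ((1 + inner ℂ c z) / (1 + inner ℂ c b')) ^ (p : ℂ)},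
      fun z hz => hz.1, ?_, fun z hz => hz.2⟩
  · have h1 : Tendsto (fun n => ‖1 + inner ℂ c (b n)‖ ^ p) atTop
        (𝓝 (‖1 + inner ℂ c b'‖ ^ p)) :=
      (hib.norm).rpow_const (Or.inr hp.le)
    refine tendsto_nhds_unique hfv.norm (h1.congr fun n => ?_)
    exact (hb n).2.2.1.symm
  · rw [accPt_iff_nhds]
    intro V hV
    obtain ⟨δ, hδ, hδV⟩ := Metric.mem_nhds_iff.mp hV
    have hm : 0 < min δ ρ := lt_min hδ hρ
    obtain ⟨z, hz1, hz2, hz3⟩ := key (min δ ρ / 2) (by positivity)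
      (by linarith [min_le_right δ ρ])
    refine ⟨z, ⟨hδV ?_, hz1, hz3⟩, ?_⟩
    · rw [mem_ball_iff_norm, hz2]
      linarith [min_le_left δ ρ]
    · intro h
      rw [h, sub_self, norm_zero] at hz2
      linarith

end main

end J4798

export J4798 (rel_closed)

end PFrame
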