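import Pool.Agent.Helper237.PF.Defs
import Pool.Agent.Helper237.PF.HullHH
import Pool.Agent.Helper237.PF.Hyper
import Pool.Agent.Helper237.PF.Proj
import Pool.Agent.Helper237.PF.Quad

set_option autoImplicit false

open Metric Set Filter Topology

namespace PFrame

namespace J4799

section kernel

variable {W : Type} [NormedAddCommGroup W] [InnerProductSpace ℂ W]

variable {E : Type} [NormedAddCommGroup E] [InnerProductSpace ℂ E]

end kernel

section generalW

variable {W : Type} [NormedAddCommGroup W] [InnerProductSpace ℂ W]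
  {E : Type} [NormedAddCommGroup E] [InnerProductSpace ℂ E]
  {p : ℝ} {v : W → E} {J : E →L[ℂ] E}

end generalW

section main

variable {p : ℝ} {d : ℕ} {E : Type} [NormedAddCommGroup E] [InnerProductSpace ℂ E]
  [CompleteSpace E] {v : EuclideanSpace ℂ (Fin (d + 1)) → E} {J : E →L[ℂ] E}

theorem rel_move (hp : 0 < p) (hno : NoPD p d) (hΦ : IsFeat p v J)
    {c : EuclideanSpace ℂ (Fin (d + 1))} (hc : c ≠ 0)
    {S : Set (EuclideanSpace ℂ (Fin (d + 1)))}
    (f : E →L[ℂ] ℂ) (hS : S ⊆ ball 0 1) (hPD : PD p S)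
    {b : EuclideanSpace ℂ (Fin (d + 1))} (hb : Rel p v f c (HH v S) b)
    {V : Set (EuclideanSpace ℂ (Fin (d + 1)))} (hV : V ∈ 𝓝 b) :
    ∃ b' ∈ V, Rel p v f c (HH v S) b' ∧ ‖1 + inner ℂ c b'‖ < ‖1 + inner ℂ c b‖ := by
  obtain ⟨hbZ, hA, hnorm, T, hTZ, hTacc, hT⟩ := hb
  have hb1 : b ∈ ball (0 : EuclideanSpace ℂ (Fin (d + 1))) 1 := hbZ.1
  set A : ℂ := 1 + inner ℂ c b with hAdef
  -- the normalised function
  have hcont : Continuous fun u : EuclideanSpace ℂ (Fin (d + 1)) =>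
      (1 + inner ℂ c u) / A - 1 := by fun_prop
  have hev : ∀ᶠ u in 𝓝 b, ‖(1 + inner ℂ c u) / A - 1‖ < 1 / 8 := by
    have h0 : (1 + inner ℂ c b) / A - 1 = 0 := by
      rw [← hAdef, div_self hA, sub_self]
    have := hcont.norm.tendsto b
    simp only [h0, norm_zero] at this
    exact this.eventually (gt_mem_nhds (by norm_num))
  have hev2 : ∀ᶠ u in 𝓝 b, u ∈ V ∧ u ∈ ball (0 : EuclideanSpace ℂ (Fin (d + 1))) 1 ∧
      ‖(1 + inner ℂ c u) / A - 1‖ < 1 / 8 := by
    filter_upwards [hV, isOpen_ball.mem_nhds hb1, hev] with u h1 h2 h3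
    exact ⟨h1, h2, h3⟩
  obtain ⟨ρ, hρ, hρU⟩ := Metric.eventually_nhds_iff_ball.1 hev2
  set U : Set (EuclideanSpace ℂ (Fin (d + 1))) := ball b ρ with hUdef
  have hUo : IsOpen U := isOpen_ball
  have hbU : b ∈ U := mem_ball_self hρ
  have hU1 : U ⊆ ball 0 1 := fun u hu => (hρU u hu).2.1
  have hUn : U ∈ 𝓝 b := hUo.mem_nhds hbU
  have hT0acc : AccPt b (𝓟 (T ∩ U)) := by
    rw [accPt_iff_frequently] at hTacc ⊢
    have := hTacc.and_eventually hUn
    refine this.mono ?_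
    rintro y ⟨⟨h1, h2⟩, h3⟩
    exact ⟨h1, h2, h3⟩
  have hHsub : hull U (T ∩ U) ⊆ HH v S :=
    hull_subset_HH hΦ hU1 (fun s hs => hTZ hs.1)
  have hHU : hull U (T ∩ U) ⊆ U := fun z hz => hz.1
  -- the relation on the hull
  have hrel : ∀ z ∈ hull U (T ∩ U),
      f (v z) = f (v b) * ((1 + inner ℂ c z) / A) ^ (p : ℂ) := by
    intro z hz
    have hC : ContDiffOn ℂ 1 (fun u : EuclideanSpace ℂ (Fin (d + 1)) =>
        f (v u) - f (v b) * ((1 + inner ℂ c u) / A) ^ (p : ℂ)) U := by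
      apply ContDiffOn.sub
      · exact f.contDiff.comp_contDiffOn (hΦ.smooth.mono hU1)
      · apply ContDiffOn.mul contDiffOn_const
        intro u hu
        apply ContDiffAt.contDiffWithinAt
        have hslit : (1 + inner ℂ c u) / A ∈ Complex.slitPlane := by
          have h3 := (hρU u hu).2.2
          rw [Complex.mem_slitPlane_iff]
          left
          have h4 := (Complex.abs_re_le_norm ((1 + inner ℂ c u) / A - 1)).trans_lt h3
          rw [Complex.sub_re, Complex.one_re, abs_lt] at h4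
          linarith [h4.1]
        have hlin : AnalyticAt ℂ (fun u : EuclideanSpace ℂ (Fin (d + 1)) =>
            (1 + inner ℂ c u) / A) u := by
          apply AnalyticAt.div_const
          apply AnalyticAt.add analyticAt_const
          exact (innerSL ℂ c).analyticAt u
        exact (hlin.cpow analyticAt_const hslit).contDiffAt
    have := hz.2 _ hC ?_
    · exact sub_eq_zero.1 this
    · intro s hs
      exact sub_eq_zero.2 (hT s hs.1).2
  -- project
  have hℓ : (innerSL ℂ c) ≠ (0 : EuclideanSpace ℂ (Fin (d + 1)) →L[ℂ] ℂ) := by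
    intro h
    have : (innerSL ℂ c) c = 0 := by rw [h]; rfl
    rw [innerSL_apply_apply] at this
    exact hc (inner_self_eq_zero.1 this)
  have hPDH : PD p (hull U (T ∩ U)) := by
    intro s a hs
    exact PD_HH hΦ hS hPD s a (hs.trans hHsub)
  have hiso := hyper hno (hHU.trans hU1) hPDH hb1 (innerSL ℂ c) hℓ
  have hproj := proj (innerSL ℂ c) hℓ hUo hbU (Set.inter_subset_right) hT0acc hiso hUn
  have htend : Tendsto (fun τ : ℝ => -((τ : ℂ) * A)) (𝓝 0) (𝓝 0) := by
    have : Continuous (fun τ : ℝ => -((τ : ℂ) * A)) := by fun_prop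
    have h := this.tendsto 0
    simpa using h
  have hev3 := (htend.eventually hproj).filter_mono (nhdsWithin_le_nhds (s := Set.Ioi (0 : ℝ)))
  have hev4 : ∀ᶠ τ : ℝ in 𝓝[>] 0, τ < 1 / 8 :=
    nhdsWithin_le_nhds (gt_mem_nhds (by norm_num))
  obtain ⟨τ, ⟨⟨z, ⟨hzH, hzU⟩, hzℓ, hzacc⟩, hτ8⟩, hτ0⟩ :=
    ((hev3.and hev4).and self_mem_nhdsWithin).exists
  have hτ0' : (0 : ℝ) < τ := hτ0
  have hτ1 : 0 < 1 - τ := by linarith
  have hτne : ((1 - τ : ℝ) : ℂ) ≠ 0 := by
    exact_mod_cast hτ1.ne'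
  rw [innerSL_apply_apply, innerSL_apply_apply] at hzℓ
  have hz1 : 1 + inner ℂ c z = ((1 - τ : ℝ) : ℂ) * A := by
    rw [hzℓ, hAdef]; push_cast; ring
  have hzdiv : (1 + inner ℂ c z) / A = ((1 - τ : ℝ) : ℂ) := by
    rw [hz1]; field_simp
  have hfz : f (v z) = f (v b) * ((1 - τ : ℝ) : ℂ) ^ (p : ℂ) := by
    rw [hrel z hzH, hzdiv]
  have hnz : ‖1 + inner ℂ c z‖ = (1 - τ) * ‖A‖ := by
    rw [hz1, norm_mul, Complex.norm_real, Real.norm_of_nonneg hτ1.le]
  have hApos : 0 < ‖A‖ := norm_pos_iff.2 hA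
  refine ⟨z, (hρU z hzU).1, ⟨hHsub hzH, ?_, ?_, hull U (T ∩ U), hHsub, hzacc, ?_⟩, ?_⟩
  · rw [hz1]; exact mul_ne_zero hτne hA
  · rw [hfz, norm_mul, hnorm, hnz, Real.mul_rpow hτ1.le hApos.le, mul_comm,
      Complex.norm_cpow_eq_rpow_re_of_pos hτ1]
    simp
  · intro s hs
    have hsU := hHU hs
    have hs8 := (hρU s hsU).2.2
    set x : ℂ := (1 + inner ℂ c s) / A with hx
    have hquo : (1 + inner ℂ c s) / (1 + inner ℂ c z) = x / ((1 - τ : ℝ) : ℂ) := by
      rw [hz1, hx, div_div, mul_comm]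
    have hxne : x ≠ 0 := by
      intro h
      rw [h, zero_sub, norm_neg, norm_one] at hs8
      norm_num at hs8
    rw [hquo]
    constructor
    · have e1 : x / ((1 - τ : ℝ) : ℂ) - 1 = ((x - 1) + ((τ : ℝ) : ℂ)) / ((1 - τ : ℝ) : ℂ) := by
        rw [div_sub_one hτne]; push_cast; ring
      rw [e1, norm_div, Complex.norm_real, Real.norm_of_nonneg hτ1.le, div_le_iff₀ hτ1]
      have := norm_add_le (x - 1) ((τ : ℝ) : ℂ)
      rw [Complex.norm_real, Real.norm_of_nonneg hτ0'.le] at this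
      linarith
    · have e2 : x ^ (p : ℂ) = ((1 - τ : ℝ) : ℂ) ^ (p : ℂ) * (x / ((1 - τ : ℝ) : ℂ)) ^ (p : ℂ) := by
        have hyne : x / ((1 - τ : ℝ) : ℂ) ≠ 0 := div_ne_zero hxne hτne
        have hxy : x = ((1 - τ : ℝ) : ℂ) * (x / ((1 - τ : ℝ) : ℂ)) := by field_simp
        rw [Complex.cpow_def_of_ne_zero hxne, Complex.cpow_def_of_ne_zero hτne,
          Complex.cpow_def_of_ne_zero hyne, ← Complex.exp_add, ← add_mul]
        congr 2
        conv_lhs => rw [hxy]
        rw [Complex.log_ofReal_mul hτ1 hyne, Complex.ofReal_log hτ1.le]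
      rw [hrel s hs, hfz, ← hx, e2]; ring
  · rw [hnz]; nlinarith

end main

end J4799

export J4799 (rel_move)

end PFrame
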