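import Pool.Agent.Helper237.PF.Defs

set_option autoImplicit false

open Metric Set Filter Topology

namespace PFrame

namespace J4797

section kernel

variable {W : Type} [NormedAddCommGroup W] [InnerProductSpace ℂ W]

variable {E : Type} [NormedAddCommGroup E] [InnerProductSpace ℂ E]

end kernel

section main

variable {p : ℝ} {d : ℕ} {E : Type} [NormedAddCommGroup E] [InnerProductSpace ℂ E]
  [CompleteSpace E] {v : EuclideanSpace ℂ (Fin (d + 1)) → E} {J : E →L[ℂ] E}

theorem rel_zero (hp : 0 < p) (hΦ : IsFeat p v J) {c : EuclideanSpace ℂ (Fin (d + 1))}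
    {S : Set (EuclideanSpace ℂ (Fin (d + 1)))} {f : E →L[ℂ] ℂ} (hG : Good p v J c S f) :
    Rel p v f c (HH v S) 0 := by
  have hcl : ClusterPt (0 : EuclideanSpace ℂ (Fin (d + 1))) (𝓟 S) := hG.acc.clusterPt
  haveI hne : (𝓝[S] (0 : EuclideanSpace ℂ (Fin (d + 1)))).NeBot := hcl
  have h0b : (0 : EuclideanSpace ℂ (Fin (d + 1))) ∈ ball 0 1 := by simp
  have hvc : ContinuousAt v 0 :=
    (hΦ.smooth.continuousOn).continuousAt (isOpen_ball.mem_nhds h0b)
  have hv1 : Tendsto v (𝓝[S] 0) (𝓝 (v 0)) := hvc.mono_left nhdsWithin_le_nhds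
  have hv2 : v 0 ∈ closure (v '' S) := by
    refine mem_closure_of_tendsto hv1 ?_
    filter_upwards [self_mem_nhdsWithin] with s hs
    exact ⟨s, hs, rfl⟩
  have hmem0 : (0 : EuclideanSpace ℂ (Fin (d + 1))) ∈ HH v S := by
    refine ⟨h0b, ?_⟩
    unfold MM
    exact closure_mono Submodule.subset_span hv2
  have hf1 : f (v 0) = 1 := by
    have t1 : Tendsto (fun s => f (v s)) (𝓝[S] 0) (𝓝 (f (v 0))) :=
      (f.continuous.tendsto _).comp hv1
    have t2 : Tendsto (fun s => (1 + inner ℂ c s : ℂ) ^ (p : ℂ)) (𝓝[S] 0) (𝓝 1) := by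
      have t3 : ContinuousAt (fun s : EuclideanSpace ℂ (Fin (d + 1)) =>
          (1 + inner ℂ c s : ℂ) ^ (p : ℂ)) 0 := by
        refine ContinuousAt.cpow (by fun_prop) continuousAt_const ?_
        rw [inner_zero_right, add_zero]
        exact Complex.one_mem_slitPlane
      have t4 := t3.tendsto
      simp only [inner_zero_right, add_zero, Complex.one_cpow] at t4
      exact t4.mono_left nhdsWithin_le_nhds
    refine tendsto_nhds_unique t1 (t2.congr' ?_)
    filter_upwards [self_mem_nhdsWithin] with s hs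
    exact ((hG.rel s hs).2).symm
  refine ⟨hmem0, ?_, ?_, S, ?_, hG.acc, ?_⟩
  · rw [inner_zero_right, add_zero]; exact one_ne_zero
  · rw [hf1, inner_zero_right, add_zero, norm_one, Real.one_rpow]
  · intro s hs
    refine ⟨hG.sub hs, ?_⟩
    unfold MM
    exact Submodule.le_topologicalClosure _ (Submodule.subset_span ⟨s, hs, rfl⟩)
  · intro s hs
    rw [inner_zero_right, add_zero, div_one, add_sub_cancel_left, hf1, one_mul]
    exact hG.rel s hs

end main

end J4797

export J4797 (rel_zero)

end PFrame
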