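import Pool.Agent.Helper237.PF.Defs
import Pool.Agent.Helper237.PF.HullHH
import Pool.Agent.Helper237.PF.Hyper
import Pool.Agent.Helper237.PF.Irrfinal
import Pool.Agent.Helper237.PF.Quad

set_option autoImplicit false

open Metric Set Filter Topology

namespace PFrame

namespace J4800

section kernel

variable {W : Type} [NormedAddCommGroup W] [InnerProductSpace ℂ W]

variable {E : Type} [NormedAddCommGroup E] [InnerProductSpace ℂ E]

end kernel

section generalW

variable {W : Type} [NormedAddCommGroup W] [InnerProductSpace ℂ W]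
  {E : Type} [NormedAddCommGroup E] [InnerProductSpace ℂ E]
  {p : ℝ} {v : W → E} {J : E →L[ℂ] E}

end generalW

section main

variable {p : ℝ} {d : ℕ} {E : Type} [NormedAddCommGroup E] [InnerProductSpace ℂ E]
  [CompleteSpace E] {v : EuclideanSpace ℂ (Fin (d + 1)) → E} {J : E →L[ℂ] E}

theorem rel_zero_limit (hp : 0 < p) (hirr : Irrational p) (hno : NoPD p d) (hΦ : IsFeat p v J)
    {c : EuclideanSpace ℂ (Fin (d + 1))} {S : Set (EuclideanSpace ℂ (Fin (d + 1)))}
    (f : E →L[ℂ] ℂ) (hS : S ⊆ ball 0 1) (hPD : PD p S)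
    (b : ℕ → EuclideanSpace ℂ (Fin (d + 1))) (hb : ∀ n, Rel p v f c (HH v S) (b n))
    {b' : EuclideanSpace ℂ (Fin (d + 1))} (hlim : Tendsto b atTop (𝓝 b'))
    (hb' : b' ∈ ball (0 : EuclideanSpace ℂ (Fin (d + 1))) 1) (hz : 1 + inner ℂ c b' = 0) :
    False := by
  have hcb : inner ℂ c b' = -1 := by linear_combination hz
  have hsub : hull (ball 0 1) (range b) ⊆ HH v S := by
    refine hull_subset_HH hΦ le_rfl ?_
    rintro _ ⟨n, rfl⟩
    exact (hb n).1
  have hHH : HH v S ⊆ ball 0 1 := fun u hu => hu.1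
  have hℓ : innerSL ℂ c ≠ 0 := by
    intro h0
    have h1 : innerSL ℂ c b' = 0 := by rw [h0]; rfl
    rw [innerSL_apply_apply, hcb] at h1
    norm_num at h1
  have hdiff : ∀ n, innerSL ℂ c (b n) - innerSL ℂ c b' = 1 + inner ℂ c (b n) := by
    intro n
    rw [innerSL_apply_apply, innerSL_apply_apply, hcb]
    ring
  have hiso : ¬ AccPt b' (𝓟 (hull (ball 0 1) (range b) ∩ {z | innerSL ℂ c z = innerSL ℂ c b'})) := by
    intro hacc
    refine hyper hno hHH (PD_HH hΦ hS hPD) hb' (innerSL ℂ c) hℓ ?_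
    exact hacc.mono (principal_mono.2 (inter_subset_inter_left _ hsub))
  refine irr_final p hp hirr (innerSL ℂ c) hℓ isOpen_ball hb' b hlim (fun n => hHH (hb n).1)
    (fun n => ?_) hiso (fun u => f (v u)) (f.contDiff.comp_contDiffOn hΦ.smooth) (fun n => ?_)
  · intro h
    apply (hb n).2.1
    rw [← hdiff n, h, sub_self]
  · rw [hdiff n]
    exact (hb n).2.2.1

end main

end J4800

export J4800 (rel_zero_limit)

end PFrame
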