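import Pool.Agent.Helper237.PF.Defs
import Pool.Agent.Helper237.PF.Quad

set_option autoImplicit false

open Metric Set Filter Topology

namespace PFrame

namespace J4788

section kernel

variable {W : Type} [NormedAddCommGroup W] [InnerProductSpace ℂ W]

variable {E : Type} [NormedAddCommGroup E] [InnerProductSpace ℂ E]

end kernel

section generalW

variable {W : Type} [NormedAddCommGroup W] [InnerProductSpace ℂ W]
  {E : Type} [NormedAddCommGroup E] [InnerProductSpace ℂ E]
  {p : ℝ} {v : W → E} {J : E →L[ℂ] E}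

theorem good_start (hΦ : IsFeat p v J) {S : Set W} (hS : S ⊆ ball 0 1) (hPD : PD p S)
    (hacc : AccPt 0 (𝓟 S)) : ∃ f, Good p v J 0 S f := by
  have h0 : (0 : W) ∈ ball (0 : W) 1 := mem_ball_self one_pos
  have hv0 : inner ℂ (v 0) (v 0) = (1 : ℂ) := hΦ.one 0 h0
  have hn0 : ‖v 0‖ = 1 := by
    have h1 : ((‖v 0‖ : ℂ)) ^ 2 = 1 := by
      rw [← hv0]
      exact (inner_self_eq_norm_sq_to_K (𝕜 := ℂ) (v 0)).symm
    have h2 : ‖v 0‖ ^ 2 = 1 := by exact_mod_cast h1
    nlinarith [norm_nonneg (v 0)]
  have hcl : (0 : W) ∈ closure S := mem_closure_iff_clusterPt.2 hacc.clusterPt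
  have hcont : ContinuousWithinAt v S 0 :=
    (hΦ.smooth.continuousOn.continuousWithinAt h0).mono hS
  have hmem0 : v 0 ∈ MM v S := by
    have h1 : v 0 ∈ closure (v '' S) := hcont.mem_closure_image hcl
    have h2 : closure (v '' S) ⊆ closure ((Submodule.span ℂ (v '' S) : Submodule ℂ E) : Set E) :=
      closure_mono Submodule.subset_span
    have h3 := h2 h1
    rw [← Submodule.topologicalClosure_coe] at h3
    exact h3
  refine ⟨innerSL ℂ (v 0), hS, hacc, ?_, ?_, ?_⟩
  · intro x hx
    have hxM : x ∈ MM v S := Submodule.le_topologicalClosure _ hx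
    have hy : x - (inner ℂ (v 0) x) • v 0 ∈ MM v S :=
      Submodule.sub_mem _ hxM (Submodule.smul_mem _ _ hmem0)
    have hq := quad_nonneg hΦ hS hPD _ hy
    have hJ : inner ℂ (v 0) (J x) = inner ℂ (v 0) x := by
      rw [← hΦ.symm, hΦ.J0]
    have hc : inner ℂ x (v 0) = (starRingEnd ℂ) (inner ℂ (v 0) x) := (inner_conj_symm x (v 0)).symm
    have hexp : inner ℂ (x - (inner ℂ (v 0) x) • v 0) (J (x - (inner ℂ (v 0) x) • v 0))
        = inner ℂ x (J x) - (inner ℂ (v 0) x) * (starRingEnd ℂ) (inner ℂ (v 0) x) := by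
      rw [map_sub, map_smul, hΦ.J0, inner_sub_left, inner_sub_right, inner_sub_right,
        inner_smul_left, inner_smul_left, inner_smul_right, inner_smul_right, hJ, hv0, hc]
      ring
    rw [hexp, Complex.mul_conj, Complex.sub_re, Complex.ofReal_re, Complex.normSq_eq_norm_sq] at hq
    simp only [norm_zero, innerSL_apply_apply]
    norm_num
    linarith
  · intro s hs
    refine ⟨by simp, ?_⟩
    rw [innerSL_apply_apply, hΦ.one s (hS hs)]
    simp
  · rw [innerSL_apply_norm, hn0]
    have h1 : ‖v 0‖ ≤ ‖J‖ * ‖v 0‖ := by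
      have := J.le_opNorm (v 0)
      rwa [hΦ.J0] at this
    rw [hn0] at h1
    simp only [norm_zero]
    norm_num
    linarith

end generalW

end J4788

export J4788 (good_start)

end PFrame
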