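import Pool.Agent.Helper237.PF.Feat
import Pool.Agent.Helper237.PF.Quad
import Pool.Agent.Helper237.PF.Start
import Pool.Agent.Helper237.PF.RecPD
import Pool.Agent.Helper237.PF.Limit
import Pool.Agent.Helper237.PF.Move
import Pool.Agent.Helper237.PF.Far
import Pool.Agent.Helper237.PF.Relzero
import Pool.Agent.Helper237.PF.Relclosed
import Pool.Agent.Helper237.PF.Relmove
import Pool.Agent.Helper237.PF.Relzl
import Pool.Agent.Helper237.PF.Realfin
import Pool.Agent.Helper237.PF.Secvar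
import Pool.Agent.Helper237.PF.MinPD

set_option autoImplicit false

open Metric Set Filter Topology

namespace PFrame

section kernel

variable {W : Type} [NormedAddCommGroup W] [InnerProductSpace ℂ W]

variable {E : Type} [NormedAddCommGroup E] [InnerProductSpace ℂ E]

end kernel

section generalW

variable {W : Type} [NormedAddCommGroup W] [InnerProductSpace ℂ W]
  {E : Type} [NormedAddCommGroup E] [InnerProductSpace ℂ E]
  {p : ℝ} {v : W → E} {J : E →L[ℂ] E}

end generalW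

section main

variable {p : ℝ} {d : ℕ} {E : Type} [NormedAddCommGroup E] [InnerProductSpace ℂ E]
  [CompleteSpace E] {v : EuclideanSpace ℂ (Fin (d + 1)) → E} {J : E →L[ℂ] E}

theorem good_unbounded (hp : 0 < p) (hno : NoPD p d) (hΦ : IsFeat p v J)
    (hG : ∃ c S f, Good p v J c S f) : ∀ R : ℝ, ∃ c S f, Good p v J c S f ∧ R < ‖c‖ := by
  by_contra hcon
  push Not at hcon
  obtain ⟨R, hR⟩ := hcon
  set A : Set ℝ := {t | ∃ c S f, Good p v J c S f ∧ ‖c‖ = t} with hA
  have hne : A.Nonempty := by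
    obtain ⟨c, S, f, h⟩ := hG
    exact ⟨‖c‖, c, S, f, h, rfl⟩
  have hbdd : BddAbove A := ⟨R, by rintro _ ⟨c, S, f, h, rfl⟩; exact hR c S f h⟩
  have hseq : ∀ n : ℕ, ∃ t ∈ A, sSup A - 1 / ((n : ℝ) + 1) < t := by
    intro n
    apply exists_lt_of_lt_csSup hne
    have : (0 : ℝ) < 1 / ((n : ℝ) + 1) := by positivity
    linarith
  choose t htA ht using hseq
  choose c S f hGood hnorm using htA
  have hlim : Tendsto (fun n => ‖c n‖) atTop (𝓝 (sSup A)) := by
    have h2 : Tendsto (fun n : ℕ => sSup A - 1 / ((n : ℝ) + 1)) atTop (𝓝 (sSup A - 0)) :=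
      tendsto_const_nhds.sub tendsto_one_div_add_atTop_nhds_zero_nat
    rw [sub_zero] at h2
    refine tendsto_of_tendsto_of_tendsto_of_le_of_le h2 tendsto_const_nhds ?_ ?_
    · intro n
      simp only [hnorm n]
      exact (ht n).le
    · intro n
      exact le_csSup hbdd ⟨c n, S n, f n, hGood n, rfl⟩
  obtain ⟨c', S', f', hG', hM⟩ := good_limit hp hno hΦ c S f hGood _ hlim
  obtain ⟨c'', S'', f'', hG'', hlt⟩ := good_move hp hno hΦ hG'
  have := le_csSup hbdd ⟨c'', S'', f'', hG'', rfl⟩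
  rw [hM] at hlt
  linarith

end main

theorem noPD_zero (p : ℝ) : NoPD p 0 := by
  intro S _ _ hacc
  rw [accPt_iff_nhds] at hacc
  obtain ⟨y, _, hy⟩ := hacc univ univ_mem
  exact hy (Subsingleton.elim _ _)

theorem noPD_succ {p : ℝ} (hp : 0 < p) (hirr : Irrational p) {d : ℕ} (hno : NoPD p d) :
    NoPD p (d + 1) := by
  intro S₀ hS₀ hPD₀ hacc₀
  obtain ⟨E, _, _, _, v, J, hΦ⟩ := exists_feat p hp (d + 1)
  obtain ⟨f₀, hG₀⟩ := good_start hΦ hS₀ hPD₀ hacc₀
  obtain ⟨c, S, f, ρ, hG, hc, hρ0, hρ1, hfar⟩ :=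
    good_far hp hno hΦ (good_unbounded hp hno hΦ ⟨0, S₀, f₀, hG₀⟩)
  have hPD := good_PD hΦ hG
  set g : EuclideanSpace ℂ (Fin (d + 1)) → ℝ := fun b => ‖1 + inner ℂ c b‖ with hg
  have hgc : Continuous g := by
    rw [hg]
    exact (continuous_const.add (continuous_const.inner continuous_id)).norm
  set R : Set (EuclideanSpace ℂ (Fin (d + 1))) :=
    {b | Rel p v f c (HH v S) b ∧ ‖b‖ ≤ ρ} with hR
  have h0R : (0 : EuclideanSpace ℂ (Fin (d + 1))) ∈ R :=
    ⟨rel_zero hp hΦ hG, by rw [norm_zero]; exact hρ0.le⟩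
  have hbdd : BddBelow (g '' R) := ⟨0, by rintro _ ⟨b, _, rfl⟩; exact norm_nonneg _⟩
  set η := sInf (g '' R) with hη
  have hη1 : η ≤ 1 := by
    refine csInf_le hbdd ⟨0, h0R, ?_⟩
    simp [hg]
  have hseq : ∀ n : ℕ, ∃ b ∈ R, g b < η + 1 / ((n : ℝ) + 1) := by
    intro n
    have hlt : sInf (g '' R) < η + 1 / ((n : ℝ) + 1) := by
      rw [← hη]
      have : (0 : ℝ) < 1 / ((n : ℝ) + 1) := by positivity
      linarith
    obtain ⟨_, ⟨b, hb, rfl⟩, hlt'⟩ := exists_lt_of_csInf_lt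
      (⟨g 0, 0, h0R, rfl⟩ : (g '' R).Nonempty) hlt
    exact ⟨b, hb, hlt'⟩
  choose b hbR hbg using hseq
  obtain ⟨b', hb'mem, φ, hφ, hlim⟩ := (isCompact_closedBall
    (0 : EuclideanSpace ℂ (Fin (d + 1))) ρ).tendsto_subseq
    (x := b) (fun n => by rw [mem_closedBall_zero_iff]; exact (hbR n).2)
  rw [mem_closedBall_zero_iff] at hb'mem
  have hb'1 : b' ∈ ball (0 : EuclideanSpace ℂ (Fin (d + 1))) 1 := by
    rw [mem_ball_zero_iff]; exact lt_of_le_of_lt hb'mem hρ1
  have hgb' : g b' = η := by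
    refine le_antisymm ?_ ?_
    · have h1 : Tendsto (fun n => g (b (φ n))) atTop (𝓝 (g b')) :=
        (hgc.tendsto b').comp hlim
      have h2 : Tendsto (fun n => η + 1 / ((φ n : ℝ) + 1)) atTop (𝓝 (η + 0)) :=
        tendsto_const_nhds.add (tendsto_one_div_add_atTop_nhds_zero_nat.comp hφ.tendsto_atTop)
      rw [add_zero] at h2
      exact le_of_tendsto_of_tendsto' h1 h2 (fun n => (hbg (φ n)).le)
    · have h1 : Tendsto (fun n => g (b (φ n))) atTop (𝓝 (g b')) :=
        (hgc.tendsto b').comp hlim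
      exact ge_of_tendsto' h1 (fun n => csInf_le hbdd ⟨_, hbR (φ n), rfl⟩)
  have hb'Z : b' ∈ HH v S := by
    refine ⟨hb'1, ?_⟩
    have hcont : ContinuousAt v b' :=
      (hΦ.smooth.continuousOn).continuousAt (isOpen_ball.mem_nhds hb'1)
    have h1 : Tendsto (fun n => v (b (φ n))) atTop (𝓝 (v b')) := hcont.tendsto.comp hlim
    exact (Submodule.isClosed_topologicalClosure _).mem_of_tendsto h1
      (Eventually.of_forall fun n => ((hbR (φ n)).1.1).2)
  have hlt : ‖b'‖ < ρ := by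
    refine lt_of_le_of_ne hb'mem fun h => ?_
    have h3 := hfar b' hb'Z h
    have h4 : ‖1 + inner ℂ c b'‖ = η := hgb'
    rw [h4] at h3
    linarith
  by_cases hz : 1 + inner ℂ c b' = 0
  · exact rel_zero_limit hp hirr hno hΦ f hG.sub hPD (b ∘ φ) (fun n => (hbR (φ n)).1) hlim hb'1 hz
  · have hrel := rel_closed hp hno hΦ f hG.sub hPD (b ∘ φ) (fun n => (hbR (φ n)).1) hlim hb'1 hz
    obtain ⟨b'', hb''V, hrel'', hlt''⟩ := rel_move hp hno hΦ hc f hG.sub hPD hrel
      (isOpen_ball.mem_nhds (mem_ball_zero_iff.mpr hlt))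
    rw [mem_ball_zero_iff] at hb''V
    have h5 : η ≤ g b'' := csInf_le hbdd ⟨b'', ⟨hrel'', hb''V.le⟩, rfl⟩
    have h6 : g b'' < g b' := hlt''
    linarith

theorem noPD_all {p : ℝ} (hp : 0 < p) (hirr : Irrational p) (d : ℕ) : NoPD p d := by
  induction d with
  | zero => exact noPD_zero p
  | succ d ih => exact noPD_succ hp hirr ih

open MeasureTheory in
theorem main {d : ℕ} {p : ℝ} (hp : 0 < p) (hirr : Irrational p)
    {μ : Measure (sphere (0 : EuclideanSpace ℝ (Fin (d + 1))) 1)} (hμ : IsMinimizer d p μ) :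
    μ.support.Finite := by
  have h := real_finite (noPD_all hp hirr d) (Subtype.val '' μ.support)
    (by rintro _ ⟨x, _, rfl⟩; exact x.2) (fun s a hs => minimizer_PD hp hμ s a hs)
  exact h.of_finite_image Subtype.val_injective.injOn

end PFrame
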